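import Pool.Agent.W2helper40.RC.Arr3
import Pool.Agent.H440R2.LFL

set_option autoImplicit false

/-! `|b log q - a log p| ≥ κ exp (-ε (a + b))`. -/

namespace Pool.Agent.W2helper40.RC

open Finset Filter Topology
open Pool.Agent.H440R2 (lfl_core)

theorem lfl_coprime (p q : ℕ) (hp : 2 ≤ p) (hq : 2 ≤ q)
    (hne : ∀ a b : ℕ, 1 ≤ a → 1 ≤ b → (b : ℝ) * Real.log q - a * Real.log p ≠ 0) {ε : ℝ} (hε : 0 < ε) :
    ∃ κ : ℝ, 0 < κ ∧ κ ≤ 1 ∧ ∀ a b : ℕ, 1 ≤ a → 1 ≤ b → Nat.Coprime a b →
      κ * Real.exp (-(ε * (a + b))) ≤ |(b : ℝ) * Real.log q - a * Real.log p| := by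
  have hlp : 0 < Real.log p := Real.log_pos (by exact_mod_cast (by omega : 1 < p))
  have hlq : 0 < Real.log q := Real.log_pos (by exact_mod_cast (by omega : 1 < q))
  obtain ⟨Y₀, hY₀⟩ := exists_nat_ge (max (Real.log p) (Real.log q))
  set Y : ℕ := Y₀ + 1 with hYd
  have hY1 : 1 ≤ Y := by omega
  have hYr : (1 : ℝ) ≤ Y := by exact_mod_cast hY1
  have hYr0 : (0 : ℝ) < Y := by linarith
  have hpY : Real.log p ≤ Y := by
    have := (le_max_left (Real.log p) (Real.log q)).trans hY₀
    rw [hYd]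
    push_cast
    linarith
  have hqY : Real.log q ≤ Y := by
    have := (le_max_right (Real.log p) (Real.log q)).trans hY₀
    rw [hYd]
    push_cast
    linarith
  set c : ℝ := Real.sqrt (ε / (20880 * (Y : ℝ) ^ 2)) with hc
  have hc0 : 0 < c := Real.sqrt_pos.2 (by positivity)
  have hc2 : c ^ 2 = ε / (20880 * (Y : ℝ) ^ 2) := Real.sq_sqrt (by positivity)
  -- asymptotics in `s = a + b`
  have hsq : Tendsto (fun s : ℝ => Real.sqrt s) atTop atTop := Real.tendsto_sqrt_atTop
  have hlogsq : Tendsto (fun s : ℝ => Real.log s / Real.sqrt s) atTop (𝓝 0) := by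
    have h := (isLittleO_log_rpow_atTop (show (0 : ℝ) < 1 / 2 by norm_num)).tendsto_div_nhds_zero
    refine h.congr fun s => ?_
    rw [Real.sqrt_eq_rpow]
  have e1 : ∀ᶠ s : ℝ in atTop, 8 * (1 + Real.log (290 * Y * (c * Real.sqrt s) * s)) ≤
      c * Real.sqrt s - 1 := by
    have h1 : Tendsto (fun s : ℝ => (9 + 8 * Real.log (290 * Y * c) + 12 * Real.log s) / Real.sqrt s)
        atTop (𝓝 0) := by
      have h2 : Tendsto (fun s : ℝ => (9 + 8 * Real.log (290 * Y * c)) / Real.sqrt s) atTop (𝓝 0) :=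
        tendsto_const_nhds.div_atTop hsq
      have h3 := h2.add (hlogsq.const_mul 12)
      simp only [mul_zero, add_zero] at h3
      refine h3.congr fun s => ?_
      ring
    filter_upwards [h1.eventually (gt_mem_nhds hc0), eventually_gt_atTop 0] with s hs hs0
    have hss : 0 < Real.sqrt s := Real.sqrt_pos.2 hs0
    rw [div_lt_iff₀ hss] at hs
    have h4 : Real.log (290 * Y * (c * Real.sqrt s) * s) =
        Real.log (290 * Y * c) + 1 / 2 * Real.log s + Real.log s := by
      rw [show 290 * (Y : ℝ) * (c * Real.sqrt s) * s = (290 * Y * c) * Real.sqrt s * s by ring,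
        Real.log_mul (by positivity) hs0.ne', Real.log_mul (by positivity) hss.ne',
        Real.log_sqrt hs0.le]
      ring
    rw [h4]
    linarith
  have e2 : ∀ᶠ s : ℝ in atTop, 145 * Y * (c * Real.sqrt s) ≤
      (Real.log q * s - 1) / (Real.log p + Real.log q) := by
    have h1 : Tendsto (fun s : ℝ => Real.log q / (Real.log p + Real.log q) * Real.sqrt s) atTop atTop :=
      hsq.const_mul_atTop (by positivity)
    filter_upwards [h1.eventually_ge_atTop (145 * Y * c + 1 / (Real.log p + Real.log q)),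
      eventually_ge_atTop 1] with s hs hs1
    have hss : 1 ≤ Real.sqrt s := Real.one_le_sqrt.2 hs1
    have hs2 : Real.sqrt s * Real.sqrt s = s := Real.mul_self_sqrt (by linarith)
    have h2 : (Real.log q * s - 1) / (Real.log p + Real.log q) =
        (Real.log q / (Real.log p + Real.log q) * Real.sqrt s) * Real.sqrt s -
          1 / (Real.log p + Real.log q) := by
      rw [mul_assoc, hs2]
      field_simp
    rw [h2]
    have h3 := mul_le_mul_of_nonneg_right hs (by linarith : 0 ≤ Real.sqrt s)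
    have h4 : 0 < 1 / (Real.log p + Real.log q) := by positivity
    nlinarith
  have e3 : ∀ᶠ s : ℝ in atTop, 2 ≤ c * Real.sqrt s :=
    (hsq.const_mul_atTop hc0).eventually_ge_atTop 2
  obtain ⟨s₀, hs₀⟩ := eventually_atTop.1 ((e1.and e2).and e3)
  -- small `a + b`
  obtain ⟨κ, hκ0, hκ⟩ := finset_gap ((Finset.Icc 1 ⌈s₀⌉₊) ×ˢ (Finset.Icc 1 ⌈s₀⌉₊))
    (fun v : ℕ × ℕ => |(v.2 : ℝ) * Real.log q - v.1 * Real.log p|) (by
      intro v hv
      rw [mem_product, mem_Icc, mem_Icc] at hv
      exact abs_pos.2 (hne v.1 v.2 hv.1.1 hv.2.1))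
  refine ⟨min κ 1, lt_min hκ0 one_pos, min_le_right _ _, fun a b ha hb hab => ?_⟩
  have har : (1 : ℝ) ≤ a := by exact_mod_cast ha
  have hbr : (1 : ℝ) ≤ b := by exact_mod_cast hb
  have hexp1 : Real.exp (-(ε * (a + b))) ≤ 1 := Real.exp_le_one_iff.2 (by
    have : 0 ≤ ε * ((a : ℝ) + b) := by positivity
    linarith)
  have hexp0 : 0 < Real.exp (-(ε * ((a : ℝ) + b))) := Real.exp_pos _
  by_cases hs : s₀ ≤ (a : ℝ) + b
  · obtain ⟨⟨h1, h2⟩, h3⟩ := hs₀ _ hs
    by_cases hbig : 1 ≤ |(b : ℝ) * Real.log q - a * Real.log p|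
    · refine le_trans ?_ hbig
      calc min κ 1 * Real.exp (-(ε * (a + b))) ≤ 1 * 1 :=
            mul_le_mul (min_le_right _ _) hexp1 hexp0.le (by norm_num)
        _ = 1 := one_mul _
    · push Not at hbig
      set s : ℝ := (a : ℝ) + b with hsd
      have hs0 : 0 < s := by linarith
      set L : ℕ := ⌊c * Real.sqrt s⌋₊ with hL
      have hL1 : (L : ℝ) ≤ c * Real.sqrt s := Nat.floor_le (by positivity)
      have hL2 : c * Real.sqrt s < L + 1 := Nat.lt_floor_add_one _
      have hL3 : 1 ≤ L := by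
        apply Nat.le_floor
        push_cast
        linarith
      have hL3r : (1 : ℝ) ≤ L := by exact_mod_cast hL3
      have ha2 : 145 * (Y : ℝ) * L ≤ a := by
        have h4 : (Real.log q * s - 1) / (Real.log p + Real.log q) ≤ a := by
          rw [div_le_iff₀ (by positivity), hsd]
          have h5 := (abs_lt.1 hbig).2
          nlinarith
        calc 145 * (Y : ℝ) * L ≤ 145 * Y * (c * Real.sqrt s) :=
              mul_le_mul_of_nonneg_left hL1 (by positivity)
          _ ≤ _ := h2.trans h4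
      have h6 := lfl_core p q a b Y L hp hq ha hb hab hY1 hL3 hpY hqY
        (by exact_mod_cast ha2) (by
          have h7 : Real.log (290 * Y * L * (a + b)) ≤ Real.log (290 * Y * (c * Real.sqrt s) * s) := by
            apply Real.log_le_log (by positivity)
            rw [← hsd]
            apply mul_le_mul_of_nonneg_right _ hs0.le
            exact mul_le_mul_of_nonneg_left hL1 (by positivity)
          linarith)
      refine le_trans ?_ h6.le
      calc min κ 1 * Real.exp (-(ε * s)) ≤ 1 * Real.exp (-(ε * s)) :=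
            mul_le_mul_of_nonneg_right (min_le_right _ _) hexp0.le
        _ = Real.exp (-(ε * s)) := one_mul _
        _ ≤ Real.exp (-(20880 * (Y : ℝ) ^ 2 * (L : ℝ) ^ 2)) := by
            apply Real.exp_le_exp.2
            have h8 : (L : ℝ) ^ 2 ≤ c ^ 2 * s := by
              have := pow_le_pow_left₀ (by positivity) hL1 2
              rwa [mul_pow, Real.sq_sqrt hs0.le] at this
            have h9 : 20880 * (Y : ℝ) ^ 2 * (c ^ 2 * s) = ε * s := by
              rw [hc2]
              field_simp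
            have h10 := mul_le_mul_of_nonneg_left h8 (show 0 ≤ 20880 * (Y : ℝ) ^ 2 by positivity)
            linarith
  · push Not at hs
    have hle : (a : ℝ) + b ≤ ⌈s₀⌉₊ := hs.le.trans (Nat.le_ceil _)
    have hle' : a + b ≤ ⌈s₀⌉₊ := by exact_mod_cast hle
    have h1 := hκ (a, b) (by
      rw [mem_product, mem_Icc, mem_Icc]
      exact ⟨⟨ha, by omega⟩, hb, by omega⟩)
    refine le_trans ?_ h1
    calc min κ 1 * Real.exp (-(ε * (a + b))) ≤ κ * 1 :=
          mul_le_mul (min_le_left _ _) hexp1 hexp0.le hκ0.le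
      _ = κ := mul_one _

theorem lfl_exp (p q : ℕ) (hp : 2 ≤ p) (hq : 2 ≤ q)
    (hne : ∀ a b : ℕ, 1 ≤ a → 1 ≤ b → (b : ℝ) * Real.log q - a * Real.log p ≠ 0) {ε : ℝ} (hε : 0 < ε) :
    ∃ κ : ℝ, 0 < κ ∧ ∀ a b : ℕ, 1 ≤ a → 1 ≤ b →
      κ * Real.exp (-(ε * (a + b))) ≤ |(b : ℝ) * Real.log q - a * Real.log p| := by
  obtain ⟨κ, hκ0, hκ1, h⟩ := lfl_coprime p q hp hq hne hε
  refine ⟨κ, hκ0, fun a b ha hb => ?_⟩
  set g := Nat.gcd a b with hg
  have hg0 : 0 < g := Nat.gcd_pos_of_pos_left _ ha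
  obtain ⟨a', ha'⟩ : g ∣ a := Nat.gcd_dvd_left a b
  obtain ⟨b', hb'⟩ : g ∣ b := Nat.gcd_dvd_right a b
  have hcop : Nat.Coprime a' b' := by
    have h1 : Nat.gcd (g * a') (g * b') = g := by rw [← ha', ← hb']
    rw [Nat.gcd_mul_left] at h1
    exact Nat.eq_of_mul_eq_mul_left hg0 (by rw [h1, mul_one])
  have ha1 : 1 ≤ a' := by
    rcases Nat.eq_zero_or_pos a' with h0 | h0
    · rw [h0, mul_zero] at ha'
      omega
    · exact h0
  have hb1 : 1 ≤ b' := by
    rcases Nat.eq_zero_or_pos b' with h0 | h0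
    · rw [h0, mul_zero] at hb'
      omega
    · exact h0
  have h1 := h a' b' ha1 hb1 hcop
  have hgr : (1 : ℝ) ≤ g := by exact_mod_cast hg0
  have har : (a : ℝ) = g * a' := by exact_mod_cast ha'
  have hbr : (b : ℝ) = g * b' := by exact_mod_cast hb'
  have e1 : (b : ℝ) * Real.log q - a * Real.log p =
      g * ((b' : ℝ) * Real.log q - a' * Real.log p) := by
    rw [har, hbr]
    ring
  rw [e1, abs_mul, abs_of_pos (by linarith)]
  have h2 : κ * Real.exp (-(ε * (a + b))) ≤ κ * Real.exp (-(ε * (a' + b'))) := by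
    apply mul_le_mul_of_nonneg_left _ hκ0.le
    apply Real.exp_le_exp.2
    rw [har, hbr]
    have : (a' : ℝ) + b' ≤ g * a' + g * b' := by
      have h3 : (0 : ℝ) ≤ a' := by positivity
      have h4 : (0 : ℝ) ≤ b' := by positivity
      nlinarith
    nlinarith
  refine h2.trans (h1.trans ?_)
  exact le_mul_of_one_le_left (abs_nonneg _) hgr

end Pool.Agent.W2helper40.RC
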