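import Pool.Agent.W2helper40.RC.Query

set_option autoImplicit false

/-! The arrays of preimages: definitions and deterministic facts. -/

namespace Pool.Agent.W2helper40.RC

open MeasureTheory ProbabilityTheory Finset Filter Topology

/-- parameters -/
structure Par where
  R : ℕ
  b : ℕ
  a : ℝ
  κ : ℝ
  z : ℝ

namespace Par

variable (q : Par)

/-- logarithmic position -/
noncomputable def pos (t o : ℕ) : ℝ := q.a + t * Real.log 2 - o * Real.log 3

/-- half-width of the windows -/
noncomputable def kap (t : ℕ) : ℝ := q.κ * (1 - q.z ^ t / 2)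

open Classical in
/-- windows -/
noncomputable def W (t o : ℕ) : Finset ℕ :=
  (Finset.Icc 1 ⌊Real.exp (q.a + t * Real.log 2 + q.κ)⌋₊).filter
    fun n => |Real.log n - q.pos t o| ≤ q.kap t

/-- validity of the numbers -/
structure Ok : Prop where
  hκ : 0 < q.κ
  hz0 : 0 < q.z
  hz1 : q.z < 1

variable {q}

theorem kap_le (h : q.Ok) (t : ℕ) : q.kap t ≤ q.κ := by
  unfold kap
  have := pow_pos h.hz0 t
  nlinarith [h.hκ]

theorem kap_ge (h : q.Ok) (t : ℕ) : q.κ / 2 ≤ q.kap t := by
  unfold kap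
  have := pow_le_one₀ h.hz0.le h.hz1.le (n := t)
  nlinarith [h.hκ]

theorem kap_mono (h : q.Ok) (t : ℕ) : q.kap t ≤ q.kap (t + 1) := by
  unfold kap
  apply mul_le_mul_of_nonneg_left _ h.hκ.le
  have h1 := pow_pos h.hz0 t
  have h2 := h.hz1
  rw [pow_succ]
  nlinarith

theorem mem_W (h : q.Ok) {t o n : ℕ} : n ∈ q.W t o ↔ 1 ≤ n ∧ |Real.log n - q.pos t o| ≤ q.kap t := by
  classical
  unfold W
  rw [mem_filter, mem_Icc]
  constructor
  · rintro ⟨⟨h1, _⟩, h2⟩
    exact ⟨h1, h2⟩
  · rintro ⟨h1, h2⟩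
    refine ⟨⟨h1, ?_⟩, h2⟩
    apply Nat.le_floor
    have hn : (0 : ℝ) < n := by exact_mod_cast h1
    rw [← Real.log_le_iff_le_exp hn]
    have h3 := (abs_le.1 h2).2
    have h4 := kap_le h t
    have h5 : 0 ≤ (o : ℝ) * Real.log 3 := by
      have : 0 < Real.log 3 := Real.log_pos (by norm_num)
      positivity
    unfold pos at h3
    linarith

theorem W_double (h : q.Ok) {t o n : ℕ} (hn : n ∈ q.W t o) : 2 * n ∈ q.W (t + 1) o := by
  rw [mem_W h] at hn ⊢
  have hn0 : (n : ℝ) ≠ 0 := by exact_mod_cast (by omega : n ≠ 0)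
  refine ⟨by omega, ?_⟩
  have h1 : Real.log ((2 * n : ℕ) : ℝ) - q.pos (t + 1) o = Real.log n - q.pos t o := by
    unfold pos
    push_cast
    rw [Real.log_mul (by norm_num) hn0]
    ring
  rw [h1]
  exact hn.2.trans (kap_mono h t)

variable (q)

open Classical in
/-- odd preimages -/
noncomputable def Oo (y : ℕ → ℤ) (t o : ℕ) (G : Finset ℕ) : Finset ℕ :=
  (q.W t o).filter fun n => n % 2 = 1 ∧ S y n ∈ G

open Classical in
/-- block arrays -/
noncomputable def Bk (y : ℕ → ℤ) (t₀ o₀ : ℕ) (X : Finset ℕ) : ℕ → ℕ → Finset ℕ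
  | 0, 0 => X
  | 0, _ + 1 => ∅
  | i + 1, 0 => (Bk y t₀ o₀ X i 0).image fun n => 2 * n
  | i + 1, j + 1 => ((Bk y t₀ o₀ X i (j + 1)).image fun n => 2 * n) ∪
      q.Oo y (t₀ + i + 1) (o₀ + j + 1) (Bk y t₀ o₀ X i j)

/-- the successive populations -/
noncomputable def XX (y : ℕ → ℤ) : ℕ → Finset ℕ
  | 0 => q.W 0 0
  | l + 1 => q.Bk y (l * q.R) (l * q.b) (XX y l) q.R q.b

variable {q}

theorem S_double (y : ℕ → ℤ) (n : ℕ) : S y (2 * n) = n := by
  unfold S
  rw [if_pos (by omega)]
  omega

theorem Bk_sub (h : q.Ok) {y : ℕ → ℤ} {t₀ o₀ : ℕ} {X : Finset ℕ} (hX : X ⊆ q.W t₀ o₀) (i : ℕ) :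
    ∀ j, q.Bk y t₀ o₀ X i j ⊆ q.W (t₀ + i) (o₀ + j) := by
  classical
  induction i with
  | zero =>
    intro j
    cases j with
    | zero => simpa [Bk] using hX
    | succ j => simp [Bk]
  | succ i ih =>
    intro j
    cases j with
    | zero =>
      intro n hn
      simp only [Bk, mem_image] at hn
      obtain ⟨m, hm, rfl⟩ := hn
      exact W_double h (ih 0 hm)
    | succ j =>
      intro n hn
      simp only [Bk, mem_union, mem_image, Oo, mem_filter] at hn
      rcases hn with ⟨m, hm, rfl⟩ | ⟨hn, _⟩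
      · exact W_double h (ih (j + 1) hm)
      · exact hn

theorem Bk_iter {y : ℕ → ℤ} {t₀ o₀ : ℕ} {X : Finset ℕ} (i : ℕ) :
    ∀ j, ∀ n ∈ q.Bk y t₀ o₀ X i j, (S y)^[i] n ∈ X := by
  classical
  induction i with
  | zero =>
    intro j n hn
    cases j with
    | zero => simpa [Bk] using hn
    | succ j => simp [Bk] at hn
  | succ i ih =>
    intro j n hn
    rw [Function.iterate_succ_apply]
    cases j with
    | zero =>
      simp only [Bk, mem_image] at hn
      obtain ⟨m, hm, rfl⟩ := hn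
      rw [S_double]
      exact ih 0 m hm
    | succ j =>
      simp only [Bk, mem_union, mem_image, Oo, mem_filter] at hn
      rcases hn with ⟨m, hm, rfl⟩ | ⟨_, _, hn⟩
      · rw [S_double]
        exact ih (j + 1) m hm
      · exact ih j _ hn

theorem XX_sub (h : q.Ok) (y : ℕ → ℤ) (l : ℕ) : q.XX y l ⊆ q.W (l * q.R) (l * q.b) := by
  induction l with
  | zero => simp [XX]
  | succ l ih =>
    have := Bk_sub h (y := y) ih q.R q.b
    rw [Nat.succ_mul, Nat.succ_mul]
    exact this

theorem XX_iter {y : ℕ → ℤ} {l : ℕ} {n : ℕ} (hn : n ∈ q.XX y (l + 1)) :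
    (S y)^[q.R] n ∈ q.XX y l := Bk_iter q.R q.b n hn

theorem XX_iter' {y : ℕ → ℤ} (d : ℕ) : ∀ {l : ℕ} {n : ℕ}, n ∈ q.XX y (l + d) →
    (S y)^[d * q.R] n ∈ q.XX y l := by
  induction d with
  | zero =>
    intro l n hn
    simpa using hn
  | succ d ih =>
    intro l n hn
    rw [Nat.succ_mul, Function.iterate_add_apply]
    exact ih (XX_iter (by rwa [← Nat.add_assoc] at hn))

/-! ### dependence on the sites -/

variable (q)

/-- the strip -/
def Strip (t o : ℕ) : Prop := t * q.b ≤ o * q.R + q.R * q.b ∧ o * q.R ≤ t * q.b + q.R * q.b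

/-- the sites used up to time `t` -/
def UU (t : ℕ) : Set ℕ := {n | ∃ t' ≤ t, ∃ o', q.Strip t' o' ∧ n ∈ q.W t' o'}

/-- a finite set which depends only on the sites in `U` -/
def DepF (H : (ℕ → ℤ) → Finset ℕ) (U : Set ℕ) : Prop :=
  ∀ y y' : ℕ → ℤ, (∀ i ∈ U, y i = y' i) → H y = H y'

variable {q}

theorem UU_mono {t t' : ℕ} (h : t ≤ t') : q.UU t ⊆ q.UU t' := by
  rintro n ⟨s, hs, o, ho, hn⟩
  exact ⟨s, hs.trans h, o, ho, hn⟩

theorem UU_finite (h : q.Ok) (t : ℕ) : (q.UU t).Finite := by
  refine (Set.finite_Iic ⌊Real.exp (q.a + t * Real.log 2 + q.κ)⌋₊).subset ?_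
  rintro n ⟨s, hs, o, _, hn⟩
  rw [mem_W h] at hn
  rw [Set.mem_Iic]
  apply Nat.le_floor
  have hn0 : (0 : ℝ) < n := by exact_mod_cast hn.1
  rw [← Real.log_le_iff_le_exp hn0]
  have h3 := (abs_le.1 hn.2).2
  have h4 := kap_le h s
  have h5 : 0 ≤ (o : ℝ) * Real.log 3 := by
    have : 0 < Real.log 3 := Real.log_pos (by norm_num)
    positivity
  have h6 : (s : ℝ) * Real.log 2 ≤ t * Real.log 2 :=
    mul_le_mul_of_nonneg_right (by exact_mod_cast hs) (Real.log_pos (by norm_num)).le
  unfold pos at h3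
  linarith

theorem strip_of {l i j : ℕ} (hi : i ≤ q.R) (hj : j ≤ q.b) :
    q.Strip (l * q.R + i) (l * q.b + j) := by
  unfold Strip
  have h1 : i * q.b ≤ q.R * q.b := Nat.mul_le_mul_right _ hi
  have h2 : j * q.R ≤ q.b * q.R := Nat.mul_le_mul_right _ hj
  constructor <;> nlinarith

theorem Bk_dep {l : ℕ} {X : (ℕ → ℤ) → Finset ℕ} (hX : DepF X (q.UU (l * q.R))) (i : ℕ) :
    i ≤ q.R → ∀ j ≤ q.b, DepF (fun y => q.Bk y (l * q.R) (l * q.b) (X y) i j)
      (q.UU (l * q.R + i)) := by
  classical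
  induction i with
  | zero =>
    intro _ j _
    cases j with
    | zero => simpa [Bk] using hX
    | succ j =>
      intro y y' _
      simp [Bk]
  | succ i ih =>
    intro hi j hj y y' hy
    have hmono : ∀ n ∈ q.UU (l * q.R + i), y n = y' n := fun n hn =>
      hy n (UU_mono (by omega) hn)
    cases j with
    | zero =>
      have e0 := ih (by omega) 0 (by omega) y y' hmono
      simp only at e0
      simp only [Bk]
      rw [e0]
    | succ j =>
      have e1 := ih (by omega) (j + 1) hj y y' hmono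
      have e2 := ih (by omega) j (by omega) y y' hmono
      simp only at e1 e2
      simp only [Bk]
      rw [e1, e2]
      congr 1
      unfold Oo
      apply Finset.filter_congr
      intro n hn
      have hn2 : y n = y' n := by
        apply hy
        exact ⟨l * q.R + (i + 1), le_rfl, l * q.b + (j + 1), strip_of hi hj, hn⟩
      unfold S
      rw [hn2]

theorem XX_dep (l : ℕ) : DepF (fun y => q.XX y l) (q.UU (l * q.R)) := by
  induction l with
  | zero =>
    intro y y' _
    rfl
  | succ l ih =>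
    have := Bk_dep ih q.R le_rfl q.b le_rfl
    rw [Nat.succ_mul]
    exact this

/-! ### cardinalities -/

variable (q)

/-- the lower bound for the cardinality -/
noncomputable def cc (θ : ℝ) (l i j : ℕ) : ℝ :=
  (i.choose j : ℝ) * θ ^ j * (((q.R.choose q.b : ℕ) : ℝ) * θ ^ q.b) ^ l * ((q.W 0 0).card : ℝ)

/-- the bad event -/
def Bad (θ : ℝ) (y : ℕ → ℤ) (l i j : ℕ) : Prop :=
  q.cc θ l i j ≤ ((q.Bk y (l * q.R) (l * q.b) (q.XX y l) i j).card : ℝ) ∧
    ((q.Oo y (l * q.R + i + 1) (l * q.b + j + 1)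
      (q.Bk y (l * q.R) (l * q.b) (q.XX y l) i j)).card : ℝ) <
      θ * ((q.Bk y (l * q.R) (l * q.b) (q.XX y l) i j).card : ℝ)

variable {q}

theorem card_low {θ : ℝ} (hθ : 0 ≤ θ) {y : ℕ → ℤ}
    (hbad : ∀ l, ∀ i < q.R, ∀ j < q.b, j ≤ i → ¬ q.Bad θ y l i j) (l : ℕ) :
    ∀ i ≤ q.R, ∀ j ≤ q.b,
      q.cc θ l i j ≤ ((q.Bk y (l * q.R) (l * q.b) (q.XX y l) i j).card : ℝ) := by
  classical
  have key : ∀ l, q.cc θ l 0 0 ≤ ((q.XX y l).card : ℝ) → ∀ i ≤ q.R, ∀ j ≤ q.b,
      q.cc θ l i j ≤ ((q.Bk y (l * q.R) (l * q.b) (q.XX y l) i j).card : ℝ) := by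
    intro l hl i
    induction i with
    | zero =>
      intro _ j _
      cases j with
      | zero => simpa [Bk] using hl
      | succ j => simp [Bk, cc]
    | succ i ih =>
      intro hi j hj
      cases j with
      | zero =>
        have h1 := ih (by omega) 0 (by omega)
        simp only [Bk]
        rw [Finset.card_image_of_injective _ (fun a b h => by simpa using h)]
        refine le_trans (le_of_eq ?_) h1
        simp [cc]
      | succ j =>
        have h1 := ih (by omega) (j + 1) hj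
        have h2 := ih (by omega) j (by omega)
        simp only [Bk]
        have hdisj : Disjoint ((q.Bk y (l * q.R) (l * q.b) (q.XX y l) i (j + 1)).image
            fun n => 2 * n) (q.Oo y (l * q.R + i + 1) (l * q.b + j + 1)
            (q.Bk y (l * q.R) (l * q.b) (q.XX y l) i j)) := by
          rw [Finset.disjoint_left]
          intro n hn hn'
          rw [mem_image] at hn
          obtain ⟨m, _, rfl⟩ := hn
          unfold Oo at hn'
          rw [mem_filter] at hn'
          omega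
        rw [Finset.card_union_of_disjoint hdisj,
          Finset.card_image_of_injective _ (fun a b h => by simpa using h)]
        push_cast
        have h3 : θ * q.cc θ l i j ≤ ((q.Oo y (l * q.R + i + 1) (l * q.b + j + 1)
            (q.Bk y (l * q.R) (l * q.b) (q.XX y l) i j)).card : ℝ) := by
          by_cases hji : j ≤ i
          · have h4 := hbad l i (by omega) j (by omega) hji
            unfold Bad at h4
            rw [not_and, not_lt] at h4
            exact (mul_le_mul_of_nonneg_left h2 hθ).trans (h4 h2)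
          · have : q.cc θ l i j = 0 := by
              unfold cc
              rw [Nat.choose_eq_zero_of_lt (by omega)]
              simp
            rw [this, mul_zero]
            positivity
        have h5 : q.cc θ l (i + 1) (j + 1) = q.cc θ l i (j + 1) + θ * q.cc θ l i j := by
          unfold cc
          rw [Nat.choose_succ_succ]
          push_cast
          ring
        rw [h5]
        linarith
  have hall : ∀ l, q.cc θ l 0 0 ≤ ((q.XX y l).card : ℝ) := by
    intro l
    induction l with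
    | zero => simp [cc, XX]
    | succ l ih =>
      have h1 := key l ih q.R le_rfl q.b le_rfl
      simp only [XX]
      refine le_trans (le_of_eq ?_) h1
      unfold cc
      simp only [Nat.choose_self, Nat.cast_one, pow_zero, one_mul, mul_one, pow_succ]
      ring
  exact key l (hall l)

theorem XX_card {θ : ℝ} (hθ : 0 ≤ θ) {y : ℕ → ℤ}
    (hbad : ∀ l, ∀ i < q.R, ∀ j < q.b, j ≤ i → ¬ q.Bad θ y l i j) (l : ℕ) :
    (((q.R.choose q.b : ℕ) : ℝ) * θ ^ q.b) ^ l * ((q.W 0 0).card : ℝ) ≤ ((q.XX y l).card : ℝ) := by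
  have := card_low hθ hbad l 0 (by omega) 0 (by omega)
  simpa [cc, Bk] using this

end Par

end Pool.Agent.W2helper40.RC
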