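import Pool.Agent.W2helper40.RC.Arr

set_option autoImplicit false

/-! The windows contain all possible preimages; the probability of the bad events. -/

namespace Pool.Agent.W2helper40.RC

open MeasureTheory ProbabilityTheory Finset Filter Topology

variable {Ω : Type*} [MeasurableSpace Ω]

theorem log_err {J : ℕ → ℕ} (hA : Amp J) {m u : ℕ} (hm : 12 ≤ m) (h : Hit J m u) :
    (m : ℝ) ≤ 3 * (2 * u + 1 : ℕ) ∧
    |Real.log ((2 * u + 1 : ℕ) : ℝ) - (Real.log m + Real.log 2 - Real.log 3)| ≤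
      2 / Real.sqrt ((2 * u + 1 : ℕ) : ℝ) := by
  obtain ⟨n, hn⟩ : ∃ n, n = 2 * u + 1 := ⟨_, rfl⟩
  obtain ⟨h1, h2⟩ := h
  rw [← hn] at h1 h2 ⊢
  have hJn := hA.le_self (show 1 ≤ n by omega)
  have hm3 : m ≤ 3 * n := by omega
  have hn4 : 4 ≤ n := by omega
  have hm3r : (m : ℝ) ≤ 3 * n := by exact_mod_cast hm3
  refine ⟨by simpa using hm3r, ?_⟩
  have hn0 : (0 : ℝ) < n := by exact_mod_cast (by omega : 0 < n)
  have hn4r : (4 : ℝ) ≤ n := by exact_mod_cast hn4
  have hm0 : (0 : ℝ) < m := by exact_mod_cast (by omega : 0 < m)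
  set s := Real.sqrt n with hs
  have hs2 : s * s = n := Real.mul_self_sqrt hn0.le
  have hs2' : 2 ≤ s := by
    rw [hs]
    apply Real.le_sqrt_of_sq_le
    norm_num
    exact hn4
  have hJs : (J n : ℝ) ≤ s := by
    rw [hs]
    apply Real.le_sqrt_of_sq_le
    exact_mod_cast hA.sq n (by omega)
  have hJ1 : (1 : ℝ) ≤ J n := by exact_mod_cast hA.one n (by omega)
  -- the relative error
  obtain ⟨d, hd⟩ : ∃ d : ℤ, d = (m : ℤ) - (3 * u + 2) := ⟨_, rfl⟩
  have hdm : 2 * (m : ℤ) = 3 * n + 1 + 2 * d := by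
    rw [hd, hn]
    push_cast
    ring
  have hdmr : 2 * (m : ℝ) = 3 * n + 1 + 2 * d := by exact_mod_cast hdm
  rw [← hd] at h1 h2
  have h1r : -(J n : ℝ) ≤ d := by exact_mod_cast h1
  have h2r : (d : ℝ) + 1 ≤ J n := by exact_mod_cast h2
  set x : ℝ := (1 + 2 * d) / (3 * n) with hx
  have hxs : |x| ≤ 1 / s := by
    rw [hx, abs_div, abs_of_pos (show (0 : ℝ) < 3 * n by positivity), div_le_div_iff₀ (by positivity)
      (by linarith)]
    have h3 : |1 + 2 * (d : ℝ)| ≤ 3 * s := by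
      rw [abs_le]
      constructor <;> linarith
    calc |1 + 2 * (d : ℝ)| * s ≤ 3 * s * s := mul_le_mul_of_nonneg_right h3 (by linarith)
      _ = 1 * (3 * n) := by rw [← hs2]; ring
  have hx2 : 1 / s ≤ 1 / 2 := one_div_le_one_div_of_le (by norm_num) hs2'
  have hxa := abs_le.1 hxs
  have hx1 : 0 < 1 + x := by linarith
  have hlog : Real.log m + Real.log 2 - Real.log 3 = Real.log n + Real.log (1 + x) := by
    have e1 : (2 : ℝ) * m = 3 * (n * (1 + x)) := by
      rw [hdmr, hx]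
      field_simp
      ring
    have e2 := congrArg Real.log e1
    rw [Real.log_mul (by norm_num) hm0.ne', Real.log_mul (by norm_num) (by positivity),
      Real.log_mul hn0.ne' hx1.ne'] at e2
    linarith
  rw [hlog, show Real.log n - (Real.log n + Real.log (1 + x)) = -Real.log (1 + x) by ring, abs_neg,
    abs_le]
  have h5 := Real.log_le_sub_one_of_pos hx1
  have h6 := Real.one_sub_inv_le_log_of_pos hx1
  have h7 : -(2 / s) ≤ 1 - (1 + x)⁻¹ := by
    have e1 : 1 - (1 + x)⁻¹ = x / (1 + x) := by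
      field_simp
      ring
    rw [e1, show -(2 / s) = -2 * (1 / s) by ring, le_div_iff₀ hx1]
    have hs0 : 0 < 1 / s := by positivity
    rcases le_or_gt 0 x with hx0 | hx0
    · nlinarith
    · nlinarith
  constructor
  · linarith
  · have : 2 / s = 2 * (1 / s) := by ring
    have hs0 : 0 < 1 / s := by positivity
    linarith

namespace Par

variable {q : Par}

/-- drift -/
noncomputable def lam (q : Par) : ℝ := Real.log 2 - (q.b : ℝ) / q.R * Real.log 3

/-- the requirements on the parameters -/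
structure Big (q : Par) (m₀ : ℕ) : Prop where
  ok : q.Ok
  hR : 0 < q.R
  hlam : 0 < q.lam
  hz : q.z = Real.exp (-(q.lam / 2))
  herr : 2 * Real.exp (-((q.a - q.b * Real.log 3 - q.κ - Real.log 3) / 2)) ≤
    q.κ / 2 * (1 - q.z)
  hm12 : 12 ≤ m₀
  hm : Real.log m₀ ≤ q.a - q.b * Real.log 3 - q.κ
  sep : ∀ t' t o o' : ℕ, t' < t → q.Strip t o → q.Strip t' o' →
    2 * q.κ < |((t : ℝ) - t') * Real.log 2 - ((o : ℝ) - o') * Real.log 3|

theorem pos_ge (hR : 0 < q.R) {t o : ℕ} (h : q.Strip t o) :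
    q.a + q.lam * t - q.b * Real.log 3 ≤ q.pos t o := by
  have hRr : (0 : ℝ) < q.R := by exact_mod_cast hR
  have h1 : (o : ℝ) * q.R ≤ t * q.b + q.R * q.b := by exact_mod_cast h.2
  have h2 : (o : ℝ) ≤ (q.b : ℝ) / q.R * t + q.b := by
    have : (q.b : ℝ) / q.R * t + q.b = (t * q.b + q.R * q.b) / q.R := by
      field_simp
    rw [this, le_div_iff₀ hRr]
    exact h1
  have h3 : 0 < Real.log 3 := Real.log_pos (by norm_num)
  unfold pos lam
  nlinarith [mul_le_mul_of_nonneg_right h2 h3.le]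

theorem W_large {m₀ : ℕ} (hq : q.Big m₀) {t o m : ℕ} (hs : q.Strip t o) (hm : m ∈ q.W t o) :
    m₀ ≤ m := by
  rw [mem_W hq.ok] at hm
  have h1 := pos_ge hq.hR hs
  have h2 := (abs_le.1 hm.2).1
  have h3 := kap_le hq.ok t
  have h4 := hq.hm
  have h5 : 0 ≤ q.lam * t := mul_nonneg hq.hlam.le (by positivity)
  have h6 : Real.log m₀ ≤ Real.log m := by linarith
  have h7 : (0 : ℝ) < m₀ := by exact_mod_cast (lt_of_lt_of_le (by norm_num) hq.hm12)
  have h8 : (0 : ℝ) < m := by exact_mod_cast hm.1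
  exact_mod_cast (Real.log_le_log_iff h7 h8).1 h6

theorem hit_mem {J : ℕ → ℕ} (hA : Amp J) {m₀ : ℕ} (hq : q.Big m₀) {t o m u : ℕ}
    (hs : q.Strip t o) (hm : m ∈ q.W t o) (hu : Hit J m u) : 2 * u + 1 ∈ q.W (t + 1) (o + 1) := by
  have hm0 := W_large hq hs hm
  have hm12 := hq.hm12
  obtain ⟨h1, h2⟩ := log_err hA (show 12 ≤ m by omega) hu
  rw [mem_W hq.ok] at hm ⊢
  refine ⟨by omega, ?_⟩
  have hmr : (0 : ℝ) < m := by exact_mod_cast hm.1
  set n : ℕ := 2 * u + 1 with hn
  have hn0 : (0 : ℝ) < n := by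
    rw [hn]
    exact_mod_cast (by omega : 0 < 2 * u + 1)
  have h3 : Real.log m ≤ Real.log 3 + Real.log n := by
    rw [← Real.log_mul (by norm_num) hn0.ne']
    exact Real.log_le_log hmr h1
  have h4 := (abs_le.1 hm.2).1
  have h5 := kap_le hq.ok t
  have h6 := pos_ge hq.hR hs
  have h7 : (q.a - q.b * Real.log 3 - q.κ - Real.log 3) + q.lam * t ≤ Real.log n := by linarith
  have h8 : 2 / Real.sqrt n ≤ q.kap (t + 1) - q.kap t := by
    have e1 : Real.exp (((q.a - q.b * Real.log 3 - q.κ - Real.log 3) + q.lam * t) / 2) ≤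
        Real.sqrt n := by
      rw [← Real.exp_log (Real.sqrt_pos.2 hn0), Real.log_sqrt hn0.le]
      exact Real.exp_le_exp.2 (by linarith)
    have e2 : 2 / Real.sqrt n ≤
        2 * Real.exp (-((q.a - q.b * Real.log 3 - q.κ - Real.log 3) / 2)) * q.z ^ t := by
      have e3 : 2 * Real.exp (-((q.a - q.b * Real.log 3 - q.κ - Real.log 3) / 2)) * q.z ^ t =
          2 / Real.exp (((q.a - q.b * Real.log 3 - q.κ - Real.log 3) + q.lam * t) / 2) := by
        rw [hq.hz, ← Real.exp_nat_mul, mul_assoc, ← Real.exp_add,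
          div_eq_mul_inv (2 : ℝ) (Real.exp _), ← Real.exp_neg]
        congr 2
        ring
      rw [e3]
      exact div_le_div_of_nonneg_left (by norm_num) (Real.exp_pos _) e1
    refine e2.trans ?_
    have e4 := mul_le_mul_of_nonneg_right hq.herr (pow_pos hq.ok.hz0 t).le
    refine e4.trans (le_of_eq ?_)
    unfold kap
    rw [pow_succ]
    ring
  have h9 : q.pos (t + 1) (o + 1) = q.pos t o + Real.log 2 - Real.log 3 := by
    unfold pos
    push_cast
    ring
  have h10 : Real.log n - q.pos (t + 1) (o + 1) =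
      (Real.log n - (Real.log m + Real.log 2 - Real.log 3)) + (Real.log m - q.pos t o) := by
    rw [h9]
    ring
  rw [h10]
  refine (abs_add_le _ _).trans ?_
  linarith [hm.2]

theorem disj {m₀ : ℕ} (hq : q.Big m₀) {t o : ℕ} (hs : q.Strip (t + 1) (o + 1)) {n : ℕ}
    (hn : n ∈ q.UU t) : n ∉ q.W (t + 1) (o + 1) := by
  intro hn'
  obtain ⟨t', ht', o', hs', hn⟩ := hn
  rw [mem_W hq.ok] at hn hn'
  have h1 := hq.sep t' (t + 1) (o + 1) o' (by omega) hs hs'
  have h2 := kap_le hq.ok t'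
  have h3 := kap_le hq.ok (t + 1)
  have h4 : q.pos (t + 1) (o + 1) - q.pos t' o' =
      (((t + 1 : ℕ) : ℝ) - t') * Real.log 2 - (((o + 1 : ℕ) : ℝ) - o') * Real.log 3 := by
    unfold pos
    ring
  rw [← h4] at h1
  have h5 : q.pos (t + 1) (o + 1) - q.pos t' o' =
      (Real.log n - q.pos t' o') - (Real.log n - q.pos (t + 1) (o + 1)) := by ring
  rw [h5] at h1
  have h6 := abs_sub (Real.log n - q.pos t' o') (Real.log n - q.pos (t + 1) (o + 1))
  linarith [hn.2, hn'.2]

theorem bad_prob {J : ℕ → ℕ} {P : Measure Ω} [IsProbabilityMeasure P] {Y : ℕ → Ω → ℤ} (hA : Amp J)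
    (hE : Env J P Y) {δ : ℝ} (hδ : 0 < δ) {m₀ : ℕ}
    (hquery : ∀ G V : Finset ℕ, G.Nonempty → (∀ m ∈ G, m₀ ≤ m) →
      (∀ m ∈ G, ∀ u, Hit J m u → 2 * u + 1 ∈ V) →
      P.real {ω | ((V.filter fun n => n % 2 = 1 ∧ S (fun i => Y i ω) n ∈ G).card : ℝ) <
        (1 / 3 - 2 * δ) * G.card} ≤ 1 / (δ ^ 2 * G.card))
    (hq : q.Big m₀) {l i j : ℕ} (hi : i < q.R) (hj : j < q.b)
    (hc : 0 < q.cc (1 / 3 - 2 * δ) l i j) :
    P.real {ω | q.Bad (1 / 3 - 2 * δ) (fun i => Y i ω) l i j} ≤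
      1 / (δ ^ 2 * q.cc (1 / 3 - 2 * δ) l i j) := by
  classical
  set θ : ℝ := 1 / 3 - 2 * δ with hθ
  set c := q.cc θ l i j with hcdef
  set t := l * q.R + i with ht
  set o := l * q.b + j with ho
  set H : (ℕ → ℤ) → Finset ℕ := fun y => q.Bk y (l * q.R) (l * q.b) (q.XX y l) i j with hH
  have hHsub : ∀ y, H y ⊆ q.W t o := fun y => Bk_sub hq.ok (XX_sub hq.ok y l) i j
  have hHdep : DepF H (q.UU t) := Bk_dep (XX_dep l) i hi.le j hj.le
  set V := q.W (t + 1) (o + 1) with hV
  have hst : q.Strip t o := strip_of hi.le hj.le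
  have hst1 : q.Strip (t + 1) (o + 1) := by
    have := strip_of (q := q) (l := l) (i := i + 1) (j := j + 1) (by omega) (by omega)
    exact this
  set U : Finset ℕ := (UU_finite hq.ok t).toFinset with hU
  have hUc : (U : Set ℕ) = q.UU t := by
    rw [hU, Set.Finite.coe_toFinset]
  have hUV : Disjoint U V := by
    rw [Finset.disjoint_left]
    intro n hn
    rw [hU, Set.Finite.mem_toFinset] at hn
    exact disj hq hst1 hn
  set Fam : Finset (Finset ℕ) := (q.W t o).powerset.filter fun G => c ≤ (G.card : ℝ) with hFam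
  have hD1 : ∀ G : Finset ℕ, Dep (fun y => H y = G) U := by
    intro G y y' hy
    rw [hUc] at hy
    simp only [hHdep y y' hy]
  have hD2 : ∀ G : Finset ℕ, Dep (fun y => ((V.filter fun n => n % 2 = 1 ∧ S y n ∈ G).card : ℝ) <
      θ * G.card) V := by
    intro G y y' hy
    have : (V.filter fun n => n % 2 = 1 ∧ S y n ∈ G) = V.filter fun n => n % 2 = 1 ∧ S y' n ∈ G := by
      apply Finset.filter_congr
      intro n hn
      unfold S
      rw [hy n hn]
    simp only [this]
  have hsub : {ω | q.Bad θ (fun i => Y i ω) l i j} ⊆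
      ⋃ G ∈ Fam, {ω | H (fun i => Y i ω) = G ∧
        ((V.filter fun n => n % 2 = 1 ∧ S (fun i => Y i ω) n ∈ G).card : ℝ) < θ * G.card} := by
    intro ω hω
    simp only [Set.mem_iUnion]
    refine ⟨H (fun i => Y i ω), ?_, rfl, ?_⟩
    · rw [hFam, mem_filter, mem_powerset]
      exact ⟨hHsub _, hω.1⟩
    · have := hω.2
      unfold Oo at this
      convert this using 3
  refine (measureReal_mono hsub (measure_ne_top _ _)).trans
    ((measureReal_biUnion_finset_le _ _).trans ?_)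
  have hterm : ∀ G ∈ Fam, P.real {ω | H (fun i => Y i ω) = G ∧
        ((V.filter fun n => n % 2 = 1 ∧ S (fun i => Y i ω) n ∈ G).card : ℝ) < θ * G.card} ≤
      P.real {ω | H (fun i => Y i ω) = G} * (1 / (δ ^ 2 * c)) := by
    intro G hG
    rw [hFam, mem_filter, mem_powerset] at hG
    rw [indep_dep hE.meas hE.ind hUV (hD1 G) (hD2 G)]
    apply mul_le_mul_of_nonneg_left _ measureReal_nonneg
    have hGc : (0 : ℝ) < G.card := lt_of_lt_of_le hc hG.2
    have hGn : G.Nonempty := by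
      rw [← Finset.card_pos]
      exact_mod_cast hGc
    have h1 := hquery G V hGn (fun m hm => W_large hq hst (hG.1 hm))
      (fun m hm u hu => hit_mem hA hq hst (hG.1 hm) hu)
    refine h1.trans ?_
    apply one_div_le_one_div_of_le (by positivity)
    exact mul_le_mul_of_nonneg_left hG.2 (by positivity)
  refine (Finset.sum_le_sum hterm).trans ?_
  rw [← Finset.sum_mul]
  have hsum : ∑ G ∈ Fam, P.real {ω | H (fun i => Y i ω) = G} ≤ 1 := by
    rw [← measureReal_biUnion_finset]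
    · exact measureReal_le_one
    · intro G _ G' _ hne
      rw [Function.onFun, Set.disjoint_left]
      intro ω h1 h2
      exact hne (h1.symm.trans h2)
    · intro G _
      exact meas_dep hE.meas (hD1 G)
  calc (∑ G ∈ Fam, P.real {ω | H (fun i => Y i ω) = G}) * (1 / (δ ^ 2 * c))
      ≤ 1 * (1 / (δ ^ 2 * c)) := mul_le_mul_of_nonneg_right hsum (by positivity)
    _ = 1 / (δ ^ 2 * c) := one_mul _

end Par

end Pool.Agent.W2helper40.RC
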