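import Pool.Agent.W2helper40.RC.Arr2

set_option autoImplicit false

/-! Existence of the parameters and of the towers of populations. -/

namespace Pool.Agent.W2helper40.RC

open MeasureTheory ProbabilityTheory Finset Filter Topology

variable {Ω : Type*} [MeasurableSpace Ω]

theorem log_indep {p : ℕ} (hp : 1 ≤ p) (k : ℤ) : (p : ℝ) * Real.log 2 - (k : ℝ) * Real.log 3 ≠ 0 := by
  intro h
  have h2 : 0 < Real.log 2 := Real.log_pos (by norm_num)
  have h3 : 0 < Real.log 3 := Real.log_pos (by norm_num)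
  have hp0 : (0 : ℝ) < p := by exact_mod_cast hp
  have hk : 0 < (k : ℝ) := by
    by_contra hc
    push Not at hc
    nlinarith [mul_pos hp0 h2, mul_nonneg (neg_nonneg.2 hc) h3.le]
  have hk' : 0 < k := by exact_mod_cast hk
  obtain ⟨m, rfl⟩ := Int.eq_ofNat_of_zero_le hk'.le
  have h4 : Real.log ((2 : ℝ) ^ p) = Real.log ((3 : ℝ) ^ m) := by
    rw [Real.log_pow, Real.log_pow]
    push_cast at h
    linarith
  have h5 := Real.log_injOn_pos (Set.mem_Ioi.2 (by positivity)) (Set.mem_Ioi.2 (by positivity)) h4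
  have h6 : 2 ^ p = 3 ^ m := by exact_mod_cast h5
  have h7 : 2 ∣ 3 ^ m := by
    rw [← h6]
    exact dvd_pow_self 2 (by omega)
  have h8 := Nat.Prime.dvd_of_dvd_pow Nat.prime_two h7
  norm_num at h8

theorem finset_gap {ι : Type*} (s : Finset ι) (f : ι → ℝ) (hf : ∀ i ∈ s, 0 < f i) :
    ∃ κ : ℝ, 0 < κ ∧ ∀ i ∈ s, κ ≤ f i := by
  rcases s.eq_empty_or_nonempty with rfl | hs
  · exact ⟨1, one_pos, by simp⟩
  · obtain ⟨i, hi, h⟩ := Finset.exists_min_image s f hs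
    exact ⟨f i, hf i hi, h⟩

theorem exists_sep {R b : ℕ} (hR : 0 < R) (hlam : 0 < Real.log 2 - (b : ℝ) / R * Real.log 3) :
    ∃ κ : ℝ, 0 < κ ∧ ∀ t' t o o' : ℕ, t' < t →
      (t * b ≤ o * R + R * b ∧ o * R ≤ t * b + R * b) →
      (t' * b ≤ o' * R + R * b ∧ o' * R ≤ t' * b + R * b) →
      2 * κ < |((t : ℝ) - t') * Real.log 2 - ((o : ℝ) - o') * Real.log 3| := by
  classical
  have h2 : 0 < Real.log 2 := Real.log_pos (by norm_num)
  have h3 : 0 < Real.log 3 := Real.log_pos (by norm_num)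
  have hRr : (0 : ℝ) < R := by exact_mod_cast hR
  set lam := Real.log 2 - (b : ℝ) / R * Real.log 3 with hlamdef
  obtain ⟨M, hM⟩ := exists_nat_ge ((1 + 2 * b * Real.log 3) / lam)
  rw [div_le_iff₀ hlam] at hM
  set N : ℕ := M * b + 2 * R * b with hN
  obtain ⟨κ, hκ0, hκ⟩ := finset_gap ((Finset.Ico 1 M) ×ˢ (Finset.Icc (-(N : ℤ)) N))
    (fun p : ℕ × ℤ => |(p.1 : ℝ) * Real.log 2 - (p.2 : ℝ) * Real.log 3|) (by
      intro p hp
      rw [mem_product, mem_Ico] at hp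
      exact abs_pos.2 (log_indep hp.1.1 p.2))
  refine ⟨min κ 1 / 3, by positivity, ?_⟩
  intro t' t o o' htt hs hs'
  have hm1 : min κ 1 ≤ κ := min_le_left _ _
  have hm2 : min κ 1 ≤ 1 := min_le_right _ _
  have hm0 : 0 < min κ 1 := lt_min hκ0 one_pos
  obtain ⟨d, rfl⟩ := Nat.exists_eq_add_of_le htt.le
  have hd1 : 1 ≤ d := by omega
  have hdr : (1 : ℝ) ≤ d := by exact_mod_cast hd1
  have e1 : ((t' + d : ℕ) : ℝ) - t' = d := by
    push_cast
    ring
  rw [e1]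
  have u1 : ((t' : ℤ) + d) * b ≤ o * R + R * b := by exact_mod_cast hs.1
  have u2 : (o : ℤ) * R ≤ (t' + d) * b + R * b := by exact_mod_cast hs.2
  have u3 : (t' : ℤ) * b ≤ o' * R + R * b := by exact_mod_cast hs'.1
  have u4 : (o' : ℤ) * R ≤ t' * b + R * b := by exact_mod_cast hs'.2
  set k : ℤ := (o : ℤ) - o' with hk
  have v1 : k * R ≤ d * b + 2 * (R * b) := by
    rw [hk]
    linarith
  have v2 : (d : ℤ) * b - 2 * (R * b) ≤ k * R := by
    rw [hk]
    linarith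
  have ek : (o : ℝ) - o' = (k : ℝ) := by
    rw [hk]
    push_cast
    ring
  rw [ek]
  rcases le_or_gt M d with hMd | hMd
  · have hMdr : (M : ℝ) ≤ d := by exact_mod_cast hMd
    have v1r : (k : ℝ) * R ≤ d * b + 2 * (R * b) := by exact_mod_cast v1
    have w1 : (k : ℝ) ≤ (b : ℝ) / R * d + 2 * b := by
      have : (b : ℝ) / R * d + 2 * b = (d * b + 2 * (R * b)) / R := by
        field_simp
      rw [this, le_div_iff₀ hRr]
      exact v1r
    have w2 : 1 ≤ (d : ℝ) * Real.log 2 - k * Real.log 3 := by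
      have w3 : (M : ℝ) * lam ≤ d * lam := mul_le_mul_of_nonneg_right hMdr hlam.le
      have w4 := mul_le_mul_of_nonneg_right w1 h3.le
      have w5 : (d : ℝ) * lam = d * Real.log 2 - (b : ℝ) / R * d * Real.log 3 := by
        rw [hlamdef]
        ring
      linarith
    have w6 := le_abs_self ((d : ℝ) * Real.log 2 - k * Real.log 3)
    linarith
  · have hRz : (1 : ℤ) ≤ R := by exact_mod_cast hR
    have hbz : (0 : ℤ) ≤ b := by positivity
    have hMz : (d : ℤ) ≤ M := by exact_mod_cast hMd.le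
    have hNz : (N : ℤ) = M * b + 2 * R * b := by
      rw [hN]
      push_cast
      ring
    have hdb : (d : ℤ) * b ≤ M * b := mul_le_mul_of_nonneg_right hMz hbz
    have hdb0 : (0 : ℤ) ≤ d * b := by positivity
    have w1 : k ≤ N := by
      rw [hNz]
      by_contra hc
      push Not at hc
      have hk0 : 0 < k := lt_of_le_of_lt (by positivity) hc
      nlinarith
    have w2 : -(N : ℤ) ≤ k := by
      rw [hNz]
      by_contra hc
      push Not at hc
      have hk0 : 0 < -k := by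
        have : (0 : ℤ) ≤ M * b + 2 * R * b := by positivity
        linarith
      nlinarith
    have w3 := hκ (d, k) (by
      rw [mem_product, mem_Ico, mem_Icc]
      exact ⟨⟨hd1, hMd⟩, w2, w1⟩)
    simp only at w3
    linarith

namespace Par

/-- existence of the parameters -/
theorem exists_big {R b : ℕ} (hR : 0 < R) (hlam : 0 < Real.log 2 - (b : ℝ) / R * Real.log 3) :
    ∃ κ : ℝ, 0 < κ ∧ ∃ z : ℝ, ∀ m₀ : ℕ, 12 ≤ m₀ → ∃ a₀ : ℝ, ∀ a : ℝ, a₀ ≤ a →
      Big ⟨R, b, a, κ, z⟩ m₀ := by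
  obtain ⟨κ, hκ, hsep⟩ := exists_sep hR hlam
  set lam := Real.log 2 - (b : ℝ) / R * Real.log 3 with hlamdef
  set z := Real.exp (-(lam / 2)) with hz
  have hz1 : z < 1 := by
    rw [hz, Real.exp_lt_one_iff]
    linarith
  refine ⟨κ, hκ, z, fun m₀ hm₀ => ?_⟩
  have ht : Tendsto (fun a : ℝ => 2 * Real.exp (-((a - b * Real.log 3 - κ - Real.log 3) / 2)))
      atTop (𝓝 0) := by
    have h1 : Tendsto (fun a : ℝ => (a - b * Real.log 3 - κ - Real.log 3) / 2) atTop atTop := by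
      apply Tendsto.atTop_div_const (by norm_num)
      have : (fun a : ℝ => a - b * Real.log 3 - κ - Real.log 3) =
          fun a : ℝ => a + (-(b * Real.log 3) - κ - Real.log 3) := by
        ext a
        ring
      rw [this]
      exact tendsto_atTop_add_const_right _ _ tendsto_id
    have h2 := (Real.tendsto_exp_neg_atTop_nhds_zero.comp h1).const_mul 2
    simpa using h2
  have hpos : 0 < κ / 2 * (1 - z) := mul_pos (by linarith) (by linarith)
  obtain ⟨a₁, ha₁⟩ := eventually_atTop.1 (ht.eventually (gt_mem_nhds hpos))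
  refine ⟨max a₁ (Real.log m₀ + b * Real.log 3 + κ), fun a ha => ?_⟩
  refine ⟨⟨hκ, Real.exp_pos _, hz1⟩, hR, hlam, rfl, ?_, hm₀, ?_, ?_⟩
  · exact (ha₁ a (le_trans (le_max_left _ _) ha)).le
  · have := le_trans (le_max_right _ _) ha
    show Real.log m₀ ≤ a - b * Real.log 3 - κ
    linarith
  · intro t' t o o' h1 h2 h3
    exact hsep t' t o o' h1 h2 h3

/-- the first population is large -/
theorem W_card {R b : ℕ} {κ z : ℝ} (hκ : 0 < κ) (hz0 : 0 < z) (hz1 : z < 1) :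
    Tendsto (fun a : ℝ => (((⟨R, b, a, κ, z⟩ : Par).W 0 0).card : ℝ)) atTop atTop := by
  have h1 : Tendsto (fun a : ℝ => (Real.exp (κ / 2) - 1) * Real.exp a - 2) atTop atTop := by
    have h2 : 0 < Real.exp (κ / 2) - 1 := by
      have := Real.add_one_lt_exp (show κ / 2 ≠ 0 by positivity)
      linarith
    have h3 := Real.tendsto_exp_atTop.const_mul_atTop h2
    exact tendsto_atTop_add_const_right _ (-2) h3
  refine tendsto_atTop_mono' _ ?_ h1
  filter_upwards [eventually_ge_atTop (0 : ℝ)] with a ha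
  set q : Par := ⟨R, b, a, κ, z⟩ with hq
  have hok : q.Ok := ⟨hκ, hz0, hz1⟩
  have hsub : Finset.Icc ⌈Real.exp a⌉₊ ⌊Real.exp (a + κ / 2)⌋₊ ⊆ q.W 0 0 := by
    intro n hn
    rw [mem_Icc, Nat.ceil_le, Nat.le_floor_iff (Real.exp_pos _).le] at hn
    have hn0 : (0 : ℝ) < n := lt_of_lt_of_le (Real.exp_pos _) hn.1
    rw [mem_W hok]
    refine ⟨by exact_mod_cast hn0, ?_⟩
    have h4 : a ≤ Real.log n := (Real.le_log_iff_exp_le hn0).2 hn.1
    have h5 : Real.log n ≤ a + κ / 2 := (Real.log_le_iff_le_exp hn0).2 hn.2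
    have h6 : q.pos 0 0 = a := by
      unfold pos
      simp [hq]
    have h7 := kap_ge hok 0
    rw [h6, abs_le]
    have h8 : q.κ = κ := rfl
    rw [h8] at h7
    constructor <;> linarith
  have hc := Finset.card_le_card hsub
  rw [Nat.card_Icc] at hc
  have h9 : (⌊Real.exp (a + κ / 2)⌋₊ : ℝ) + 1 - ⌈Real.exp a⌉₊ ≤ ((q.W 0 0).card : ℝ) := by
    have h10 : ((⌊Real.exp (a + κ / 2)⌋₊ + 1 : ℕ) : ℝ) ≤
        ((q.W 0 0).card : ℝ) + (⌈Real.exp a⌉₊ : ℝ) := by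
      exact_mod_cast Nat.sub_le_iff_le_add.1 hc
    push_cast at h10
    linarith
  have h11 := Nat.lt_floor_add_one (Real.exp (a + κ / 2))
  have h12 := Nat.ceil_lt_add_one (Real.exp_pos a).le
  have h13 : Real.exp (a + κ / 2) = Real.exp a * Real.exp (κ / 2) := Real.exp_add _ _
  have h14 : (Real.exp (κ / 2) - 1) * Real.exp a = Real.exp (a + κ / 2) - Real.exp a := by
    rw [h13]
    ring
  rw [h14]
  linarith

/-- the probability that something goes wrong -/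
theorem fail_prob {J : ℕ → ℕ} {P : Measure Ω} [IsProbabilityMeasure P] {Y : ℕ → Ω → ℤ}
    (hA : Amp J) (hE : Env J P Y) {R b : ℕ} (hR : 0 < R)
    (hlam : 0 < Real.log 2 - (b : ℝ) / R * Real.log 3) {δ : ℝ} (hδ : 0 < δ) (hδ1 : δ < 1 / 6)
    (hgrow : 1 < ((R.choose b : ℕ) : ℝ) * (1 / 3 - 2 * δ) ^ b) :
    ∃ κ z a₀ C : ℝ, 0 < κ ∧ 0 < z ∧ z < 1 ∧ ∀ a : ℝ, a₀ ≤ a →
      (0 < ((⟨R, b, a, κ, z⟩ : Par).W 0 0).card ∧
      P {ω | ∃ l, ∃ i < R, ∃ j < b, j ≤ i ∧
        (⟨R, b, a, κ, z⟩ : Par).Bad (1 / 3 - 2 * δ) (fun i => Y i ω) l i j} ≤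
      ENNReal.ofReal (C / (((⟨R, b, a, κ, z⟩ : Par).W 0 0).card : ℝ))) := by
  classical
  set θ : ℝ := 1 / 3 - 2 * δ with hθ
  have hθ0 : 0 < θ := by linarith
  have hθ1 : θ ≤ 1 := by linarith
  obtain ⟨κ, hκ, z, hz⟩ := exists_big hR hlam
  obtain ⟨m₁, hm₁⟩ := query hA hE hδ hδ1.le
  obtain ⟨a₁, ha₁⟩ := hz (max m₁ 12) (le_max_right _ _)
  have hok : (⟨R, b, a₁, κ, z⟩ : Par).Ok := (ha₁ a₁ le_rfl).ok
  have hz0 : 0 < z := hok.hz0
  have hz1 : z < 1 := hok.hz1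
  obtain ⟨a₂, ha₂⟩ := eventually_atTop.1
    ((W_card (R := R) (b := b) hκ hz0 hz1).eventually_gt_atTop (0 : ℝ))
  set g : ℝ := ((R.choose b : ℕ) : ℝ) * θ ^ b with hg
  have hg0 : 0 < g := by linarith
  set C : ℝ := (R * b) / (δ ^ 2 * θ ^ b) * (1 - g⁻¹)⁻¹ with hC
  refine ⟨κ, z, max a₁ a₂, C, hκ, hz0, hz1, fun a ha => ?_⟩
  have hbig := ha₁ a (le_trans (le_max_left _ _) ha)
  have hW : (0 : ℝ) < (((⟨R, b, a, κ, z⟩ : Par).W 0 0).card : ℝ) :=
    ha₂ a (le_trans (le_max_right _ _) ha)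
  refine ⟨by exact_mod_cast hW, ?_⟩
  set q : Par := ⟨R, b, a, κ, z⟩ with hq
  set w : ℝ := ((q.W 0 0).card : ℝ) with hw
  have hterm : ∀ l, ∀ i < R, ∀ j < b, j ≤ i →
      P.real {ω | q.Bad θ (fun i => Y i ω) l i j} ≤ 1 / (δ ^ 2 * θ ^ b * w) * (g⁻¹) ^ l := by
    intro l i hi j hj hji
    have hcc : θ ^ b * g ^ l * w ≤ q.cc θ l i j := by
      unfold cc
      have h1 : (1 : ℝ) ≤ (i.choose j : ℝ) := by exact_mod_cast Nat.choose_pos hji
      have h2 : θ ^ b ≤ θ ^ j := pow_le_pow_of_le_one hθ0.le hθ1 hj.le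
      have h3 : θ ^ b ≤ (i.choose j : ℝ) * θ ^ j := by
        calc θ ^ b ≤ θ ^ j := h2
          _ ≤ (i.choose j : ℝ) * θ ^ j := le_mul_of_one_le_left (by positivity) h1
      have h4 : (((q.R.choose q.b : ℕ) : ℝ) * θ ^ q.b) ^ l * ((q.W 0 0).card : ℝ) = g ^ l * w := rfl
      rw [mul_assoc (((i.choose j : ℕ) : ℝ) * θ ^ j), h4, mul_assoc]
      exact mul_le_mul_of_nonneg_right h3 (by positivity)
    have hcpos : 0 < q.cc θ l i j := lt_of_lt_of_le (by positivity) hcc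
    have h5 := bad_prob hA hE hδ (m₀ := max m₁ 12)
      (fun G V h1 h2 h3 => hm₁ G V h1 (fun m hm => le_trans (le_max_left _ _) (h2 m hm)) h3)
      hbig hi hj hcpos
    refine h5.trans ?_
    have h6 : 1 / (δ ^ 2 * θ ^ b * w) * (g⁻¹) ^ l = 1 / (δ ^ 2 * (θ ^ b * g ^ l * w)) := by
      rw [inv_pow]
      field_simp
    rw [h6]
    exact one_div_le_one_div_of_le (by positivity) (mul_le_mul_of_nonneg_left hcc (by positivity))
  have hsub : {ω | ∃ l, ∃ i < R, ∃ j < b, j ≤ i ∧ q.Bad θ (fun i => Y i ω) l i j} ⊆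
      ⋃ l : ℕ, ⋃ p ∈ ((Finset.range R) ×ˢ (Finset.range b)).filter (fun p => p.2 ≤ p.1),
        {ω | q.Bad θ (fun i => Y i ω) l p.1 p.2} := by
    rintro ω ⟨l, i, hi, j, hj, hji, h⟩
    simp only [Set.mem_iUnion]
    refine ⟨l, (i, j), ?_, h⟩
    rw [mem_filter, mem_product, mem_range, mem_range]
    exact ⟨⟨hi, hj⟩, hji⟩
  refine (measure_mono hsub).trans ((measure_iUnion_le _).trans ?_)
  have hl : ∀ l : ℕ, P (⋃ p ∈ ((Finset.range R) ×ˢ (Finset.range b)).filter (fun p => p.2 ≤ p.1),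
      {ω | q.Bad θ (fun i => Y i ω) l p.1 p.2}) ≤
      ENNReal.ofReal ((R * b) / (δ ^ 2 * θ ^ b * w) * (g⁻¹) ^ l) := by
    intro l
    rw [ENNReal.le_ofReal_iff_toReal_le (measure_ne_top _ _) (by positivity)]
    refine (measureReal_biUnion_finset_le _ _).trans ?_
    have h1 : ∀ p ∈ ((Finset.range R) ×ˢ (Finset.range b)).filter (fun p => p.2 ≤ p.1),
        P.real {ω | q.Bad θ (fun i => Y i ω) l p.1 p.2} ≤ 1 / (δ ^ 2 * θ ^ b * w) * (g⁻¹) ^ l := by
      intro p hp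
      rw [mem_filter, mem_product, mem_range, mem_range] at hp
      exact hterm l p.1 hp.1.1 p.2 hp.1.2 hp.2
    refine (Finset.sum_le_sum h1).trans ?_
    rw [Finset.sum_const, nsmul_eq_mul]
    have h2 : ((((Finset.range R) ×ˢ (Finset.range b)).filter (fun p => p.2 ≤ p.1)).card : ℝ) ≤
        R * b := by
      have := Finset.card_filter_le ((Finset.range R) ×ˢ (Finset.range b)) (fun p => p.2 ≤ p.1)
      rw [card_product, card_range, card_range] at this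
      exact_mod_cast this
    calc _ ≤ (R * b : ℝ) * (1 / (δ ^ 2 * θ ^ b * w) * (g⁻¹) ^ l) :=
          mul_le_mul_of_nonneg_right h2 (by positivity)
      _ = (R * b) / (δ ^ 2 * θ ^ b * w) * (g⁻¹) ^ l := by ring
  refine (ENNReal.tsum_le_tsum hl).trans ?_
  have hg1 : g⁻¹ < 1 := inv_lt_one_of_one_lt₀ hgrow
  have hsum : Summable fun l : ℕ => (R * b : ℝ) / (δ ^ 2 * θ ^ b * w) * (g⁻¹) ^ l :=
    (summable_geometric_of_lt_one (by positivity) hg1).mul_left _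
  rw [← ENNReal.ofReal_tsum_of_nonneg (fun l => by positivity) hsum, tsum_mul_left,
    tsum_geometric_of_lt_one (by positivity) hg1]
  apply ENNReal.ofReal_le_ofReal
  apply le_of_eq
  rw [hC]
  have : w ≠ 0 := hW.ne'
  field_simp

end Par

/-- the towers -/
def Tower (y : ℕ → ℤ) (R b : ℕ) (g : ℝ) : Prop :=
  ∃ (a κ : ℝ) (X : ℕ → Finset ℕ), (∀ l, g ^ l ≤ ((X l).card : ℝ)) ∧
    (∀ l, ∀ n ∈ X l, 1 ≤ n ∧
      |Real.log n - (a + l * (R * Real.log 2 - b * Real.log 3))| ≤ κ) ∧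
    (∀ l d, ∀ n ∈ X (l + d), (S y)^[d * R] n ∈ X l)

theorem tower_ae {J : ℕ → ℕ} {P : Measure Ω} [IsProbabilityMeasure P] {Y : ℕ → Ω → ℤ}
    (hA : Amp J) (hE : Env J P Y) {R b : ℕ} (hR : 0 < R)
    (hlam : 0 < Real.log 2 - (b : ℝ) / R * Real.log 3) {δ : ℝ} (hδ : 0 < δ) (hδ1 : δ < 1 / 6)
    (hgrow : 1 < ((R.choose b : ℕ) : ℝ) * (1 / 3 - 2 * δ) ^ b) :
    ∀ᵐ ω ∂P, Tower (fun i => Y i ω) R b (((R.choose b : ℕ) : ℝ) * (1 / 3 - 2 * δ) ^ b) := by
  obtain ⟨κ, z, a₀, C, hκ, hz0, hz1, h⟩ := Par.fail_prob hA hE hR hlam hδ hδ1 hgrow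
  set θ : ℝ := 1 / 3 - 2 * δ with hθ
  have hθ0 : 0 < θ := by linarith
  have hlim : Tendsto (fun a : ℝ => ENNReal.ofReal
      (C / (((⟨R, b, a, κ, z⟩ : Par).W 0 0).card : ℝ))) atTop (𝓝 0) := by
    rw [← ENNReal.ofReal_zero]
    exact ENNReal.tendsto_ofReal
      (tendsto_const_nhds.div_atTop (Par.W_card (R := R) (b := b) hκ hz0 hz1))
  have hzero : P {ω | ∀ a : ℝ, a₀ ≤ a → ∃ l, ∃ i < R, ∃ j < b, j ≤ i ∧
      (⟨R, b, a, κ, z⟩ : Par).Bad θ (fun i => Y i ω) l i j} = 0 := by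
    apply le_antisymm _ zero_le
    apply ge_of_tendsto hlim
    filter_upwards [eventually_ge_atTop a₀] with a ha
    refine le_trans (measure_mono ?_) (h a ha).2
    intro ω hω
    exact hω a ha
  rw [ae_iff]
  refine measure_mono_null ?_ hzero
  intro ω hω
  simp only [Set.mem_ofPred_eq] at hω ⊢
  intro a ha
  by_contra hcon
  push Not at hcon
  apply hω
  have hbad : ∀ l, ∀ i < R, ∀ j < b, j ≤ i →
      ¬ (⟨R, b, a, κ, z⟩ : Par).Bad θ (fun i => Y i ω) l i j := hcon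
  have hW := (h a ha).1
  set q : Par := ⟨R, b, a, κ, z⟩ with hq
  have hok : q.Ok := ⟨hκ, hz0, hz1⟩
  refine ⟨a, κ, q.XX (fun i => Y i ω), ?_, ?_, ?_⟩
  · intro l
    refine le_trans ?_ (Par.XX_card hθ0.le hbad l)
    have : (1 : ℝ) ≤ ((q.W 0 0).card : ℝ) := by exact_mod_cast hW
    exact le_mul_of_one_le_right (by positivity) this
  · intro l n hn
    have h1 := Par.XX_sub hok _ l hn
    rw [Par.mem_W hok] at h1
    refine ⟨h1.1, ?_⟩
    have h2 : q.pos (l * q.R) (l * q.b) = a + l * (R * Real.log 2 - b * Real.log 3) := by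
      unfold Par.pos
      simp only [hq]
      push_cast
      ring
    rw [← h2]
    exact h1.2.trans (Par.kap_le hok _)
  · intro l d n hn
    exact Par.XX_iter' d hn

end Pool.Agent.W2helper40.RC
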