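import Pool.Agent.W2helper40.RC.Esc

set_option autoImplicit false

/-! Chebyshev's inequality for the number of successes. -/

namespace Pool.Agent.W2helper40.RC

open MeasureTheory ProbabilityTheory Finset Filter Topology

variable {Ω : Type*} [MeasurableSpace Ω]

open Classical in
theorem cheb {P : Measure Ω} [IsProbabilityMeasure P] {Y : ℕ → Ω → ℤ} (hm : ∀ n, Measurable (Y n))
    (hi : iIndepFun Y P) (V : Finset ℕ) (A : ℕ → Set ℤ) {E θ : ℝ}
    (hE : E = ∑ n ∈ V, P.real {ω | Y n ω ∈ A n}) (hθ : θ < E) :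
    P.real {ω | ((V.filter fun n => Y n ω ∈ A n).card : ℝ) ≤ θ} ≤ E / (E - θ) ^ 2 := by
  set f : ℕ → ℤ → ℝ := fun n => (A n).indicator (fun _ => (1 : ℝ)) with hf
  have hfm : ∀ n, Measurable (f n) := fun n => measurable_of_countable _
  set X : ℕ → Ω → ℝ := fun n => f n ∘ Y n with hX
  have hXm : ∀ n, Measurable (X n) := fun n => (hfm n).comp (hm n)
  have hXi : iIndepFun X P := hi.comp f hfm
  have hb : ∀ n ω, X n ω = if Y n ω ∈ A n then 1 else 0 := by
    intro n ω
    simp only [hX, hf, Function.comp, Set.indicator]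
  have hL : ∀ n, MemLp (X n) 2 P := by
    intro n
    apply memLp_of_bounded (a := 0) (b := 1) _ (hXm n).aestronglyMeasurable
    filter_upwards with ω
    rw [hb]
    split_ifs <;> simp
  have hint : ∀ n, ∫ ω, X n ω ∂P = P.real {ω | Y n ω ∈ A n} := by
    intro n
    have hms : MeasurableSet {ω | Y n ω ∈ A n} := (hm n) (Set.to_countable (A n)).measurableSet
    have : X n = ({ω | Y n ω ∈ A n}).indicator (fun _ => (1 : ℝ)) := by
      ext ω
      rw [hb, Set.indicator]
      rfl
    rw [this, integral_indicator_const _ hms, smul_eq_mul, mul_one]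
  have hvar : variance (∑ n ∈ V, X n) P ≤ E := by
    rw [IndepFun.variance_sum (fun n _ => hL n) fun i _ j _ hij => hXi.indepFun hij, hE]
    apply Finset.sum_le_sum
    intro n _
    refine (variance_le_expectation_sq (hXm n).aestronglyMeasurable).trans ?_
    rw [← hint n]
    apply le_of_eq
    congr 1
    ext ω
    rw [Pi.pow_apply, hb]
    split_ifs <;> simp
  have hmean : ∫ ω, (∑ n ∈ V, X n) ω ∂P = E := by
    simp only [Finset.sum_apply]
    rw [integral_finsetSum _ fun n _ => (hL n).integrable (by norm_num), hE]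
    exact Finset.sum_congr rfl fun n _ => hint n
  have hsumL : MemLp (∑ n ∈ V, X n) 2 P := memLp_finsetSum' V fun n _ => hL n
  have hc : 0 < E - θ := by linarith
  have h1 := meas_ge_le_variance_div_sq hsumL hc
  have hsub : {ω | ((V.filter fun n => Y n ω ∈ A n).card : ℝ) ≤ θ} ⊆
      {ω | E - θ ≤ |(∑ n ∈ V, X n) ω - ∫ ω, (∑ n ∈ V, X n) ω ∂P|} := by
    intro ω hω
    simp only [Set.mem_ofPred_eq] at hω ⊢
    rw [hmean]
    have h2 : (∑ n ∈ V, X n) ω = ((V.filter fun n => Y n ω ∈ A n).card : ℝ) := by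
      rw [Finset.sum_apply, Finset.card_filter]
      push_cast
      exact Finset.sum_congr rfl fun n _ => hb n ω
    rw [h2, abs_sub_comm]
    exact le_trans (by linarith) (le_abs_self _)
  have h3 : P {ω | ((V.filter fun n => Y n ω ∈ A n).card : ℝ) ≤ θ} ≤
      ENNReal.ofReal (variance (∑ n ∈ V, X n) P / (E - θ) ^ 2) := (measure_mono hsub).trans h1
  have h4 : variance (∑ n ∈ V, X n) P / (E - θ) ^ 2 ≤ E / (E - θ) ^ 2 :=
    div_le_div_of_nonneg_right hvar (by positivity)
  have h5 : 0 ≤ E := by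
    rw [hE]
    exact Finset.sum_nonneg fun n _ => measureReal_nonneg
  rw [measureReal_def]
  exact ENNReal.toReal_le_of_le_ofReal (by positivity) (h3.trans (ENNReal.ofReal_le_ofReal h4))

end Pool.Agent.W2helper40.RC
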