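import Pool.Agent.W2helper40.RC.Low
import Pool.Agent.W2helper40.RC.Lfl

set_option autoImplicit false

/-! Finiteness of the set of periodic points. -/

namespace Pool.Agent.W2helper40.RC

open MeasureTheory ProbabilityTheory Finset Filter Topology

/-- one step -/
theorem step_log {J : ℕ → ℕ} (hA : Amp J) {y : ℕ → ℤ} (hy : Good J y) {n N : ℕ} (hN : 12 ≤ N)
    (hn : N ≤ n) (hSn : N ≤ S y n) : ∃ o : ℕ, o ≤ 1 ∧
      |Real.log (S y n) - (Real.log n + o * Real.log 3 - Real.log 2)| ≤ 2 / Real.sqrt N := by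
  have hNr : (0 : ℝ) < N := by exact_mod_cast (by omega : 0 < N)
  have hn0 : (0 : ℝ) < n := by exact_mod_cast (by omega : 0 < n)
  have hsN : 0 < Real.sqrt N := Real.sqrt_pos.2 hNr
  rcases Nat.mod_two_eq_zero_or_one n with he | ho
  · refine ⟨0, by omega, ?_⟩
    have h1 : S y n = n / 2 := by
      unfold S
      rw [if_pos he]
    have h2 : ((n / 2 : ℕ) : ℝ) = (n : ℝ) / 2 := by
      have : (n : ℝ) = 2 * ((n / 2 : ℕ) : ℝ) := by exact_mod_cast (by omega : n = 2 * (n / 2))
      linarith
    rw [h1, h2, Real.log_div hn0.ne' (by norm_num)]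
    have : Real.log n - Real.log 2 - (Real.log n + ((0 : ℕ) : ℝ) * Real.log 3 - Real.log 2) = 0 := by
      push_cast
      ring
    rw [this, abs_zero]
    positivity
  · refine ⟨1, le_rfl, ?_⟩
    obtain ⟨u, rfl⟩ : ∃ u, n = 2 * u + 1 := ⟨n / 2, by omega⟩
    have hg := hy (2 * u + 1) (by omega)
    rw [mem_Ico] at hg
    have hS : S y (2 * u + 1) = od (2 * u + 1) (y (2 * u + 1)) := by
      unfold S
      rw [if_neg (by omega)]
    have hpos := od_pos hA (show 1 ≤ 2 * u + 1 by omega) ho hg.1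
    have hhit : Hit J (S y (2 * u + 1)) u := by
      unfold Hit
      rw [hS]
      unfold od at hpos ⊢
      omega
    obtain ⟨_, h2⟩ := log_err hA (show 12 ≤ S y (2 * u + 1) by omega) hhit
    have h3 : Real.log (S y (2 * u + 1)) - (Real.log ((2 * u + 1 : ℕ) : ℝ) +
        ((1 : ℕ) : ℝ) * Real.log 3 - Real.log 2) =
        -(Real.log ((2 * u + 1 : ℕ) : ℝ) - (Real.log (S y (2 * u + 1)) + Real.log 2 - Real.log 3)) := by
      push_cast
      ring
    rw [h3, abs_neg]
    refine h2.trans ?_
    apply div_le_div_of_nonneg_left (by norm_num) hsN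
    exact Real.sqrt_le_sqrt (by exact_mod_cast hn)

theorem steps_log {J : ℕ → ℕ} (hA : Amp J) {y : ℕ → ℤ} (hy : Good J y) {n : ℕ} (hN : 12 ≤ n)
    (hall : ∀ i, n ≤ (S y)^[i] n) (s : ℕ) : ∃ o : ℕ, o ≤ s ∧
      |Real.log ((S y)^[s] n) - (Real.log n + o * Real.log 3 - s * Real.log 2)| ≤
        s * (2 / Real.sqrt n) := by
  induction s with
  | zero => exact ⟨0, le_rfl, by simp⟩
  | succ s ih =>
    obtain ⟨o, ho, h1⟩ := ih
    have hs1 := hall (s + 1)
    rw [Function.iterate_succ_apply'] at hs1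
    obtain ⟨o', ho', h2⟩ := step_log hA hy hN (hall s) hs1
    refine ⟨o + o', by omega, ?_⟩
    rw [Function.iterate_succ_apply']
    have h3 : Real.log (S y ((S y)^[s] n)) - (Real.log n + ((o + o' : ℕ) : ℝ) * Real.log 3 -
        ((s + 1 : ℕ) : ℝ) * Real.log 2) =
        (Real.log (S y ((S y)^[s] n)) - (Real.log ((S y)^[s] n) + o' * Real.log 3 - Real.log 2)) +
        (Real.log ((S y)^[s] n) - (Real.log n + o * Real.log 3 - s * Real.log 2)) := by
      push_cast
      ring
    rw [h3]
    refine (abs_add_le _ _).trans ?_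
    push_cast
    linarith

theorem periodic_finite {J : ℕ → ℕ} (hA : Amp J) {y : ℕ → ℤ} (hy : Good J y) {c : ℝ} (hc : 0 ≤ c)
    {N₀ : ℕ} (h : ∀ᶠ n : ℕ in atTop, ¬ Esc N₀ y ⌈c * Real.log n⌉₊ ∅ n) :
    (Function.periodicPts (S y)).Finite := by
  have hl2 : 0 < Real.log 2 := Real.log_pos (by norm_num)
  have hne : ∀ a b : ℕ, 1 ≤ a → 1 ≤ b →
      (b : ℝ) * Real.log (3 : ℕ) - a * Real.log (2 : ℕ) ≠ 0 := by
    intro a b ha _ h0
    have := log_indep ha (b : ℤ)
    apply this
    push_cast at h0 ⊢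
    linarith
  set ε : ℝ := 1 / (8 * (c + 1)) with hε
  have hε0 : 0 < ε := by positivity
  obtain ⟨κ, hκ0, hκ⟩ := lfl_exp 2 3 le_rfl (by norm_num) hne hε0
  -- the contradiction for large `n`
  have hlim : ∀ᶠ n : ℕ in atTop, 2 * (c * Real.log n + 1) <
      κ * Real.exp (-(2 * ε)) * (n : ℝ) ^ (1 / 4 : ℝ) := by
    have h1 : Tendsto (fun x : ℝ => Real.log x / x ^ (1 / 4 : ℝ)) atTop (𝓝 0) :=
      (isLittleO_log_rpow_atTop (show (0 : ℝ) < 1 / 4 by norm_num)).tendsto_div_nhds_zero
    have h2 : Tendsto (fun x : ℝ => 1 / x ^ (1 / 4 : ℝ)) atTop (𝓝 0) :=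
      tendsto_const_nhds.div_atTop (tendsto_rpow_atTop (by norm_num))
    have h3 : Tendsto (fun x : ℝ => 2 * c * (Real.log x / x ^ (1 / 4 : ℝ)) +
        2 * (1 / x ^ (1 / 4 : ℝ))) atTop (𝓝 0) := by
      have := (h1.const_mul (2 * c)).add (h2.const_mul 2)
      simpa using this
    have h4 := (h3.comp tendsto_natCast_atTop_atTop).eventually
      (gt_mem_nhds (show 0 < κ * Real.exp (-(2 * ε)) by positivity))
    filter_upwards [h4, eventually_ge_atTop 1] with n hn hn1
    have hn0 : (0 : ℝ) < n := by exact_mod_cast hn1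
    have hp : (0 : ℝ) < (n : ℝ) ^ (1 / 4 : ℝ) := by positivity
    simp only [Function.comp] at hn
    have h5 : 2 * c * (Real.log n / (n : ℝ) ^ (1 / 4 : ℝ)) + 2 * (1 / (n : ℝ) ^ (1 / 4 : ℝ)) =
        (2 * (c * Real.log n + 1)) / (n : ℝ) ^ (1 / 4 : ℝ) := by
      field_simp
    rw [h5, div_lt_iff₀ hp] at hn
    exact hn
  obtain ⟨n₂, hn₂⟩ := eventually_atTop.1 ((h.and hlim).and (eventually_ge_atTop (max N₀ 100)))
  have hmin : ∀ n, 1 ≤ n → n ∈ Function.periodicPts (S y) → (∀ i, n ≤ (S y)^[i] n) → n < n₂ := by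
    intro n _ hper hall
    by_contra hcon
    push Not at hcon
    obtain ⟨⟨h1, h2⟩, h3⟩ := hn₂ n hcon
    have hnN : N₀ ≤ n := (le_max_left _ _).trans h3
    have hn100 : 100 ≤ n := (le_max_right _ _).trans h3
    obtain ⟨i, hi, h4 | h4 | ⟨i', hi', h4⟩⟩ := not_esc _ _ _ h1
    · exact absurd (hall i) (by omega)
    · simp at h4
    · obtain ⟨_, j, hj⟩ := periodic_back hper i'
      set p := i - i' with hp
      have hp1 : 1 ≤ p := by omega
      have hpn : (S y)^[p] n = n := by
        have e1 : (S y)^[p] n = (S y)^[j] ((S y)^[i] n) := by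
          conv_lhs => rw [← hj]
          rw [← Function.iterate_add_apply, ← Function.iterate_add_apply,
            ← Function.iterate_add_apply]
          congr 1
          omega
        rw [e1, ← h4, hj]
      obtain ⟨o, ho, h5⟩ := steps_log hA hy (by omega) hall p
      rw [hpn] at h5
      have hn0 : (0 : ℝ) < n := by exact_mod_cast (by omega : 0 < n)
      have hn1 : (1 : ℝ) ≤ n := by exact_mod_cast (by omega : 1 ≤ n)
      have hln : 0 ≤ Real.log n := Real.log_nonneg hn1
      have h6 : |(o : ℝ) * Real.log 3 - p * Real.log 2| ≤ p * (2 / Real.sqrt n) := by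
        have e1 : Real.log n - (Real.log n + o * Real.log 3 - p * Real.log 2) =
            -((o : ℝ) * Real.log 3 - p * Real.log 2) := by ring
        rw [e1, abs_neg] at h5
        exact h5
      have hsq : 10 ≤ Real.sqrt n := by
        apply Real.le_sqrt_of_sq_le
        norm_num
        exact_mod_cast hn100
      have hp0 : (0 : ℝ) < p := by exact_mod_cast hp1
      rcases Nat.eq_zero_or_pos o with ho0 | ho0
      · rw [ho0] at h6
        have e1 : |((0 : ℕ) : ℝ) * Real.log 3 - p * Real.log 2| = p * Real.log 2 := by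
          push_cast
          rw [zero_mul, zero_sub, abs_neg, abs_of_pos (by positivity)]
        rw [e1] at h6
        have h7 : Real.log 2 ≤ 2 / Real.sqrt n := le_of_mul_le_mul_left h6 hp0
        have h8 : 2 / Real.sqrt n ≤ 2 / 10 := div_le_div_of_nonneg_left (by norm_num) (by norm_num) hsq
        have h9 := Real.log_two_gt_d9
        linarith
      · have h7 := hκ p o hp1 ho0
        have e2 : |(o : ℝ) * Real.log (3 : ℕ) - p * Real.log (2 : ℕ)| =
            |(o : ℝ) * Real.log 3 - p * Real.log 2| := by norm_num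
        rw [e2] at h7
        have h8 : κ * Real.exp (-(ε * (p + o))) ≤ p * (2 / Real.sqrt n) := h7.trans h6
        have hpk : (p : ℝ) ≤ c * Real.log n + 1 := by
          have e3 : p ≤ ⌈c * Real.log n⌉₊ := by omega
          have e4 : (p : ℝ) ≤ ⌈c * Real.log n⌉₊ := by exact_mod_cast e3
          exact e4.trans (Nat.ceil_lt_add_one (by positivity)).le
        have hop : (o : ℝ) ≤ p := by exact_mod_cast ho
        have h9 : Real.exp (-(2 * ε)) * (n : ℝ) ^ (-(1 / 4) : ℝ) ≤ Real.exp (-(ε * (p + o))) := by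
          rw [Real.rpow_def_of_pos hn0, ← Real.exp_add]
          apply Real.exp_le_exp.2
          have e5 : ε * ((p : ℝ) + o) ≤ ε * (2 * (c * Real.log n + 1)) :=
            mul_le_mul_of_nonneg_left (by linarith) hε0.le
          have e6 : ε * (2 * (c * Real.log n)) ≤ 1 / 4 * Real.log n := by
            rw [hε]
            have e7 : 1 / (8 * (c + 1)) * (2 * (c * Real.log n)) =
                (c / (c + 1)) * (1 / 4 * Real.log n) := by
              field_simp
              ring
            rw [e7]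
            apply mul_le_of_le_one_left (by positivity)
            rw [div_le_one (by positivity)]
            linarith
          linarith
        have h10 : κ * (Real.exp (-(2 * ε)) * (n : ℝ) ^ (-(1 / 4) : ℝ)) ≤
            (c * Real.log n + 1) * (2 / Real.sqrt n) :=
          (mul_le_mul_of_nonneg_left h9 hκ0.le).trans
            (h8.trans (mul_le_mul_of_nonneg_right hpk (by positivity)))
        have h11 : (n : ℝ) ^ (-(1 / 4) : ℝ) * Real.sqrt n = (n : ℝ) ^ (1 / 4 : ℝ) := by
          rw [Real.sqrt_eq_rpow, ← Real.rpow_add hn0]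
          norm_num
        have h12 := mul_le_mul_of_nonneg_right h10 (Real.sqrt_nonneg n)
        have h13 : (c * Real.log n + 1) * (2 / Real.sqrt n) * Real.sqrt n =
            2 * (c * Real.log n + 1) := by
          have : Real.sqrt n ≠ 0 := by positivity
          field_simp
        have h14 : κ * (Real.exp (-(2 * ε)) * (n : ℝ) ^ (-(1 / 4) : ℝ)) * Real.sqrt n =
            κ * Real.exp (-(2 * ε)) * (n : ℝ) ^ (1 / 4 : ℝ) := by
          rw [← h11]
          ring
        rw [h13, h14] at h12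
        linarith
  obtain ⟨B, hB⟩ := orbit_bound (S y) (range (n₂ + 1))
  apply (Set.finite_Iic B).subset
  intro m hm
  rw [Set.mem_Iic]
  rcases Nat.eq_zero_or_pos m with rfl | hm0
  · exact Nat.zero_le _
  -- the least element of the cycle
  obtain ⟨j, hj⟩ : ∃ j, ∀ i, (S y)^[j] m ≤ (S y)^[i] m := by
    have hne' : (Set.range fun i => (S y)^[i] m).Nonempty := Set.range_nonempty _
    obtain ⟨j, hj⟩ := Nat.sInf_mem hne'
    exact ⟨j, fun i => by
      simp only at hj
      rw [hj]
      exact Nat.sInf_le ⟨i, rfl⟩⟩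
  obtain ⟨h1, i, h2⟩ := periodic_back hm j
  have h3 : (S y)^[j] m < n₂ := hmin _ (iter_pos hA hy hm0 j) h1 (fun i => by
    rw [← Function.iterate_add_apply]
    exact hj _)
  have h4 := hB _ (mem_range.2 (by omega)) h1 i
  rwa [h2] at h4

end Pool.Agent.W2helper40.RC
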