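import Pool.Agent.W2helper40.RC.Ind

set_option autoImplicit false

/-! The perturbed map and the probability that an orbit neither repeats a value nor becomes small. -/

namespace Pool.Agent.W2helper40.RC

open MeasureTheory ProbabilityTheory Finset Filter Topology

variable {Ω : Type*} [MeasurableSpace Ω]

/-- the value at an odd site -/
def od (n : ℕ) (j : ℤ) : ℕ := ((3 * (n : ℤ) + 1) / 2 + j).toNat

/-- the perturbed map -/
def S (y : ℕ → ℤ) (n : ℕ) : ℕ := if n % 2 = 0 then n / 2 else od n (y n)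

/-- the sizes of the perturbations -/
structure Amp (J : ℕ → ℕ) : Prop where
  mono : Monotone J
  top : Tendsto J atTop atTop
  slow : Tendsto (fun n => (J (2 * n) : ℝ) / J n) atTop (𝓝 1)
  one : ∀ n, 1 ≤ n → 1 ≤ J n
  sq : ∀ n, 1 ≤ n → (J n) ^ 2 ≤ n

/-- the random configuration -/
structure Env (J : ℕ → ℕ) (P : Measure Ω) (Y : ℕ → Ω → ℤ) : Prop where
  meas : ∀ n, Measurable (Y n)
  ind : iIndepFun Y P
  law : ∀ n, 1 ≤ n → ∀ j ∈ Finset.Ico (-(J n : ℤ)) (J n), P.real {ω | Y n ω = j} = 1 / (2 * J n)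
  supp : ∀ n, 1 ≤ n → P.real {ω | Y n ω ∉ Finset.Ico (-(J n : ℤ)) (J n)} = 0

theorem Amp.le_self {J : ℕ → ℕ} (h : Amp J) {n : ℕ} (hn : 1 ≤ n) : J n ≤ n := by
  have h1 := h.sq n hn
  have h2 := h.one n hn
  nlinarith

theorem od_pos {J : ℕ → ℕ} (h : Amp J) {n : ℕ} (hn : 1 ≤ n) (ho : n % 2 = 1) {j : ℤ}
    (hj : -(J n : ℤ) ≤ j) : 1 ≤ od n j := by
  have h1 := h.le_self hn
  unfold od
  omega

/-- the orbit of `n` stays above `N₀` and does not repeat for `k` steps, and avoids `A` -/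
def Esc (N₀ : ℕ) (y : ℕ → ℤ) : ℕ → Finset ℕ → ℕ → Prop
  | 0, _, _ => True
  | k + 1, A, n => n ∉ A ∧ N₀ ≤ n ∧ Esc N₀ y k (insert n A) (S y n)

theorem esc_bound {J : ℕ → ℕ} {P : Measure Ω} [IsProbabilityMeasure P] {Y : ℕ → Ω → ℤ} (hA : Amp J)
    (hE : Env J P Y) {N₀ : ℕ} (hN : 1 ≤ N₀) {h : ℕ → ℝ} {lam : ℝ} (hlam : 0 ≤ lam)
    (h1 : ∀ n, 1 ≤ n → 1 ≤ h n) (heven : ∀ n, N₀ ≤ n → n % 2 = 0 → h (n / 2) ≤ lam * h n)
    (hodd : ∀ n, N₀ ≤ n → n % 2 = 1 →
      ∑ j ∈ Ico (-(J n : ℤ)) (J n), h (od n j) ≤ 2 * J n * (lam * h n)) (k : ℕ) :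
    ∀ (A : Finset ℕ) (n : ℕ) (E : (ℕ → ℤ) → Prop), 1 ≤ n → Dep E A →
      P.real {ω | E (fun i => Y i ω) ∧ Esc N₀ (fun i => Y i ω) k A n} ≤
        P.real {ω | E (fun i => Y i ω)} * (lam ^ k * h n) := by
  induction k with
  | zero =>
    intro A n E hn hd
    simp only [Esc, and_true, pow_zero, one_mul]
    exact le_mul_of_one_le_right measureReal_nonneg (h1 n hn)
  | succ k ih =>
    intro A n E hn hd
    have hpos : 0 ≤ P.real {ω | E (fun i => Y i ω)} * (lam ^ (k + 1) * h n) :=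
      mul_nonneg measureReal_nonneg (mul_nonneg (pow_nonneg hlam _) (zero_le_one.trans (h1 n hn)))
    by_cases hc : n ∉ A ∧ N₀ ≤ n
    swap
    · have : {ω | E (fun i => Y i ω) ∧ Esc N₀ (fun i => Y i ω) (k + 1) A n} = ∅ := by
        ext ω
        simp only [Set.mem_ofPred_eq, Set.mem_empty_iff_false, iff_false, Esc]
        rintro ⟨_, h2, h3, _⟩
        exact hc ⟨h2, h3⟩
      rw [this, measureReal_empty]
      exact hpos
    obtain ⟨hnA, hnN⟩ := hc
    rcases Nat.mod_two_eq_zero_or_one n with hev | ho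
    · have e1 : {ω | E (fun i => Y i ω) ∧ Esc N₀ (fun i => Y i ω) (k + 1) A n} =
          {ω | E (fun i => Y i ω) ∧ Esc N₀ (fun i => Y i ω) k (insert n A) (n / 2)} := by
        ext ω
        simp only [Set.mem_ofPred_eq, Esc, S, hev, if_true, hnA, hnN, not_false_eq_true, true_and]
      rw [e1]
      refine (ih (insert n A) (n / 2) E (by omega) (hd.mono (by simp))).trans ?_
      apply mul_le_mul_of_nonneg_left _ measureReal_nonneg
      rw [pow_succ, mul_assoc]
      exact mul_le_mul_of_nonneg_left (heven n hnN hev) (pow_nonneg hlam _)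
    · have hJ : (0 : ℝ) < J n := by exact_mod_cast hA.one n hn
      have e1 : {ω | E (fun i => Y i ω) ∧ Esc N₀ (fun i => Y i ω) (k + 1) A n} ⊆
          {ω | Y n ω ∉ Ico (-(J n : ℤ)) (J n)} ∪
          ⋃ j ∈ Ico (-(J n : ℤ)) (J n), {ω | (E (fun i => Y i ω) ∧ Y n ω = j) ∧
            Esc N₀ (fun i => Y i ω) k (insert n A) (od n j)} := by
        intro ω hω
        simp only [Set.mem_ofPred_eq, Esc, S, ho, hnA, hnN, not_false_eq_true, true_and,
          one_ne_zero, if_false] at hω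
        by_cases hy : Y n ω ∈ Ico (-(J n : ℤ)) (J n)
        · right
          simp only [Set.mem_iUnion]
          exact ⟨Y n ω, hy, ⟨hω.1, rfl⟩, hω.2⟩
        · left
          exact hy
      refine (measureReal_mono e1).trans ((measureReal_union_le _ _).trans ?_)
      rw [hE.supp n hn, zero_add]
      refine (measureReal_biUnion_finset_le _ _).trans ?_
      have e2 : ∀ j ∈ Ico (-(J n : ℤ)) (J n),
          P.real {ω | (E (fun i => Y i ω) ∧ Y n ω = j) ∧
            Esc N₀ (fun i => Y i ω) k (insert n A) (od n j)} ≤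
          P.real {ω | E (fun i => Y i ω)} * (1 / (2 * J n)) * (lam ^ k * h (od n j)) := by
        intro j hj
        have hdn : Dep (fun y => y n = j) ({n} : Finset ℕ) := by
          intro y y' hy
          have : y n = y' n := hy n (by simp)
          simp only [this]
        have hd2 : Dep (fun y => E y ∧ y n = j) (insert n A : Finset ℕ) := by
          refine (hd.mono (by simp)).and (hdn.mono (by simp))
        refine (ih (insert n A) (od n j) (fun y => E y ∧ y n = j)
          (od_pos hA hn ho (mem_Ico.1 hj).1) hd2).trans_eq ?_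
        rw [indep_dep hE.meas hE.ind (U := A) (V := {n}) (by simpa using hnA) hd hdn,
          hE.law n hn j hj]
      refine (Finset.sum_le_sum e2).trans ?_
      rw [← Finset.mul_sum, ← Finset.mul_sum, mul_assoc]
      apply mul_le_mul_of_nonneg_left _ measureReal_nonneg
      have h3 := mul_le_mul_of_nonneg_left (hodd n hnN ho) (pow_nonneg hlam k)
      calc 1 / (2 * (J n : ℝ)) * (lam ^ k * ∑ j ∈ Ico (-(J n : ℤ)) (J n), h (od n j))
          ≤ 1 / (2 * (J n : ℝ)) * (lam ^ k * (2 * J n * (lam * h n))) :=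
            mul_le_mul_of_nonneg_left h3 (by positivity)
        _ = lam ^ (k + 1) * h n := by
            field_simp
            ring

end Pool.Agent.W2helper40.RC
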