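import Pool.Agent.W2helper40.RC.Cyc

set_option autoImplicit false

/-! The theorem in terms of the original perturbations. -/

namespace Pool.Agent.W2helper40.RC

open MeasureTheory ProbabilityTheory Finset Filter Topology
open Pool.Agent.H395R2.G3 (rate rr FF FF_cont rr_spec rr_pos rr_lt_one expo_eq exists_gamma FF_pos_of)

variable {Ω : Type*} [MeasurableSpace Ω]

/-- the perturbed `3x+1` function -/
def PT (ξ : ℕ → ℤ) (n : ℕ) : ℕ := if n % 2 = 0 then n / 2 else ((3 * (n : ℤ) + ξ n) / 2).toNat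

/-- sizes of the perturbations -/
structure Amplitude (L : ℕ → ℕ) : Prop where
  mono : Monotone L
  top : Tendsto L atTop atTop
  slow : Tendsto (fun n => (L (2 * n) : ℝ) / L n) atTop (𝓝 1)
  one : ∀ n, 1 ≤ n → 1 ≤ L n
  sq : ∀ n, 1 ≤ n → (L n) ^ 2 ≤ n

theorem amp_of {L : ℕ → ℕ} (hL : Amplitude L) : Amp (fun n => (L n + 1) / 2) where
  mono := fun a b h => Nat.div_le_div_right (Nat.add_le_add_right (hL.mono h) 1)
  top := by
    rw [tendsto_atTop]
    intro b
    filter_upwards [hL.top.eventually_ge_atTop (2 * b)] with n hn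
    omega
  slow := by
    have hLr : Tendsto (fun n => (L n : ℝ)) atTop atTop := tendsto_natCast_atTop_atTop.comp hL.top
    have h2 : Tendsto (fun n : ℕ => 2 * n) atTop atTop := tendsto_id.const_mul_atTop' (by norm_num)
    -- `J(n) / L(n) → 1/2`
    have hJ : Tendsto (fun n => (((L n + 1) / 2 : ℕ) : ℝ) / L n) atTop (𝓝 (1 / 2)) := by
      have h3 : Tendsto (fun n => 1 / 2 + (1 / 2) * (1 / (L n : ℝ))) atTop (𝓝 (1 / 2)) := by
        have h4 : Tendsto (fun n => 1 / (L n : ℝ)) atTop (𝓝 0) := tendsto_const_nhds.div_atTop hLr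
        have h5 := (tendsto_const_nhds (x := (1 / 2 : ℝ))).add (h4.const_mul (1 / 2))
        simpa using h5
      refine tendsto_of_tendsto_of_tendsto_of_le_of_le' tendsto_const_nhds h3 ?_ ?_
      · filter_upwards [eventually_ge_atTop 1] with n hn
        have hL0 : (0 : ℝ) < L n := by exact_mod_cast hL.one n hn
        rw [le_div_iff₀ hL0]
        have : L n ≤ 2 * ((L n + 1) / 2) := by omega
        have : (L n : ℝ) ≤ 2 * (((L n + 1) / 2 : ℕ) : ℝ) := by exact_mod_cast this
        linarith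
      · filter_upwards [eventually_ge_atTop 1] with n hn
        have hL0 : (0 : ℝ) < L n := by exact_mod_cast hL.one n hn
        rw [div_le_iff₀ hL0]
        have : 2 * ((L n + 1) / 2) ≤ L n + 1 := by omega
        have : 2 * (((L n + 1) / 2 : ℕ) : ℝ) ≤ L n + 1 := by exact_mod_cast this
        have e : (1 / 2 + 1 / 2 * (1 / (L n : ℝ))) * L n = (L n + 1) / 2 := by
          field_simp
        rw [e]
        linarith
    have hJ2 := hJ.comp h2
    have h3 := (hJ2.mul hL.slow).div hJ (by norm_num)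
    have e : (1 / 2 : ℝ) * 1 / (1 / 2) = 1 := by norm_num
    rw [e] at h3
    refine h3.congr' ?_
    filter_upwards [eventually_ge_atTop 1] with n hn
    have hL0 : (0 : ℝ) < L n := by exact_mod_cast hL.one n hn
    have hL2 : (0 : ℝ) < L (2 * n) := by exact_mod_cast hL.one (2 * n) (by omega)
    have hJ0 : (0 : ℝ) < (((L n + 1) / 2 : ℕ) : ℝ) := by
      have := hL.one n hn
      exact_mod_cast (by omega : 0 < (L n + 1) / 2)
    simp only [Pi.div_apply, Function.comp]
    field_simp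
  one := fun n hn => by
    have := hL.one n hn
    show 1 ≤ (L n + 1) / 2
    omega
  sq := fun n hn => by
    have h1 := hL.one n hn
    have h2 := hL.sq n hn
    show ((L n + 1) / 2) ^ 2 ≤ n
    have h3 : (L n + 1) / 2 ≤ L n := by omega
    exact (Nat.pow_le_pow_left h3 2).trans h2

/-- the odd integers in `[-L, L]` -/
theorem odds_eq (L : ℕ) : {z : ℤ | Odd z ∧ |z| ≤ L} =
    (((Ico (-(((L + 1) / 2 : ℕ) : ℤ)) (((L + 1) / 2 : ℕ) : ℤ)).image (fun j => 2 * j + 1) :
      Finset ℤ) : Set ℤ) := by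
  ext z
  simp only [Set.mem_ofPred_eq, coe_image, Set.mem_image, coe_Ico, Set.mem_Ico]
  constructor
  · rintro ⟨⟨k, hk⟩, hz⟩
    rw [abs_le] at hz
    refine ⟨k, ?_, hk.symm⟩
    omega
  · rintro ⟨k, hk, rfl⟩
    refine ⟨⟨k, rfl⟩, ?_⟩
    rw [abs_le]
    omega

theorem env_of {L : ℕ → ℕ} (hL : Amplitude L) {P : Measure Ω} [IsProbabilityMeasure P]
    {ξ : ℕ → Ω → ℤ} (hmeas : ∀ n, Measurable (ξ n)) (hind : iIndepFun ξ P)
    (hlaw : ∀ n, 1 ≤ n → P.map (ξ n) = uniformOn {z : ℤ | Odd z ∧ |z| ≤ L n}) :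
    Env (fun n => (L n + 1) / 2) P (fun n ω => (ξ n ω - 1) / 2) where
  meas := fun n => (measurable_of_countable (fun z : ℤ => (z - 1) / 2)).comp (hmeas n)
  ind := hind.comp (fun _ z => (z - 1) / 2) fun _ => measurable_of_countable _
  law := by
    intro n hn j hj
    have hL1 := hL.one n hn
    rw [mem_Ico] at hj
    have h1 : P.real {ω | (ξ n ω - 1) / 2 = j} =
        (P.map (ξ n)).real ((({2 * j + 1, 2 * j + 2} : Finset ℤ)) : Set ℤ) := by
      rw [map_measureReal_apply (hmeas n) (Set.to_countable _).measurableSet]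
      congr 1
      ext ω
      simp only [Set.mem_ofPred_eq, Set.mem_preimage, coe_insert, coe_singleton,
        Set.mem_insert_iff, Set.mem_singleton_iff]
      omega
    rw [h1, hlaw n hn, odds_eq, measureReal_def, uniformOn_apply_finset]
    have h2 : ((Ico (-(((L n + 1) / 2 : ℕ) : ℤ)) (((L n + 1) / 2 : ℕ) : ℤ)).image
        (fun j => 2 * j + 1)) ∩ {2 * j + 1, 2 * j + 2} = {2 * j + 1} := by
      ext z
      simp only [mem_inter, mem_image, mem_Ico, mem_insert, mem_singleton]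
      constructor
      · rintro ⟨⟨k, hk, rfl⟩, h⟩
        omega
      · rintro rfl
        exact ⟨⟨j, hj, rfl⟩, Or.inl rfl⟩
    rw [h2, card_singleton, card_image_of_injective _ (fun a b h => by simpa using h), Int.card_Ico]
    have h3 : ((((L n + 1) / 2 : ℕ) : ℤ) - -(((L n + 1) / 2 : ℕ) : ℤ)).toNat = 2 * ((L n + 1) / 2) := by
      omega
    rw [h3]
    simp
  supp := by
    intro n hn
    have h1 : P.real {ω | (ξ n ω - 1) / 2 ∉ Ico (-(((L n + 1) / 2 : ℕ) : ℤ)) (((L n + 1) / 2 : ℕ) : ℤ)} =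
        (P.map (ξ n)).real
          {z : ℤ | (z - 1) / 2 ∉ Ico (-(((L n + 1) / 2 : ℕ) : ℤ)) (((L n + 1) / 2 : ℕ) : ℤ)} := by
      rw [map_measureReal_apply (hmeas n) (Set.to_countable _).measurableSet]
      rfl
    rw [h1, hlaw n hn, odds_eq, measureReal_def, (uniformOn_eq_zero_iff (Finset.finite_toSet _)).2]
    · rfl
    · ext z
      simp only [Set.mem_inter_iff, Set.mem_empty_iff_false, iff_false, coe_image, Set.mem_image,
        coe_Ico, Set.mem_Ico, Set.mem_ofPred_eq, mem_Ico]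
      rintro ⟨⟨k, hk, rfl⟩, h⟩
      omega

/-- all perturbations are odd -/
theorem odd_ae {L : ℕ → ℕ} {P : Measure Ω} [IsProbabilityMeasure P]
    {ξ : ℕ → Ω → ℤ} (hmeas : ∀ n, Measurable (ξ n))
    (hlaw : ∀ n, 1 ≤ n → P.map (ξ n) = uniformOn {z : ℤ | Odd z ∧ |z| ≤ L n}) :
    ∀ᵐ ω ∂P, ∀ n, 1 ≤ n → Odd (ξ n ω) := by
  rw [ae_all_iff]
  intro n
  by_cases hn : 1 ≤ n
  · have h1 : P {ω | ¬ Odd (ξ n ω)} = 0 := by
      have h2 : P {ω | ¬ Odd (ξ n ω)} = (P.map (ξ n)) {z : ℤ | ¬ Odd z} := by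
        rw [Measure.map_apply (hmeas n) (Set.to_countable _).measurableSet]
        rfl
      rw [h2, hlaw n hn, odds_eq, (uniformOn_eq_zero_iff (Finset.finite_toSet _)).2]
      ext z
      simp only [Set.mem_inter_iff, Set.mem_empty_iff_false, iff_false, coe_image, Set.mem_image,
        coe_Ico, Set.mem_Ico, Set.mem_ofPred_eq]
      rintro ⟨⟨k, hk, rfl⟩, h⟩
      exact h ⟨k, rfl⟩
    have h3 : ∀ᵐ ω ∂P, Odd (ξ n ω) := by
      rw [ae_iff]
      exact h1
    filter_upwards [h3] with ω hω _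
    exact hω
  · exact Eventually.of_forall fun ω h => absurd h hn

theorem PT_eq {x : ℕ → ℤ} (hx : ∀ n, 1 ≤ n → Odd (x n)) : PT x = S (fun n => (x n - 1) / 2) := by
  funext n
  unfold PT S od
  split_ifs with h
  · rfl
  · show ((3 * (n : ℤ) + x n) / 2).toNat = ((3 * (n : ℤ) + 1) / 2 + (x n - 1) / 2).toNat
    obtain ⟨k, hk⟩ := hx n (by omega)
    rw [hk]
    congr 1
    omega

/-- number of steps before the orbit enters its cycle -/
noncomputable def sig (f : ℕ → ℕ) (n : ℕ) : ℕ := sInf {k : ℕ | f^[k] n ∈ Function.periodicPts f}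

theorem main {P : Measure Ω} [IsProbabilityMeasure P] {L : ℕ → ℕ} (hL : Amplitude L)
    {ξ : ℕ → Ω → ℤ} (hmeas : ∀ n, Measurable (ξ n)) (hind : iIndepFun ξ P)
    (hlaw : ∀ n, 1 ≤ n → P.map (ξ n) = uniformOn {z : ℤ | Odd z ∧ |z| ≤ L n}) :
    ∃ γ : ℝ, (γ > ((1 / 2) * Real.log (4 / 3))⁻¹ ∧ γ * rate (1 / γ) = 1) ∧
      (∀ γ' : ℝ, γ' > ((1 / 2) * Real.log (4 / 3))⁻¹ → γ' * rate (1 / γ') = 1 → γ' = γ) ∧
      ∀ᵐ ω ∂P,
        (∀ n, ∃ k, (PT fun i => ξ i ω)^[k] n ∈ Function.periodicPts (PT fun i => ξ i ω)) ∧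
        (Function.periodicPts (PT fun i => ξ i ω)).Finite ∧
        limsup (fun n : ℕ => (((sig (PT fun i => ξ i ω) n : ℝ) / Real.log n : ℝ) : EReal)) atTop =
          (γ : EReal) ∧
        (∀ α : ℝ, ((1 / 2) * Real.log (4 / 3))⁻¹ < α → α < γ → 0 < 1 - α * rate (1 / α) ∧
          ∀ ε : ℝ, 0 < ε → ∃ X₀ : ℝ, ∀ x : ℝ, X₀ ≤ x →
            x ^ (1 - α * rate (1 / α) - ε) ≤ (({n : ℕ | 1 ≤ n ∧ (n : ℝ) ≤ x ∧
              α * Real.log n ≤ sig (PT fun i => ξ i ω) n}.ncard : ℕ) : ℝ) ∧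
            (({n : ℕ | 1 ≤ n ∧ (n : ℝ) ≤ x ∧
              α * Real.log n ≤ sig (PT fun i => ξ i ω) n}.ncard : ℕ) : ℝ) ≤
              x ^ (1 - α * rate (1 / α) + ε)) := by
  obtain ⟨γ, hnum, ⟨hγ1, hγ2⟩, huniq, hpos⟩ := exists_gamma
  have hl43 : 0 < Real.log (4 / 3) := Real.log_pos (by norm_num)
  have hμ0 : 0 < ((1 / 2) * Real.log (4 / 3))⁻¹ := by positivity
  have hl2 : 0 < Real.log 2 := Real.log_pos (by norm_num)
  have hμ1 : 1 / Real.log 2 < ((1 / 2) * Real.log (4 / 3))⁻¹ := by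
    rw [one_div]
    apply inv_strictAnti₀ (by positivity)
    have h43 : Real.log (4 / 3) = 2 * Real.log 2 - Real.log 3 := by
      rw [Real.log_div (by norm_num) (by norm_num), show (4 : ℝ) = 2 ^ 2 by norm_num, Real.log_pow]
      norm_num
    have hl3 : 0 < Real.log 3 := Real.log_pos (by norm_num)
    rw [h43]
    linarith
  have hγ0 : 0 < γ := hμ0.trans hγ1
  have hpsi : ∀ α, ((1 / 2) * Real.log (4 / 3))⁻¹ < α → psi α = 1 - α * rate (1 / α) := by
    intro α hα
    unfold psi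
    exact (expo_eq (hμ1.trans hα)).symm
  have hpospsi : ∀ α, ((1 / 2) * Real.log (4 / 3))⁻¹ < α → α < γ → 0 < psi α := by
    intro α h1 h2
    unfold psi
    exact mul_pos (hμ0.trans h1) (hpos α (hμ1.trans h1) h2)
  have hFγ : FF (rr γ) = 0 := by
    have h1 := hpsi γ hγ1
    rw [hγ2, sub_self] at h1
    unfold psi at h1
    rcases mul_eq_zero.1 h1 with h2 | h2
    · exact absurd h2 hγ0.ne'
    · exact h2
  have hnegpsi : ∀ α, γ < α → psi α < 0 := by
    intro α hα
    have hα0 : 0 < α := hγ0.trans hα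
    unfold psi
    apply mul_neg_of_pos_of_neg hα0
    by_contra hc
    push Not at hc
    have h1 : rr γ < rr α := by
      unfold rr
      apply div_lt_div_of_pos_right _ (Real.log_pos (by norm_num))
      have := one_div_lt_one_div_of_lt hγ0 hα
      linarith
    have h2 := FF_pos_of (rr_pos (hμ1.trans hγ1)) h1 (rr_lt_one hα0).le hc
    linarith
  refine ⟨γ, ⟨hγ1, hγ2⟩, huniq, ?_⟩
  have hA := amp_of hL
  have hE := env_of hL hmeas hind hlaw
  filter_upwards [upper hA hE hγ1 hnegpsi, lower hA hE, odd_ae hmeas hlaw] with ω hu hlow hodd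
  obtain ⟨hgood, hent, hup, hcount, c, hc, N₀, hesc⟩ := hu
  have hPT := PT_eq hodd
  set y : ℕ → ℤ := fun n => (ξ n ω - 1) / 2 with hy
  rw [hPT]
  have hfin := periodic_finite hA hgood hc hesc
  -- `sig` and the entry times
  have hsig1 : ∀ n, Ent y n (sig (S y) n) := fun n => Nat.sInf_mem (hent n)
  have hsig2 : ∀ n k, Ent y n k → sig (S y) n ≤ k := fun n k hk => Nat.sInf_le hk
  have hset : ∀ (α : ℝ) (n : ℕ), (∀ k : ℕ, Ent y n k → α * Real.log n ≤ k) ↔
      α * Real.log n ≤ sig (S y) n := by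
    intro α n
    constructor
    · intro h
      exact h _ (hsig1 n)
    · intro h k hk
      exact h.trans (by exact_mod_cast hsig2 n k hk)
  simp only [hset] at hcount hlow
  refine ⟨hent, hfin, ?_, ?_⟩
  · apply le_antisymm
    · -- upper bound
      apply le_of_forall_gt_imp_ge_of_dense
      intro a ha
      obtain ⟨r, hr1, hr2⟩ := EReal.lt_iff_exists_real_btwn.1 ha
      have hr1' : γ < r := by exact_mod_cast hr1
      refine le_trans ?_ hr2.le
      apply limsup_le_of_le (by isBoundedDefault)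
      filter_upwards [hup r hr1', eventually_ge_atTop 2] with n hn hn2
      obtain ⟨k, hk1, hk2⟩ := hn
      have hln : 0 < Real.log n := Real.log_pos (by exact_mod_cast hn2)
      have : (sig (S y) n : ℝ) / Real.log n ≤ r := by
        rw [div_le_iff₀ hln]
        exact le_trans (by exact_mod_cast hsig2 n k hk2) hk1
      exact_mod_cast this
    · apply le_of_forall_lt_imp_le_of_dense
      intro a ha
      obtain ⟨r, hr1, hr2⟩ := EReal.lt_iff_exists_real_btwn.1 ha
      have hr2' : r < γ := by exact_mod_cast hr2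
      refine le_trans hr1.le ?_
      apply le_limsup_of_frequently_le ?_ (by isBoundedDefault)
      -- infinitely many slow numbers
      obtain ⟨α, hα1, hα2⟩ := exists_between (max_lt hr2' hγ1)
      have hα3 : ((1 / 2) * Real.log (4 / 3))⁻¹ < α := lt_of_le_of_lt (le_max_right _ _) hα1
      have hα4 : r < α := lt_of_le_of_lt (le_max_left _ _) hα1
      have hψ := hpospsi α hα3 hα2
      obtain ⟨X₀, hX₀⟩ := hlow α (hμ1.trans hα3) hψ (psi α / 2) (by positivity)
      rw [Filter.frequently_atTop]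
      intro N
      have ht := tendsto_rpow_atTop (show 0 < psi α - psi α / 2 by linarith)
      obtain ⟨x, hx1, hx2⟩ := ((ht.eventually_gt_atTop ((N : ℝ) + 2)).and
        (eventually_ge_atTop X₀)).exists
      have h1 := hX₀ x hx2
      by_contra hcon
      push Not at hcon
      have hsub : {n : ℕ | 1 ≤ n ∧ (n : ℝ) ≤ x ∧ α * Real.log n ≤ sig (S y) n} ⊆
          ((Finset.range (N + 2) : Finset ℕ) : Set ℕ) := by
        rintro n ⟨h2, h3, h4⟩
        rw [Finset.mem_coe, Finset.mem_range]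
        by_contra h5
        push Not at h5
        have h6 := hcon n (by omega)
        have hln : 0 < Real.log n := Real.log_pos (by exact_mod_cast (by omega : 1 < n))
        have h7 : r < (sig (S y) n : ℝ) / Real.log n := by
          rw [lt_div_iff₀ hln]
          nlinarith
        exact absurd (by exact_mod_cast h7.le) (not_le.2 h6)
      have h2 := Set.ncard_le_ncard hsub (Finset.finite_toSet _)
      rw [Set.ncard_coe_finset, Finset.card_range] at h2
      have h3 : (({n : ℕ | 1 ≤ n ∧ (n : ℝ) ≤ x ∧ α * Real.log n ≤ sig (S y) n}.ncard : ℕ) : ℝ) ≤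
          (N : ℝ) + 2 := by exact_mod_cast h2
      linarith
  · intro α h1 h2
    have hψ := hpospsi α h1 h2
    have he := hpsi α h1
    rw [← he]
    refine ⟨hψ, fun ε hε => ?_⟩
    obtain ⟨X₁, hX₁⟩ := hlow α (hμ1.trans h1) hψ ε hε
    obtain ⟨X₂, hX₂⟩ := hcount α h1 hψ ε hε
    exact ⟨max X₁ X₂, fun x hx => ⟨hX₁ x (le_trans (le_max_left _ _) hx),
      hX₂ x (le_trans (le_max_right _ _) hx)⟩⟩

end Pool.Agent.W2helper40.RC
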