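import Mathlib

set_option autoImplicit false

/-! Independence of events which depend on disjoint finite sets of sites. -/

namespace Pool.Agent.W2helper40.RC

open MeasureTheory ProbabilityTheory

variable {Ω : Type*} [MeasurableSpace Ω]

/-- an event (a property of configurations) determined by the sites in `U` -/
def Dep (E : (ℕ → ℤ) → Prop) (U : Set ℕ) : Prop :=
  ∀ y y' : ℕ → ℤ, (∀ i ∈ U, y i = y' i) → (E y ↔ E y')

theorem Dep.mono {E : (ℕ → ℤ) → Prop} {U V : Set ℕ} (h : Dep E U) (hUV : U ⊆ V) : Dep E V :=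
  fun y y' hy => h y y' fun i hi => hy i (hUV hi)

theorem Dep.and {E F : (ℕ → ℤ) → Prop} {U : Set ℕ} (h : Dep E U) (h' : Dep F U) :
    Dep (fun y => E y ∧ F y) U :=
  fun y y' hy => and_congr (h y y' hy) (h' y y' hy)

/-- the extension by zero -/
def ext0 (U : Finset ℕ) (a : U → ℤ) : ℕ → ℤ := fun n => if h : n ∈ U then a ⟨n, h⟩ else 0

omit [MeasurableSpace Ω] in
theorem ext_eq {U : Finset ℕ} {E : (ℕ → ℤ) → Prop} (hE : Dep E U) (Y : ℕ → Ω → ℤ) :
    {ω | E (fun n => Y n ω)} = (fun ω (i : U) => Y i ω) ⁻¹' {a : U → ℤ | E (ext0 U a)} := by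
  ext ω
  simp only [Set.mem_ofPred_eq, Set.mem_preimage]
  apply hE
  intro i hi
  have hi' : i ∈ U := hi
  simp [ext0, hi']

theorem meas_dep {Y : ℕ → Ω → ℤ} (hm : ∀ n, Measurable (Y n)) {U : Finset ℕ} {E : (ℕ → ℤ) → Prop}
    (hE : Dep E U) : MeasurableSet {ω | E (fun n => Y n ω)} := by
  rw [ext_eq hE Y]
  exact (measurable_pi_lambda _ fun i : U => hm i)
    (Set.to_countable {a : U → ℤ | E (ext0 U a)}).measurableSet

theorem indep_dep {P : Measure Ω} {Y : ℕ → Ω → ℤ} (hm : ∀ n, Measurable (Y n)) (hi : iIndepFun Y P)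
    {U V : Finset ℕ} (hUV : Disjoint U V) {E F : (ℕ → ℤ) → Prop} (hE : Dep E U) (hF : Dep F V) :
    P.real {ω | E (fun n => Y n ω) ∧ F (fun n => Y n ω)} =
      P.real {ω | E fun n => Y n ω} * P.real {ω | F fun n => Y n ω} := by
  have h := hi.indepFun_finset U V hUV hm
  have h1 := h.measure_inter_preimage_eq_mul {a : U → ℤ | E (ext0 U a)} {a : V → ℤ | F (ext0 V a)}
    (Set.to_countable {a : U → ℤ | E (ext0 U a)}).measurableSet
    (Set.to_countable {a : V → ℤ | F (ext0 V a)}).measurableSet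
  rw [← ext_eq hE Y, ← ext_eq hF Y] at h1
  have h2 : {ω | E (fun n => Y n ω) ∧ F (fun n => Y n ω)} =
      {ω | E (fun n => Y n ω)} ∩ {ω | F (fun n => Y n ω)} := rfl
  rw [h2, measureReal_def, h1, ENNReal.toReal_mul]
  rfl

end Pool.Agent.W2helper40.RC
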