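import Pool.Agent.W2helper40.RC.Up

set_option autoImplicit false

/-! Consequences for the typical configuration: periodicity, the entry times, and the counts. -/

namespace Pool.Agent.W2helper40.RC

open MeasureTheory ProbabilityTheory Finset Filter Topology
open Pool.Agent.H395R2.G3 (rate rr FF FF_cont)

variable {Ω : Type*} [MeasurableSpace Ω]

/-- after `k` steps the orbit of `n` is in its cycle -/
def Ent (y : ℕ → ℤ) (n k : ℕ) : Prop := (S y)^[k] n ∈ Function.periodicPts (S y)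

/-- the support of the configuration -/
def Good (J : ℕ → ℕ) (y : ℕ → ℤ) : Prop := ∀ n, 1 ≤ n → y n ∈ Ico (-(J n : ℤ)) (J n)

theorem S_pos {J : ℕ → ℕ} (hA : Amp J) {y : ℕ → ℤ} (hy : Good J y) {n : ℕ} (hn : 1 ≤ n) :
    1 ≤ S y n := by
  unfold S
  split_ifs with h
  · omega
  · exact od_pos hA hn (by omega) (mem_Ico.1 (hy n hn)).1

theorem iter_pos {J : ℕ → ℕ} (hA : Amp J) {y : ℕ → ℤ} (hy : Good J y) {n : ℕ} (hn : 1 ≤ n) (k : ℕ) :
    1 ≤ (S y)^[k] n := by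
  induction k with
  | zero => exact hn
  | succ k ih =>
    rw [Function.iterate_succ_apply']
    exact S_pos hA hy ih

theorem Ent.mono {y : ℕ → ℤ} {n k k' : ℕ} (h : Ent y n k) (hk : k ≤ k') : Ent y n k' := by
  obtain ⟨m, hm, hp⟩ := h
  refine ⟨m, hm, ?_⟩
  obtain ⟨d, rfl⟩ := Nat.exists_eq_add_of_le hk
  rw [Nat.add_comm, Function.iterate_add_apply]
  exact Function.IsPeriodicPt.apply_iterate hp d

theorem ent_of_repeat {y : ℕ → ℤ} {n i j : ℕ} (hij : i < j) (h : (S y)^[i] n = (S y)^[j] n) :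
    Ent y n i := by
  refine ⟨j - i, by omega, ?_⟩
  unfold Function.IsPeriodicPt Function.IsFixedPt
  rw [← Function.iterate_add_apply, Nat.sub_add_cancel hij.le]
  exact h.symm

theorem ent_shift {y : ℕ → ℤ} {n i k : ℕ} (h : Ent y ((S y)^[i] n) k) : Ent y n (k + i) := by
  unfold Ent at h ⊢
  rwa [Function.iterate_add_apply]

theorem not_esc {N₀ : ℕ} {y : ℕ → ℤ} (k : ℕ) : ∀ (A : Finset ℕ) (n : ℕ), ¬ Esc N₀ y k A n →
    ∃ i < k, (S y)^[i] n < N₀ ∨ (S y)^[i] n ∈ A ∨ ∃ i' < i, (S y)^[i'] n = (S y)^[i] n := by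
  induction k with
  | zero =>
    intro A n h
    exact absurd trivial h
  | succ k ih =>
    intro A n h
    by_cases h1 : n ∈ A
    · exact ⟨0, by omega, Or.inr (Or.inl h1)⟩
    by_cases h2 : N₀ ≤ n
    swap
    · exact ⟨0, by omega, Or.inl (by simpa using h2)⟩
    have h3 : ¬ Esc N₀ y k (insert n A) (S y n) := fun h4 => h ⟨h1, h2, h4⟩
    obtain ⟨i, hi, h5⟩ := ih _ _ h3
    refine ⟨i + 1, by omega, ?_⟩
    rw [← Function.iterate_succ_apply] at h5
    rcases h5 with h5 | h5 | ⟨i', hi', h5⟩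
    · exact Or.inl h5
    · rcases mem_insert.1 h5 with h6 | h6
      · exact Or.inr (Or.inr ⟨0, by omega, h6.symm⟩)
      · exact Or.inr (Or.inl h6)
    · refine Or.inr (Or.inr ⟨i' + 1, by omega, ?_⟩)
      rw [← Function.iterate_succ_apply] at h5
      exact h5

theorem not_esc' {N₀ : ℕ} {y : ℕ → ℤ} {k n : ℕ} (h : ¬ Esc N₀ y k ∅ n) :
    ∃ i < k, (S y)^[i] n < N₀ ∨ Ent y n i := by
  obtain ⟨i, hi, h1 | h1 | ⟨i', hi', h1⟩⟩ := not_esc k ∅ n h
  · exact ⟨i, hi, Or.inl h1⟩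
  · simp at h1
  · exact ⟨i', by omega, Or.inr (ent_of_repeat hi' h1)⟩

/-- all orbits are eventually periodic -/
theorem all_ent {y : ℕ → ℤ} {N₀ n₁ : ℕ}
    (h : ∀ n, n₁ ≤ n → ∃ k, ¬ Esc N₀ y k ∅ n) (n : ℕ) : ∃ k, Ent y n k := by
  by_contra hc
  push Not at hc
  set B := max N₀ n₁ with hB
  have h1 : ∀ s, ∃ s', s ≤ s' ∧ (S y)^[s'] n < B := by
    intro s
    by_cases h2 : n₁ ≤ (S y)^[s] n
    · obtain ⟨k, hk⟩ := h _ h2
      obtain ⟨i, hi, h3 | h3⟩ := not_esc' hk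
      · refine ⟨i + s, by omega, ?_⟩
        rw [Function.iterate_add_apply]
        exact lt_of_lt_of_le h3 (le_max_left _ _)
      · exact absurd (ent_shift h3) (hc _)
    · exact ⟨s, le_rfl, lt_of_lt_of_le (not_le.1 h2) (le_max_right _ _)⟩
  have hinf : {s : ℕ | (S y)^[s] n < B}.Infinite := by
    rw [Set.infinite_iff_exists_gt] 
    intro a
    obtain ⟨s', hs', h2⟩ := h1 (a + 1)
    exact ⟨s', h2, by omega⟩
  have hmaps : Set.MapsTo (fun s => (S y)^[s] n) {s : ℕ | (S y)^[s] n < B} (Set.Iio B) :=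
    fun s hs => hs
  obtain ⟨s, _, s', _, hne, heq⟩ := hinf.exists_ne_map_eq_of_mapsTo hmaps (Set.finite_Iio B)
  rcases lt_or_gt_of_ne hne with h2 | h2
  · exact hc _ (ent_of_repeat h2 heq)
  · exact hc _ (ent_of_repeat h2 heq.symm)

theorem ent_bound {y : ℕ → ℤ} (h : ∀ n, ∃ k, Ent y n k) (N₀ : ℕ) :
    ∃ C : ℕ, ∀ n < N₀, Ent y n C := by
  choose f hf using h
  refine ⟨(range N₀).sup f, fun n hn => (hf n).mono (Finset.le_sup (f := f) (mem_range.2 hn))⟩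

/-- entry times of the starting points which do not escape -/
theorem ent_of_not_esc {y : ℕ → ℤ} {N₀ C : ℕ} (hC : ∀ n < N₀, Ent y n C) {k n : ℕ}
    (h : ¬ Esc N₀ y k ∅ n) : Ent y n (k + C) := by
  obtain ⟨i, hi, h1 | h1⟩ := not_esc' h
  · have := ent_shift (hC _ h1)
    exact this.mono (by omega)
  · exact h1.mono (by omega)

theorem psi_cont {α : ℝ} (hα : 0 < α) : ContinuousAt psi α := by
  have h1 : ContinuousAt rr α := by
    have : rr = fun t => (Real.log 2 - 1 / t) / Real.log 3 := rfl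
    rw [this]
    exact (continuousAt_const.sub (continuousAt_const.div continuousAt_id hα.ne')).div_const _
  have h2 : ContinuousAt (fun t => FF (rr t)) α :=
    ContinuousAt.comp (g := FF) FF_cont.continuousAt h1
  exact continuousAt_id.mul h2

theorem good_ae {J : ℕ → ℕ} {P : Measure Ω} [IsProbabilityMeasure P] {Y : ℕ → Ω → ℤ}
    (hE : Env J P Y) : ∀ᵐ ω ∂P, Good J (fun i => Y i ω) := by
  unfold Good
  rw [ae_all_iff]
  intro n
  by_cases hn : 1 ≤ n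
  · have h := hE.supp n hn
    rw [measureReal_eq_zero_iff] at h
    have h2 : ∀ᵐ ω ∂P, Y n ω ∈ Ico (-(J n : ℤ)) (J n) := by
      rw [ae_iff]
      exact h
    filter_upwards [h2] with ω hω _
    exact hω
  · exact Eventually.of_forall fun ω h => absurd h hn

/-- a rational number slightly below -/
theorem exists_rat_below {α : ℝ} {p : ℝ → Prop} (hp : ∀ᶠ t in 𝓝 α, p t) :
    ∃ q : ℚ, (q : ℝ) < α ∧ p q := by
  obtain ⟨l, hl, h⟩ := (hp.filter_mono (nhdsWithin_le_nhds (s := Set.Iio α))).exists_mem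
  obtain ⟨b, hb, hb'⟩ := (mem_nhdsLT_iff_exists_Ioo_subset (a := α)).1 hl
  obtain ⟨q, hq1, hq2⟩ := exists_rat_btwn (show b < α from hb)
  exact ⟨q, hq2, h q (hb' ⟨hq1, hq2⟩)⟩

/-- `⌈α' log n⌉ + C < α log n` for large `n` -/
theorem ceil_lt {α α' : ℝ} (h0 : 0 ≤ α') (h : α' < α) (C : ℕ) :
    ∀ᶠ n : ℕ in atTop, ((⌈α' * Real.log n⌉₊ + C : ℕ) : ℝ) < α * Real.log n := by
  have h1 : Tendsto (fun n : ℕ => (α - α') * Real.log n) atTop atTop :=
    (Real.tendsto_log_atTop.comp tendsto_natCast_atTop_atTop).const_mul_atTop (by linarith)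
  filter_upwards [h1.eventually_gt_atTop ((C : ℝ) + 1), eventually_ge_atTop 1] with n hn hn1
  have hln : 0 ≤ Real.log n := Real.log_nonneg (by exact_mod_cast hn1)
  have h2 := Nat.ceil_lt_add_one (show 0 ≤ α' * Real.log n by positivity)
  push_cast
  nlinarith

/-- the upper half -/
theorem upper {J : ℕ → ℕ} {P : Measure Ω} [IsProbabilityMeasure P] {Y : ℕ → Ω → ℤ} (hA : Amp J)
    (hE : Env J P Y) {γ : ℝ} (hγ : ((1 / 2) * Real.log (4 / 3))⁻¹ < γ)
    (hneg : ∀ α, γ < α → psi α < 0) :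
    ∀ᵐ ω ∂P, Good J (fun i => Y i ω) ∧ (∀ n, ∃ k, Ent (fun i => Y i ω) n k) ∧
      (∀ α, γ < α → ∀ᶠ n : ℕ in atTop, ∃ k : ℕ, (k : ℝ) ≤ α * Real.log n ∧
        Ent (fun i => Y i ω) n k) ∧
      (∀ α, ((1 / 2) * Real.log (4 / 3))⁻¹ < α → 0 < psi α → ∀ ε : ℝ, 0 < ε → ∃ X₀ : ℝ, ∀ x : ℝ,
        X₀ ≤ x → (({n : ℕ | 1 ≤ n ∧ (n : ℝ) ≤ x ∧ ∀ k : ℕ, Ent (fun i => Y i ω) n k →
          α * Real.log n ≤ k}.ncard : ℕ) : ℝ) ≤ x ^ (psi α + ε)) ∧
      (∃ c : ℝ, 0 ≤ c ∧ ∃ N₀ : ℕ, ∀ᶠ n : ℕ in atTop,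
        ¬ Esc N₀ (fun i => Y i ω) ⌈c * Real.log n⌉₊ ∅ n) := by
  classical
  have hl43 : 0 < Real.log (4 / 3) := Real.log_pos (by norm_num)
  have hμ0 : 0 < ((1 / 2) * Real.log (4 / 3))⁻¹ := by positivity
  have hall : ∀ᵐ ω ∂P, ∀ q : ℚ, ∀ e : ℚ, ((1 / 2) * Real.log (4 / 3))⁻¹ < (q : ℝ) → 0 < (e : ℝ) →
      ∃ N₀ : ℕ, 1 ≤ N₀ ∧ ∃ C : ℝ, ∀ F : Finset ℕ,
      (∀ n ∈ F, 1 ≤ n ∧ Esc N₀ (fun i => Y i ω) ⌈(q : ℝ) * Real.log n⌉₊ ∅ n) →
      ∑ n ∈ F, (n : ℝ) ^ (-(psi q) - e) ≤ C := by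
    rw [ae_all_iff]
    intro q
    rw [ae_all_iff]
    intro e
    by_cases hq : ((1 / 2) * Real.log (4 / 3))⁻¹ < (q : ℝ)
    · by_cases he : 0 < (e : ℝ)
      · obtain ⟨N₀, hN1, h⟩ := esc_count hA hE hq he
        filter_upwards [h] with ω hω _ _
        exact ⟨N₀, hN1, hω⟩
      · exact Eventually.of_forall fun ω _ h => absurd h he
    · exact Eventually.of_forall fun ω h => absurd h hq
  filter_upwards [hall, good_ae hE] with ω hω hgood
  set y : ℕ → ℤ := fun i => Y i ω with hy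
  -- eventually no escape when the exponent is negative
  have hne : ∀ α, γ < α → ∃ q : ℚ, (q : ℝ) < α ∧ 0 ≤ (q : ℝ) ∧ ∃ N₀ : ℕ, 1 ≤ N₀ ∧
      ∀ᶠ n : ℕ in atTop, ¬ Esc N₀ y ⌈(q : ℝ) * Real.log n⌉₊ ∅ n := by
    intro α hα
    have hα0 : 0 < α := hμ0.trans (hγ.trans hα)
    obtain ⟨q, hq1, hq2, hq3⟩ := exists_rat_below (p := fun t => γ < t ∧ psi t < 0)
      (((lt_mem_nhds hα)).and ((psi_cont hα0).eventually (gt_mem_nhds (hneg α hα))))
    obtain ⟨e, he1, he2⟩ := exists_rat_btwn (show (0 : ℝ) < -(psi q) by linarith)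
    have hqμ : ((1 / 2) * Real.log (4 / 3))⁻¹ < (q : ℝ) := hγ.trans hq2
    obtain ⟨N₀, hN1, C, hC⟩ := hω q e hqμ he1
    refine ⟨q, hq1, (hμ0.trans hqμ).le, N₀, hN1, ?_⟩
    by_contra hcon
    rw [Filter.not_eventually] at hcon
    have hinf : {n : ℕ | 1 ≤ n ∧ Esc N₀ y ⌈(q : ℝ) * Real.log n⌉₊ ∅ n}.Infinite := by
      rw [Set.infinite_iff_exists_gt]
      intro a
      obtain ⟨b, hb, hb'⟩ := (Filter.frequently_atTop.1 hcon) (a + 1)
      exact ⟨b, ⟨by omega, not_not.1 hb'⟩, by omega⟩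
    obtain ⟨F, hF, hcard⟩ := hinf.exists_subset_card_eq (⌈C⌉₊ + 1)
    have h1 := hC F (fun n hn => hF hn)
    have h2 : (F.card : ℝ) ≤ ∑ n ∈ F, (n : ℝ) ^ (-(psi q) - e) := by
      rw [Finset.card_eq_sum_ones]
      push_cast
      apply Finset.sum_le_sum
      intro n hn
      exact Real.one_le_rpow (by exact_mod_cast (hF hn).1) (by linarith)
    rw [hcard] at h2
    push_cast at h2
    have h3 := Nat.le_ceil C
    linarith
  have hent : ∀ n, ∃ k, Ent y n k := by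
    obtain ⟨q, _, _, N₀, _, hev⟩ := hne (γ + 1) (by linarith)
    obtain ⟨n₁, hn₁⟩ := eventually_atTop.1 hev
    exact all_ent (fun n hn => ⟨_, hn₁ n hn⟩)
  refine ⟨hgood, hent, ?_, ?_, ?_⟩
  · intro α hα
    obtain ⟨q, hq1, hq0, N₀, _, hev⟩ := hne α hα
    obtain ⟨C, hC⟩ := ent_bound hent N₀
    filter_upwards [hev, ceil_lt hq0 hq1 C] with n hn hn2
    exact ⟨_, hn2.le, ent_of_not_esc hC hn⟩
  · intro α hα hpos ε hε
    have hα0 : 0 < α := hμ0.trans hα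
    obtain ⟨q, hq1, ⟨hq2, hq3⟩, hq4⟩ := exists_rat_below
      (p := fun t => (((1 / 2) * Real.log (4 / 3))⁻¹ < t ∧ 0 < psi t) ∧ psi t < psi α + ε / 4)
      (((lt_mem_nhds hα).and ((psi_cont hα0).eventually (lt_mem_nhds hpos))).and
        ((psi_cont hα0).eventually (gt_mem_nhds (by linarith))))
    obtain ⟨e, he1, he2⟩ := exists_rat_btwn (show (0 : ℝ) < ε / 4 by linarith)
    obtain ⟨N₀, hN1, C, hC⟩ := hω q e hq2 he1
    obtain ⟨C', hC'⟩ := ent_bound hent N₀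
    obtain ⟨n₁, hn₁⟩ := eventually_atTop.1 (ceil_lt (hμ0.trans hq2).le hq1 C')
    set κ : ℝ := psi q + e with hκ
    have hκ0 : 0 < κ := by linarith
    have hκε : κ < psi α + ε := by linarith
    have hC0 : 0 ≤ C := by
      have := hC ∅ (by simp)
      simpa using this
    have htend : Tendsto (fun x : ℝ => ((n₁ : ℝ) + C) * x ^ (-(psi α + ε - κ))) atTop (𝓝 0) := by
      have := (tendsto_rpow_neg_atTop (show 0 < psi α + ε - κ by linarith)).const_mul ((n₁ : ℝ) + C)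
      simpa using this
    obtain ⟨X, hX⟩ := eventually_atTop.1 (htend.eventually (gt_mem_nhds one_pos))
    refine ⟨max X 1, fun x hx => ?_⟩
    have hx1 : 1 ≤ x := le_trans (le_max_right _ _) hx
    have hx0 : 0 < x := by linarith
    have hxX := hX x (le_trans (le_max_left _ _) hx)
    set F : Finset ℕ := (Finset.range (⌊x⌋₊ + 1)).filter fun n => n₁ ≤ n ∧ 1 ≤ n ∧
      Esc N₀ y ⌈(q : ℝ) * Real.log n⌉₊ ∅ n with hF
    have hsub : {n : ℕ | 1 ≤ n ∧ (n : ℝ) ≤ x ∧ ∀ k : ℕ, Ent y n k → α * Real.log n ≤ k} ⊆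
        ((Finset.range n₁ ∪ F : Finset ℕ) : Set ℕ) := by
      rintro n ⟨h1, h2, h3⟩
      rw [Finset.mem_coe, Finset.mem_union, Finset.mem_range]
      by_cases h4 : n < n₁
      · exact Or.inl h4
      · right
        rw [hF, Finset.mem_filter, Finset.mem_range]
        refine ⟨Nat.lt_succ_of_le (Nat.le_floor h2), not_lt.1 h4, h1, ?_⟩
        by_contra hesc
        have h5 := h3 _ (ent_of_not_esc hC' hesc)
        have h6 := hn₁ n (not_lt.1 h4)
        linarith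
    have hcard : ({n : ℕ | 1 ≤ n ∧ (n : ℝ) ≤ x ∧ ∀ k : ℕ, Ent y n k →
        α * Real.log n ≤ k}.ncard : ℝ) ≤ n₁ + F.card := by
      have h1 := Set.ncard_le_ncard hsub (Finset.finite_toSet _)
      rw [Set.ncard_coe_finset] at h1
      have h2 := (Finset.card_union_le (Finset.range n₁) F)
      rw [Finset.card_range] at h2
      exact_mod_cast h1.trans h2
    have hFc : (F.card : ℝ) * x ^ (-κ) ≤ C := by
      have h1 := hC F (fun n hn => by
        rw [hF, Finset.mem_filter] at hn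
        exact hn.2.2)
      refine le_trans ?_ h1
      rw [Finset.card_eq_sum_ones]
      push_cast
      rw [Finset.sum_mul]
      apply Finset.sum_le_sum
      intro n hn
      rw [hF, Finset.mem_filter, Finset.mem_range] at hn
      have hn0 : (0 : ℝ) < n := by exact_mod_cast hn.2.2.1
      have hnx : (n : ℝ) ≤ x := (Nat.le_floor_iff hx0.le).1 (Nat.lt_succ_iff.1 hn.1)
      rw [one_mul, show -(psi q) - (e : ℝ) = -κ by rw [hκ]; ring]
      exact Real.rpow_le_rpow_of_nonpos hn0 hnx (by linarith)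
    have hFc' : (F.card : ℝ) ≤ C * x ^ κ := by
      rw [Real.rpow_neg hx0.le, ← div_eq_mul_inv, div_le_iff₀ (by positivity)] at hFc
      exact hFc
    have hxκ : 1 ≤ x ^ κ := Real.one_le_rpow hx1 hκ0.le
    calc ({n : ℕ | 1 ≤ n ∧ (n : ℝ) ≤ x ∧ ∀ k : ℕ, Ent y n k → α * Real.log n ≤ k}.ncard : ℝ)
        ≤ n₁ + F.card := hcard
      _ ≤ n₁ * x ^ κ + C * x ^ κ := add_le_add (le_mul_of_one_le_right (by positivity) hxκ) hFc'
      _ = (((n₁ : ℝ) + C) * x ^ (-(psi α + ε - κ))) * x ^ (psi α + ε) := by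
          rw [mul_assoc, ← Real.rpow_add hx0]
          ring_nf
      _ ≤ 1 * x ^ (psi α + ε) := mul_le_mul_of_nonneg_right hxX.le (by positivity)
      _ = x ^ (psi α + ε) := one_mul _
  · obtain ⟨q, _, hq0, N₀, _, hev⟩ := hne (γ + 1) (by linarith)
    exact ⟨q, hq0, N₀, hev⟩

end Pool.Agent.W2helper40.RC
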