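import Pool.Agent.W2helper40.RC.Arr3
import Pool.Agent.W2helper40.RC.Upc
import Pool.Agent.H517R2.RS.MODE
import Pool.Agent.H517R2.RS.BINE

set_option autoImplicit false

/-! Consequences of the towers. -/

namespace Pool.Agent.W2helper40.RC

open MeasureTheory ProbabilityTheory Finset Filter Topology
open Pool.Agent.H395R2.G3 (rate rr FF FF_cont rr_spec rr_pos rr_lt_one)

variable {Ω : Type*} [MeasurableSpace Ω]

theorem orbit_bound (f : ℕ → ℕ) (X : Finset ℕ) :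
    ∃ B : ℕ, ∀ s ∈ X, s ∈ Function.periodicPts f → ∀ k, f^[k] s ≤ B := by
  have h : ∀ s : ℕ, ∃ B : ℕ, s ∈ Function.periodicPts f → ∀ k, f^[k] s ≤ B := by
    intro s
    by_cases hs : s ∈ Function.periodicPts f
    · obtain ⟨p, hp, hper⟩ := hs
      refine ⟨(range p).sup (fun k => f^[k] s), fun _ k => ?_⟩
      rw [← hper.iterate_mod_apply k]
      exact Finset.le_sup (f := fun k => f^[k] s) (mem_range.2 (Nat.mod_lt _ hp))
    · exact ⟨0, fun h => absurd h hs⟩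
  choose B hB using h
  exact ⟨X.sup B, fun s hs hper k => (hB s hper k).trans (Finset.le_sup hs)⟩

theorem periodic_back {f : ℕ → ℕ} {m : ℕ} (hm : m ∈ Function.periodicPts f) (i : ℕ) :
    f^[i] m ∈ Function.periodicPts f ∧ ∃ j, f^[j] (f^[i] m) = m := by
  obtain ⟨p, hp, hper⟩ := hm
  refine ⟨⟨p, hp, hper.apply_iterate i⟩, p * i - i, ?_⟩
  rw [← Function.iterate_add_apply, Nat.sub_add_cancel (Nat.le_mul_of_pos_left i hp)]
  exact (hper.mul_const i)

theorem tower_count {y : ℕ → ℤ} {R b : ℕ} {g : ℝ} (hg : 1 < g)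
    (hΛ : 0 < (R : ℝ) * Real.log 2 - b * Real.log 3) (hT : Tower y R b g) {α ε : ℝ} (hα0 : 0 ≤ α)
    (hα : α * ((R : ℝ) * Real.log 2 - b * Real.log 3) < R) (hε : 0 < ε) :
    ∃ X₀ : ℝ, ∀ x : ℝ, X₀ ≤ x →
      x ^ (Real.log g / ((R : ℝ) * Real.log 2 - b * Real.log 3) - ε) ≤
        (({n : ℕ | 1 ≤ n ∧ (n : ℝ) ≤ x ∧ ∀ k : ℕ, Ent y n k → α * Real.log n ≤ k}.ncard : ℕ) : ℝ) := by
  set Λ : ℝ := (R : ℝ) * Real.log 2 - b * Real.log 3 with hΛd
  obtain ⟨a, κ, X, hX1, hX2, hX3⟩ := hT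
  obtain ⟨B, hB⟩ := orbit_bound (S y) (X 0)
  obtain ⟨i₀, hi₀⟩ := exists_nat_gt ((Real.log (B + 1) + κ - a) / Λ)
  rw [div_lt_iff₀ hΛ] at hi₀
  have hent : ∀ d, ∀ n ∈ X (i₀ + d), ∀ k, Ent y n k → d * R < k := by
    intro d n hn k hk
    by_contra hc
    push Not at hc
    have h1 := hk.mono hc
    have h2 := hX3 i₀ d n hn
    set m := (S y)^[d * R] n with hm
    have h3 : m ∈ Function.periodicPts (S y) := h1
    obtain ⟨h4, j, h5⟩ := periodic_back h3 (i₀ * R)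
    have h6 : (S y)^[i₀ * R] m ∈ X 0 := hX3 0 i₀ m (by rwa [Nat.zero_add])
    have h7 := hB _ h6 h4 j
    rw [h5] at h7
    obtain ⟨h8, h9⟩ := hX2 i₀ m h2
    have h10 : Real.log m ≤ Real.log (B + 1) := by
      apply Real.log_le_log (by exact_mod_cast h8)
      have : (m : ℝ) ≤ B := by exact_mod_cast h7
      linarith
    have h11 := (abs_le.1 h9).1
    linarith
  -- for large `l` all elements of `X l` are slow
  have hslow : ∀ᶠ l : ℕ in atTop, ∀ n ∈ X l, 1 ≤ n ∧ Real.log n ≤ a + l * Λ + κ ∧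
      ∀ k, Ent y n k → α * Real.log n ≤ k := by
    have ht : Tendsto (fun l : ℕ => (R - α * Λ) * (l : ℝ)) atTop atTop :=
      tendsto_natCast_atTop_atTop.const_mul_atTop (by linarith)
    filter_upwards [ht.eventually_ge_atTop (α * (a + κ) + i₀ * R), eventually_ge_atTop i₀]
      with l hl hli n hn
    obtain ⟨h1, h2⟩ := hX2 l n hn
    have h3 := (abs_le.1 h2).2
    refine ⟨h1, by linarith, fun k hk => ?_⟩
    obtain ⟨d, rfl⟩ := Nat.exists_eq_add_of_le hli
    have h4 := hent d n hn k hk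
    have h5 : (d : ℝ) * R ≤ k := by exact_mod_cast h4.le
    have h6 : α * Real.log n ≤ α * (a + ((i₀ + d : ℕ) : ℝ) * Λ + κ) :=
      mul_le_mul_of_nonneg_left (by linarith) hα0
    push_cast at hl h6
    nlinarith
  obtain ⟨l₀, hl₀⟩ := eventually_atTop.1 hslow
  have hlg : 0 < Real.log g := Real.log_pos hg
  -- choice of `x`
  have ht1 : Tendsto (fun x : ℝ => ε * Real.log x) atTop atTop :=
    Real.tendsto_log_atTop.const_mul_atTop hε
  have ht2 := Real.tendsto_log_atTop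
  obtain ⟨X₁, hX₁⟩ := eventually_atTop.1 (((ht1.eventually_ge_atTop
    (((a + κ) / Λ + 1) * Real.log g)).and (ht2.eventually_ge_atTop (a + κ + (l₀ + 1) * Λ))).and
    (eventually_ge_atTop 1))
  refine ⟨X₁, fun x hx => ?_⟩
  obtain ⟨⟨h1, h2⟩, h3⟩ := hX₁ x hx
  have hx0 : 0 < x := by linarith
  set l : ℕ := ⌊(Real.log x - a - κ) / Λ⌋₊ with hl
  have h4 : (l : ℝ) ≤ (Real.log x - a - κ) / Λ := by
    apply Nat.floor_le
    apply div_nonneg _ hΛ.le
    have : 0 ≤ ((l₀ : ℝ) + 1) * Λ := by positivity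
    linarith
  have h5 : (Real.log x - a - κ) / Λ < l + 1 := Nat.lt_floor_add_one _
  have h6 : l₀ ≤ l := by
    apply Nat.le_floor
    rw [le_div_iff₀ hΛ]
    nlinarith
  have hsub : (X l : Set ℕ) ⊆ {n : ℕ | 1 ≤ n ∧ (n : ℝ) ≤ x ∧ ∀ k : ℕ, Ent y n k →
      α * Real.log n ≤ k} := by
    intro n hn
    obtain ⟨h7, h8, h9⟩ := hl₀ l h6 n hn
    refine ⟨h7, ?_, h9⟩
    have hn0 : (0 : ℝ) < n := by exact_mod_cast h7
    rw [← Real.log_le_log_iff hn0 hx0]
    rw [le_div_iff₀ hΛ] at h4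
    linarith
  have hfin : {n : ℕ | 1 ≤ n ∧ (n : ℝ) ≤ x ∧ ∀ k : ℕ, Ent y n k →
      α * Real.log n ≤ k}.Finite := by
    apply (Set.finite_Iic ⌊x⌋₊).subset
    rintro n ⟨_, h7, _⟩
    exact Nat.le_floor h7
  have hcard := Set.ncard_le_ncard hsub hfin
  rw [Set.ncard_coe_finset] at hcard
  have hcard' : ((X l).card : ℝ) ≤ (({n : ℕ | 1 ≤ n ∧ (n : ℝ) ≤ x ∧ ∀ k : ℕ, Ent y n k →
      α * Real.log n ≤ k}.ncard : ℕ) : ℝ) := by exact_mod_cast hcard
  refine le_trans ?_ ((hX1 l).trans hcard')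
  rw [Real.rpow_def_of_pos hx0, ← Real.exp_log (show 0 < g ^ l by positivity), Real.log_pow]
  apply Real.exp_le_exp.2
  have h10 : Real.log x * (Real.log g / Λ - ε) =
      (Real.log x / Λ) * Real.log g - ε * Real.log x := by ring
  have h11 : (Real.log x - a - κ) / Λ = Real.log x / Λ - (a + κ) / Λ := by ring
  rw [h11] at h5
  have h12 := mul_le_mul_of_nonneg_right h5.le hlg.le
  rw [h10]
  linarith

theorem choose_entropy {R b : ℕ} (hb : 1 ≤ b) (hbR : b ≤ R) :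
    (R : ℝ) * Real.binEntropy ((b : ℝ) / R) - Real.log (R + 1) ≤ Real.log (R.choose b) := by
  have h := Pool.Agent.H517R2.RS.t_BINE Pool.Agent.H517R2.RS.t_MODE R b hb hbR
  linarith

/-- the choice of the rates -/
theorem exists_rates {α : ℝ} (hα : 1 / Real.log 2 < α) (hpos : 0 < psi α) {ε : ℝ} (hε : 0 < ε) :
    ∃ R b k : ℕ, 0 < R ∧ 0 < Real.log 2 - (b : ℝ) / R * Real.log 3 ∧
      α * ((R : ℝ) * Real.log 2 - b * Real.log 3) < R ∧
      1 < ((R.choose b : ℕ) : ℝ) * (1 / 3 - 2 * (1 / ((k : ℝ) + 7))) ^ b ∧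
      psi α - ε < Real.log (((R.choose b : ℕ) : ℝ) * (1 / 3 - 2 * (1 / ((k : ℝ) + 7))) ^ b) /
        ((R : ℝ) * Real.log 2 - b * Real.log 3) := by
  have hl2 : 0 < Real.log 2 := Real.log_pos (by norm_num)
  have hl3 : 0 < Real.log 3 := Real.log_pos (by norm_num)
  have hα0 : 0 < α := lt_trans (by positivity) hα
  set r := rr α with hr
  have hr0 : 0 < r := rr_pos hα
  have hr1 : r < 1 := rr_lt_one hα0
  have hra : 1 / α = Real.log 2 - r * Real.log 3 := rr_spec α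
  have hra0 : 0 < Real.log 2 - r * Real.log 3 := by
    rw [← hra]
    positivity
  have hFF : 0 < FF r := by
    unfold psi at hpos
    exact (mul_pos_iff_of_pos_left hα0).1 hpos
  have hpsi : psi α = FF r / (Real.log 2 - r * Real.log 3) := by
    rw [← hra]
    unfold psi
    rw [← hr]
    field_simp
  have c1 : ContinuousAt (fun s : ℝ => Real.log 2 - s * Real.log 3) r := by fun_prop
  have c2 : ContinuousAt (fun s : ℝ => FF s / (Real.log 2 - s * Real.log 3)) r :=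
    FF_cont.continuousAt.div c1 hra0.ne'
  have ev : ∀ᶠ s in 𝓝 r, ((0 < Real.log 2 - s * Real.log 3 ∧ 0 < FF s) ∧
      psi α - ε / 2 < FF s / (Real.log 2 - s * Real.log 3)) ∧ s < 1 := by
    refine (((c1.eventually (lt_mem_nhds hra0)).and
      (FF_cont.continuousAt.eventually (lt_mem_nhds hFF))).and
      (c2.eventually (lt_mem_nhds ?_))).and (gt_mem_nhds hr1)
    show psi α - ε / 2 < FF r / (Real.log 2 - r * Real.log 3)
    rw [← hpsi]
    linarith
  obtain ⟨l, hl, hl'⟩ := (ev.filter_mono (nhdsWithin_le_nhds (s := Set.Ioi r))).exists_mem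
  obtain ⟨u, hu, hu'⟩ := (mem_nhdsGT_iff_exists_Ioo_subset (a := r)).1 hl
  obtain ⟨s, hs1, hs2⟩ := exists_rat_btwn (show r < u from hu)
  obtain ⟨⟨⟨hs3, hs4⟩, hs5⟩, hs6⟩ := hl' s (hu' ⟨hs1, hs2⟩)
  have hs0 : (0 : ℝ) < s := hr0.trans hs1
  have hsq0 : (0 : ℚ) < s := by exact_mod_cast hs0
  -- the fraction
  obtain ⟨b₀, hb₀⟩ : ∃ b₀ : ℕ, (b₀ : ℤ) = s.num := ⟨s.num.toNat, Int.toNat_of_nonneg
    (Rat.num_nonneg.2 hsq0.le)⟩
  set R₀ : ℕ := s.den with hR₀
  have hR₀0 : 0 < R₀ := s.den_pos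
  have hR₀r : (0 : ℝ) < R₀ := by exact_mod_cast hR₀0
  have hsb : (s : ℝ) = (b₀ : ℝ) / R₀ := by
    have h1 : (s : ℝ) = (s.num : ℝ) / (s.den : ℝ) := by exact_mod_cast (Rat.num_div_den s).symm
    rw [h1, ← hb₀]
    push_cast
    rfl
  have hb₀0 : 0 < b₀ := by
    by_contra hc
    have : b₀ = 0 := by omega
    rw [this] at hsb
    simp at hsb
    rw [hsb] at hs0
    simp at hs0
  have hb₀R : b₀ ≤ R₀ := by
    rw [hsb, div_lt_one hR₀r] at hs6
    exact_mod_cast hs6.le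
  set D : ℝ := Real.log 2 - s * Real.log 3 with hD
  -- the margins
  obtain ⟨η, hη0, hη1, hη2⟩ : ∃ η : ℝ, 0 < η ∧ 2 * η < FF s ∧ psi α - ε < (FF s - 2 * η) / D := by
    have c3 : ContinuousAt (fun η : ℝ => (FF s - 2 * η) / D) 0 := by
      apply ContinuousAt.div_const
      fun_prop
    have c4 : ContinuousAt (fun η : ℝ => FF s - 2 * η) 0 := by fun_prop
    have e1 : ∀ᶠ η in 𝓝 (0 : ℝ), psi α - ε < (FF s - 2 * η) / D ∧ 0 < FF s - 2 * η :=
      (c3.eventually (lt_mem_nhds (by simp only [mul_zero, sub_zero]; linarith))).and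
        (c4.eventually (lt_mem_nhds (by simpa using hs4)))
    obtain ⟨η, h1, h2⟩ := ((e1.filter_mono (nhdsWithin_le_nhds (s := Set.Ioi 0))).and
      (self_mem_nhdsWithin)).exists
    exact ⟨η, h2, by linarith [h1.2], h1.1⟩
  -- `θ`
  have hθlim : Tendsto (fun k : ℕ => Real.log (1 / 3 - 2 * (1 / ((k : ℝ) + 7)))) atTop
      (𝓝 (Real.log (1 / 3))) := by
    have h1 : Tendsto (fun k : ℕ => (k : ℝ) + 7) atTop atTop :=
      tendsto_atTop_add_const_right _ _ tendsto_natCast_atTop_atTop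
    have h2 : Tendsto (fun k : ℕ => 1 / 3 - 2 * (1 / ((k : ℝ) + 7))) atTop (𝓝 (1 / 3)) := by
      have h3 : Tendsto (fun k : ℕ => 1 / ((k : ℝ) + 7)) atTop (𝓝 0) :=
        tendsto_const_nhds.div_atTop h1
      have h4 := (tendsto_const_nhds (x := (1 / 3 : ℝ))).sub (h3.const_mul 2)
      simpa using h4
    exact h2.log (by norm_num)
  have hl13 : Real.log (1 / 3) = -Real.log 3 := by
    rw [one_div, Real.log_inv]
  obtain ⟨k, hk⟩ := (hθlim.eventually (lt_mem_nhds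
    (show -Real.log 3 - η < Real.log (1 / 3) by rw [hl13]; linarith))).exists
  set θ : ℝ := 1 / 3 - 2 * (1 / ((k : ℝ) + 7)) with hθ
  have hθ0 : 0 < θ := by
    have h1 : 1 / ((k : ℝ) + 7) ≤ 1 / 7 := one_div_le_one_div_of_le (by norm_num) (by
      have : (0 : ℝ) ≤ k := by positivity
      linarith)
    rw [hθ]
    linarith
  -- `N`
  obtain ⟨N, hN1, hN⟩ : ∃ N : ℕ, 1 ≤ N ∧ Real.log ((R₀ * N : ℕ) + 1) < η * (R₀ * N : ℕ) := by
    have h1 : Tendsto (fun x : ℝ => Real.log x / x) atTop (𝓝 0) := by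
      have := Real.tendsto_pow_log_div_mul_add_atTop 1 0 1 one_ne_zero
      simpa using this
    have h2 : Tendsto (fun N : ℕ => ((R₀ * N : ℕ) : ℝ) + 1) atTop atTop := by
      apply tendsto_atTop_add_const_right
      apply tendsto_natCast_atTop_atTop.comp
      exact tendsto_id.const_mul_atTop' hR₀0
    have h3 := (h1.comp h2).eventually (gt_mem_nhds (show (0 : ℝ) < η / 2 by positivity))
    obtain ⟨N, hN, hN1⟩ := (h3.and (eventually_ge_atTop 1)).exists
    refine ⟨N, hN1, ?_⟩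
    simp only [Function.comp] at hN
    have h4 : (1 : ℝ) ≤ (R₀ * N : ℕ) := by exact_mod_cast Nat.mul_pos hR₀0 hN1
    rw [div_lt_iff₀ (by linarith)] at hN
    nlinarith
  set R : ℕ := R₀ * N with hR
  set b : ℕ := b₀ * N with hb
  have hRpos : 0 < R := Nat.mul_pos hR₀0 hN1
  have hbpos : 0 < b := Nat.mul_pos hb₀0 hN1
  have hbR : b ≤ R := Nat.mul_le_mul_right _ hb₀R
  have hRr : (0 : ℝ) < R := by exact_mod_cast hRpos
  have hNr : (0 : ℝ) < N := by exact_mod_cast hN1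
  have hbRs : (b : ℝ) / R = s := by
    rw [hsb, hR, hb]
    push_cast
    field_simp
  have hbs : (b : ℝ) = s * R := by
    rw [← hbRs]
    field_simp
  have hΛ : (R : ℝ) * Real.log 2 - b * Real.log 3 = R * D := by
    rw [hD, hbs]
    ring
  have hlogC := choose_entropy (show 1 ≤ b from hbpos) hbR
  rw [hbRs] at hlogC
  have hCpos : (0 : ℝ) < ((R.choose b : ℕ) : ℝ) := by exact_mod_cast Nat.choose_pos hbR
  have hlogg : Real.log (((R.choose b : ℕ) : ℝ) * θ ^ b) = Real.log (R.choose b) +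
      b * Real.log θ := by
    rw [Real.log_mul hCpos.ne' (by positivity), Real.log_pow]
  have hlow : R * (FF s - 2 * η) ≤ Real.log (((R.choose b : ℕ) : ℝ) * θ ^ b) := by
    rw [hlogg]
    have h1 : (b : ℝ) * (-Real.log 3 - η) ≤ b * Real.log θ :=
      mul_le_mul_of_nonneg_left hk.le (by positivity)
    have h2 : Real.log ((R : ℝ) + 1) ≤ η * R := by
      have := hN.le
      exact_mod_cast this
    have h3 : (b : ℝ) * η ≤ R * η := mul_le_mul_of_nonneg_right (by exact_mod_cast hbR) hη0.le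
    unfold FF
    have h4 : (R : ℝ) * (Real.binEntropy s - s * Real.log 3 - 2 * η) =
        R * Real.binEntropy s - b * Real.log 3 - 2 * (R * η) := by
      rw [hbs]
      ring
    rw [h4]
    linarith
  refine ⟨R, b, k, hRpos, ?_, ?_, ?_, ?_⟩
  · rw [hbRs]
    exact hs3
  · rw [hΛ]
    have h1 : α * D < 1 := by
      have h2 : D < 1 / α := by
        rw [hra, hD]
        have := mul_lt_mul_of_pos_right hs1 hl3
        linarith
      rw [lt_div_iff₀ hα0] at h2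
      linarith
    calc α * (R * D) = R * (α * D) := by ring
      _ < R * 1 := mul_lt_mul_of_pos_left h1 hRr
      _ = R := mul_one _
  · have h1 : 0 < R * (FF s - 2 * η) := mul_pos hRr (by linarith)
    have h2 : 0 < Real.log (((R.choose b : ℕ) : ℝ) * θ ^ b) := lt_of_lt_of_le h1 hlow
    have h3 : 0 ≤ ((R.choose b : ℕ) : ℝ) * θ ^ b := mul_nonneg hCpos.le (pow_nonneg hθ0.le _)
    by_contra hc
    have h4 := Real.log_nonpos h3 (not_lt.1 hc)
    exact absurd h2 (not_lt.2 h4)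
  · rw [hΛ, lt_div_iff₀ (by positivity)]
    rw [lt_div_iff₀ hs3] at hη2
    calc (psi α - ε) * (R * D) = R * ((psi α - ε) * D) := by ring
      _ < R * (FF s - 2 * η) := mul_lt_mul_of_pos_left hη2 hRr
      _ ≤ _ := hlow

/-- the lower half -/
theorem lower {J : ℕ → ℕ} {P : Measure Ω} [IsProbabilityMeasure P] {Y : ℕ → Ω → ℤ}
    (hA : Amp J) (hE : Env J P Y) :
    ∀ᵐ ω ∂P, ∀ α : ℝ, 1 / Real.log 2 < α → 0 < psi α → ∀ ε : ℝ, 0 < ε → ∃ X₀ : ℝ, ∀ x : ℝ,
      X₀ ≤ x → x ^ (psi α - ε) ≤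
        (({n : ℕ | 1 ≤ n ∧ (n : ℝ) ≤ x ∧ ∀ k : ℕ, Ent (fun i => Y i ω) n k →
          α * Real.log n ≤ k}.ncard : ℕ) : ℝ) := by
  have hall : ∀ᵐ ω ∂P, ∀ R b k : ℕ, 0 < R → 0 < Real.log 2 - (b : ℝ) / R * Real.log 3 →
      1 < ((R.choose b : ℕ) : ℝ) * (1 / 3 - 2 * (1 / ((k : ℝ) + 7))) ^ b →
      Tower (fun i => Y i ω) R b (((R.choose b : ℕ) : ℝ) *
        (1 / 3 - 2 * (1 / ((k : ℝ) + 7))) ^ b) := by
    rw [ae_all_iff]
    intro R
    rw [ae_all_iff]
    intro b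
    rw [ae_all_iff]
    intro k
    by_cases h1 : 0 < R
    · by_cases h2 : 0 < Real.log 2 - (b : ℝ) / R * Real.log 3
      · by_cases h3 : 1 < ((R.choose b : ℕ) : ℝ) * (1 / 3 - 2 * (1 / ((k : ℝ) + 7))) ^ b
        · have hk : (0 : ℝ) ≤ k := by positivity
          have h4 : (0 : ℝ) < 1 / ((k : ℝ) + 7) := by positivity
          have h5 : 1 / ((k : ℝ) + 7) < 1 / 6 :=
            one_div_lt_one_div_of_lt (by norm_num) (by linarith)
          filter_upwards [tower_ae hA hE h1 h2 h4 h5 h3] with ω hω _ _ _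
          exact hω
        · exact Eventually.of_forall fun ω _ _ h => absurd h h3
      · exact Eventually.of_forall fun ω _ h => absurd h h2
    · exact Eventually.of_forall fun ω h => absurd h h1
  filter_upwards [hall] with ω hω α hα hpos ε hε
  have hα0 : 0 < α := lt_trans (by have := Real.log_pos (show (1 : ℝ) < 2 by norm_num); positivity) hα
  obtain ⟨R, b, k, h1, h2, h3, h4, h5⟩ := exists_rates hα hpos (ε := ε / 2) (by positivity)
  have hRr : (0 : ℝ) < R := by exact_mod_cast h1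
  have hΛ : 0 < (R : ℝ) * Real.log 2 - b * Real.log 3 := by
    have : (R : ℝ) * Real.log 2 - b * Real.log 3 =
        R * (Real.log 2 - (b : ℝ) / R * Real.log 3) := by
      field_simp
    rw [this]
    positivity
  obtain ⟨X₀, hX₀⟩ := tower_count h4 hΛ (hω R b k h1 h2 h4) hα0.le h3
    (show 0 < ε / 2 by positivity)
  refine ⟨max X₀ 1, fun x hx => ?_⟩
  have hx1 : 1 ≤ x := le_trans (le_max_right _ _) hx
  refine le_trans ?_ (hX₀ x (le_trans (le_max_left _ _) hx))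
  exact Real.rpow_le_rpow_of_exponent_le hx1 (by linarith)

end Pool.Agent.W2helper40.RC
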