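import Pool.Agent.W2helper40.RC.Esc

set_option autoImplicit false

/-! The Lyapunov function `n ^ t * ρ ^ v₂(n)`. -/

namespace Pool.Agent.W2helper40.RC

open MeasureTheory ProbabilityTheory Finset Filter Topology

/-- `∑_{1 ≤ m ≤ X} ρ ^ v₂(m)` -/
noncomputable def GG (ρ : ℝ) (X : ℕ) : ℝ := ∑ m ∈ range X, ρ ^ padicValNat 2 (m + 1)

theorem v2_odd {m : ℕ} (h : m % 2 = 1) : padicValNat 2 m = 0 :=
  padicValNat.eq_zero_of_not_dvd (by omega)

theorem v2_double {m : ℕ} (h : 1 ≤ m) : padicValNat 2 (2 * m) = padicValNat 2 m + 1 := by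
  rw [padicValNat.mul (by norm_num) (by omega), padicValNat.self (by norm_num)]
  ring

theorem GG_even (ρ : ℝ) (X : ℕ) : GG ρ (2 * X) = X + ρ * GG ρ X := by
  induction X with
  | zero => simp [GG]
  | succ X ih =>
    have e1 : GG ρ (2 * (X + 1)) = GG ρ (2 * X) + ρ ^ padicValNat 2 (2 * X + 1) +
        ρ ^ padicValNat 2 (2 * X + 1 + 1) := by
      unfold GG
      rw [show 2 * (X + 1) = 2 * X + 1 + 1 by ring, sum_range_succ, sum_range_succ]
    have e2 : GG ρ (X + 1) = GG ρ X + ρ ^ padicValNat 2 (X + 1) := by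
      unfold GG
      rw [sum_range_succ]
    rw [e1, e2, ih, v2_odd (by omega), show 2 * X + 1 + 1 = 2 * (X + 1) by ring,
      v2_double (by omega)]
    push_cast
    ring

theorem GG_odd (ρ : ℝ) (X : ℕ) : GG ρ (2 * X + 1) = X + 1 + ρ * GG ρ X := by
  have e1 : GG ρ (2 * X + 1) = GG ρ (2 * X) + ρ ^ padicValNat 2 (2 * X + 1) := by
    unfold GG
    rw [sum_range_succ]
  rw [e1, GG_even, v2_odd (by omega)]
  ring

theorem GG_sub {ρ : ℝ} (h0 : 0 ≤ ρ) (h1 : ρ ≤ 1) (b : ℕ) :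
    ∀ a : ℕ, a ≤ b → GG ρ b - GG ρ a ≤ ((b : ℝ) - a + 1) / (2 - ρ) := by
  have h2 : 0 < 2 - ρ := by linarith
  induction b using Nat.strong_induction_on with
  | _ b ih =>
    intro a hab
    rcases hab.eq_or_lt with rfl | hlt
    · rw [sub_self, sub_self, zero_add]
      positivity
    · obtain ⟨b', hb'⟩ : ∃ b', b' = b / 2 := ⟨_, rfl⟩
      obtain ⟨a', ha'⟩ : ∃ a', a' = a / 2 := ⟨_, rfl⟩
      have hI := ih b' (by omega) a' (by omega)
      have hbc : (b = 2 * b' ∨ b = 2 * b' + 1) := by omega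
      have hac : (a = 2 * a' ∨ a = 2 * a' + 1) := by omega
      rw [le_div_iff₀ h2] at hI ⊢
      have hle : (a : ℝ) + 1 ≤ b := by exact_mod_cast hlt
      rcases hbc with hb | hb <;> rcases hac with ha | ha
      · rw [hb, ha, GG_even, GG_even]
        rw [hb, ha] at hle
        push_cast at hle ⊢
        nlinarith [mul_le_mul_of_nonneg_left hI h0]
      · rw [hb, ha, GG_even, GG_odd]
        rw [hb, ha] at hle
        push_cast at hle ⊢
        nlinarith [mul_le_mul_of_nonneg_left hI h0]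
      · rw [hb, ha, GG_odd, GG_even]
        rw [hb, ha] at hle
        push_cast at hle ⊢
        nlinarith [mul_le_mul_of_nonneg_left hI h0]
      · rw [hb, ha, GG_odd, GG_odd]
        rw [hb, ha] at hle
        push_cast at hle ⊢
        nlinarith [mul_le_mul_of_nonneg_left hI h0]

theorem sum_v2 {ρ : ℝ} (h0 : 0 ≤ ρ) (h1 : ρ ≤ 1) {a b : ℕ} (ha : 1 ≤ a) (hab : a ≤ b) :
    ∑ m ∈ Ico a b, ρ ^ padicValNat 2 m ≤ ((b : ℝ) - a + 1) / (2 - ρ) := by
  obtain ⟨a, rfl⟩ : ∃ a', a = a' + 1 := ⟨a - 1, by omega⟩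
  obtain ⟨b, rfl⟩ : ∃ b', b = b' + 1 := ⟨b - 1, by omega⟩
  rw [← Finset.sum_Ico_add' (fun m => ρ ^ padicValNat 2 m) a b 1, Finset.sum_Ico_eq_sub _ (by omega)]
  have := GG_sub h0 h1 b a (by omega)
  unfold GG at this
  refine this.trans_eq ?_
  push_cast
  ring

/-- the Lyapunov function -/
noncomputable def hh (t ρ : ℝ) (n : ℕ) : ℝ := (n : ℝ) ^ t * ρ ^ padicValNat 2 n

theorem hh_even {t ρ : ℝ} (hρ : ρ ≠ 0) {n : ℕ} (hn : 1 ≤ n) :
    hh t ρ n = ((2 : ℝ) ^ t * ρ)⁻¹ * hh t ρ (2 * n) := by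
  have h2 : (0 : ℝ) < 2 ^ t := by positivity
  unfold hh
  rw [v2_double hn]
  push_cast
  rw [Real.mul_rpow (by norm_num) (by positivity), pow_succ]
  field_simp

theorem hh_le {t ρ : ℝ} (h0 : 0 ≤ ρ) (h1 : ρ ≤ 1) (n : ℕ) : hh t ρ n ≤ (n : ℝ) ^ t := by
  unfold hh
  exact mul_le_of_le_one_right (by positivity) (pow_le_one₀ h0 h1)

theorem hh_ge {t ρ : ℝ} (ht : 0 ≤ t) (h0 : 0 < ρ) (h2 : 1 ≤ (2 : ℝ) ^ t * ρ) (n : ℕ) (hn : 1 ≤ n) :
    1 ≤ hh t ρ n := by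
  induction n using Nat.strong_induction_on with
  | _ n ih =>
    rcases Nat.mod_two_eq_zero_or_one n with he | ho
    · have h3 := ih (n / 2) (by omega) (by omega)
      rw [hh_even h0.ne' (by omega : 1 ≤ n / 2), show 2 * (n / 2) = n by omega] at h3
      have h4 : ((2 : ℝ) ^ t * ρ)⁻¹ ≤ 1 := inv_le_one_of_one_le₀ h2
      have h5 : 0 ≤ hh t ρ n := by unfold hh; positivity
      calc (1 : ℝ) ≤ ((2 : ℝ) ^ t * ρ)⁻¹ * hh t ρ n := h3
        _ ≤ 1 * hh t ρ n := mul_le_mul_of_nonneg_right h4 h5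
        _ = hh t ρ n := one_mul _
    · unfold hh
      rw [v2_odd ho, pow_zero, mul_one]
      exact Real.one_le_rpow (by exact_mod_cast hn) ht

theorem od_sum {n : ℕ} {J : ℕ} (hJ : J ≤ n) (ho : n % 2 = 1) (f : ℕ → ℝ) :
    ∑ j ∈ Ico (-(J : ℤ)) (J : ℤ), f (od n j) =
      ∑ m ∈ Ico ((3 * n + 1) / 2 - J) ((3 * n + 1) / 2 + J), f m := by
  refine Finset.sum_bij' (fun j _ => od n j) (fun m _ => (m : ℤ) - ((3 * n + 1) / 2 : ℕ)) ?_ ?_ ?_ ?_ ?_
  · intro j hj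
    rw [mem_Ico] at hj ⊢
    unfold od
    omega
  · intro m hm
    rw [mem_Ico] at hm ⊢
    omega
  · intro j hj
    rw [mem_Ico] at hj
    unfold od
    omega
  · intro m hm
    rw [mem_Ico] at hm
    unfold od
    omega
  · intro j hj
    rfl

theorem odd_step {J : ℕ → ℕ} (hA : Amp J) {t ρ : ℝ} (ht : 0 ≤ t) (h0 : 0 ≤ ρ) (h1 : ρ ≤ 1)
    {ε : ℝ} (hε : 0 < ε) : ∀ᶠ n : ℕ in atTop, n % 2 = 1 →
      ∑ j ∈ Ico (-(J n : ℤ)) (J n), hh t ρ (od n j) ≤
        2 * J n * ((1 + ε) * ((3 / 2 : ℝ) ^ t / (2 - ρ)) * hh t ρ n) := by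
  have h2 : 0 < 2 - ρ := by linarith
  have l0 : Tendsto (fun n : ℕ => (1 : ℝ) / n) atTop (𝓝 0) := tendsto_const_div_atTop_nhds_zero_nat 1
  have lJ : Tendsto (fun n : ℕ => (J n : ℝ) / n) atTop (𝓝 0) := by
    have hs : Tendsto (fun n : ℕ => Real.sqrt (1 / (n : ℝ))) atTop (𝓝 0) := by
      have := l0.sqrt
      simpa using this
    refine squeeze_zero' (Eventually.of_forall fun n => by positivity) ?_ hs
    filter_upwards [eventually_ge_atTop 1] with n hn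
    apply Real.le_sqrt_of_sq_le
    have hn0 : (0 : ℝ) < n := by exact_mod_cast hn
    have hsq : ((J n : ℝ)) ^ 2 ≤ n := by exact_mod_cast hA.sq n hn
    rw [div_pow, div_le_div_iff₀ (by positivity) hn0]
    nlinarith
  have lc : Tendsto (fun n : ℕ => (3 / 2 : ℝ) + 1 / n + (J n : ℝ) / n) atTop (𝓝 (3 / 2)) := by
    have := (tendsto_const_nhds (x := (3 / 2 : ℝ))).add l0 |>.add lJ
    simpa using this
  have lc2 : Tendsto (fun n : ℕ => ((3 / 2 : ℝ) + 1 / n + (J n : ℝ) / n) ^ t) atTop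
      (𝓝 ((3 / 2) ^ t)) := lc.rpow_const (Or.inl (by norm_num))
  have lj : Tendsto (fun n : ℕ => 1 + 1 / (2 * (J n : ℝ))) atTop (𝓝 1) := by
    have h3 : Tendsto (fun n : ℕ => (J n : ℝ)) atTop atTop :=
      tendsto_natCast_atTop_atTop.comp hA.top
    have h4 : Tendsto (fun n : ℕ => 2 * (J n : ℝ)) atTop atTop :=
      h3.const_mul_atTop (by norm_num)
    have h5 := (tendsto_const_nhds (x := (1 : ℝ))).add (tendsto_const_nhds (x := (1 : ℝ)) |>.div_atTop h4)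
    simpa using h5
  have l2 := lc2.mul lj
  rw [mul_one] at l2
  have h32 : (0 : ℝ) < (3 / 2) ^ t := by positivity
  have hev := l2.eventually (gt_mem_nhds (show (3 / 2 : ℝ) ^ t < (1 + ε) * (3 / 2) ^ t by nlinarith))
  filter_upwards [hev, eventually_ge_atTop 1] with n hn hn1 ho
  have hn0 : (0 : ℝ) < n := by exact_mod_cast hn1
  have hJ1 : (1 : ℝ) ≤ J n := by exact_mod_cast hA.one n hn1
  have hJn := hA.le_self hn1
  rw [od_sum hJn ho]
  set c := (3 * n + 1) / 2 with hc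
  have hcn : n + 1 ≤ c := by omega
  have hcr : (c : ℝ) ≤ 3 / 2 * n + 1 := by
    have : 2 * c ≤ 3 * n + 2 := by omega
    have : (2 : ℝ) * c ≤ 3 * n + 2 := by exact_mod_cast this
    linarith
  have e1 : ∀ m ∈ Ico (c - J n) (c + J n), hh t ρ m ≤
      ((c : ℝ) + J n) ^ t * ρ ^ padicValNat 2 m := by
    intro m hm
    rw [mem_Ico] at hm
    unfold hh
    apply mul_le_mul_of_nonneg_right _ (by positivity)
    apply Real.rpow_le_rpow (by positivity) _ ht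
    exact_mod_cast hm.2.le
  refine (Finset.sum_le_sum e1).trans ?_
  rw [← Finset.mul_sum]
  have h3 := sum_v2 h0 h1 (show 1 ≤ c - J n by omega) (show c - J n ≤ c + J n by omega)
  have h4 : (((c + J n : ℕ) : ℝ) - ((c - J n : ℕ) : ℝ) + 1) = 2 * J n * (1 + 1 / (2 * (J n : ℝ))) := by
    rw [Nat.cast_sub (by omega)]
    push_cast
    field_simp
    ring
  rw [h4] at h3
  have h5 : ((c : ℝ) + J n) ^ t ≤ ((3 / 2 : ℝ) + 1 / n + (J n : ℝ) / n) ^ t * (n : ℝ) ^ t := by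
    rw [← Real.mul_rpow (by positivity) (by positivity)]
    apply Real.rpow_le_rpow (by positivity) _ ht
    have : ((3 / 2 : ℝ) + 1 / n + (J n : ℝ) / n) * n = 3 / 2 * n + 1 + J n := by
      field_simp
    rw [this]
    linarith
  have h6 : hh t ρ n = (n : ℝ) ^ t := by
    unfold hh
    rw [v2_odd ho, pow_zero, mul_one]
  rw [h6]
  have hnt : 0 < (n : ℝ) ^ t := by positivity
  calc ((c : ℝ) + J n) ^ t * ∑ m ∈ Ico (c - J n) (c + J n), ρ ^ padicValNat 2 m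
      ≤ (((3 / 2 : ℝ) + 1 / n + (J n : ℝ) / n) ^ t * (n : ℝ) ^ t) *
        (2 * J n * (1 + 1 / (2 * (J n : ℝ))) / (2 - ρ)) := by
        apply mul_le_mul h5 h3 _ (by positivity)
        exact Finset.sum_nonneg fun m _ => by positivity
    _ = (((3 / 2 : ℝ) + 1 / n + (J n : ℝ) / n) ^ t * (1 + 1 / (2 * (J n : ℝ)))) *
        (2 * J n * (n : ℝ) ^ t / (2 - ρ)) := by ring
    _ ≤ ((1 + ε) * (3 / 2) ^ t) * (2 * J n * (n : ℝ) ^ t / (2 - ρ)) :=
        mul_le_mul_of_nonneg_right hn.le (by positivity)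
    _ = 2 * J n * ((1 + ε) * ((3 / 2 : ℝ) ^ t / (2 - ρ)) * (n : ℝ) ^ t) := by ring

end Pool.Agent.W2helper40.RC
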