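import Pool.Agent.W2helper40.RC.Cheb

set_option autoImplicit false

/-! The number of odd preimages of a fixed set of integers. -/

namespace Pool.Agent.W2helper40.RC

open MeasureTheory ProbabilityTheory Finset Filter Topology

variable {Ω : Type*} [MeasurableSpace Ω]

/-- `m` can be the image of `2 u + 1` -/
def Hit (J : ℕ → ℕ) (m u : ℕ) : Prop :=
  -(J (2 * u + 1) : ℤ) ≤ (m : ℤ) - (3 * u + 2) ∧ (m : ℤ) - (3 * u + 2) < J (2 * u + 1)

instance (J : ℕ → ℕ) (m u : ℕ) : Decidable (Hit J m u) :=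
  inferInstanceAs (Decidable (_ ∧ _))

theorem J_compare {J : ℕ → ℕ} (hA : Amp J) {δ : ℝ} (hδ : 0 < δ) :
    ∃ m₀ : ℕ, ∀ m, m₀ ≤ m → (J m : ℝ) ≤ (1 + δ) ^ 2 * J (m / 2) := by
  have h1 := hA.slow.eventually (gt_mem_nhds (show (1 : ℝ) < 1 + δ by linarith))
  obtain ⟨k₀, hk⟩ := eventually_atTop.1 h1
  refine ⟨2 * k₀ + 2, fun m hm => ?_⟩
  have h2 : ∀ k, k₀ ≤ k → 1 ≤ k → (J (2 * k) : ℝ) ≤ (1 + δ) * J k := by
    intro k hk0 hk1
    have h3 := hk k hk0
    have hJ : (0 : ℝ) < J k := by exact_mod_cast hA.one k hk1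
    rw [div_lt_iff₀ hJ] at h3
    exact h3.le
  have h4 : (J m : ℝ) ≤ J (2 * (m / 2 + 1)) := by exact_mod_cast hA.mono (by omega)
  have h5 := h2 (m / 2 + 1) (by omega) (by omega)
  have h6 : (J (m / 2 + 1) : ℝ) ≤ J (2 * (m / 2)) := by exact_mod_cast hA.mono (by omega)
  have h7 := h2 (m / 2) (by omega) (by omega)
  calc (J m : ℝ) ≤ (1 + δ) * J (m / 2 + 1) := h4.trans h5
    _ ≤ (1 + δ) * ((1 + δ) * J (m / 2)) :=
        mul_le_mul_of_nonneg_left (h6.trans h7) (by positivity)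
    _ = (1 + δ) ^ 2 * J (m / 2) := by ring

theorem mean_low {J : ℕ → ℕ} (hA : Amp J) {δ : ℝ} (hδ : 0 < δ) : ∃ m₀ : ℕ, ∀ m,
    m₀ ≤ m → 1 / 3 - δ ≤
      ∑ u ∈ (range m).filter (fun u => Hit J m u), 1 / (2 * (J (2 * u + 1) : ℝ)) := by
  obtain ⟨m₁, h1⟩ := J_compare hA hδ
  obtain ⟨m₂, h2⟩ := eventually_atTop.1 (hA.top.eventually_ge_atTop ⌈1 / δ⌉₊)
  refine ⟨max m₁ (max m₂ 200), fun m hm => ?_⟩
  have hm1 : m₁ ≤ m := le_trans (le_max_left _ _) hm
  have hm2 : m₂ ≤ m := le_trans ((le_max_left _ _).trans (le_max_right _ _)) hm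
  have hm3 : 200 ≤ m := le_trans ((le_max_right _ _).trans (le_max_right _ _)) hm
  have hJm : 0 < J m := hA.one m (by omega)
  have hJm' : (0 : ℝ) < J m := by exact_mod_cast hJm
  have hJi : 1 ≤ δ * J m := by
    have h3 : (1 / δ) ≤ (J m : ℝ) := (Nat.le_ceil _).trans (by exact_mod_cast h2 m hm2)
    rw [div_le_iff₀ hδ] at h3
    linarith
  set j := J (m / 2) with hj
  have hj16 : 16 * j ≤ m := by
    have h3 := hA.sq (m / 2) (by omega)
    rw [← hj] at h3
    by_contra hcon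
    push Not at hcon
    have h4 : 2 * j ^ 2 ≤ m := by omega
    nlinarith
  have hj1 : 1 ≤ j := hA.one _ (by omega)
  have hjr : (1 : ℝ) ≤ j := by exact_mod_cast hj1
  set A : Finset ℕ := Ioc ((m - 2 - j) / 3) ((m - 2 + j) / 3) with hAdef
  have hmem : ∀ u ∈ A, u ∈ (range m).filter (fun u => Hit J m u) ∧ J (2 * u + 1) ≤ J m := by
    intro u hu
    rw [hAdef, mem_Ioc] at hu
    have e1 : m / 2 ≤ 2 * u + 1 := by omega
    have e2 : 2 * u + 1 ≤ m := by omega
    have e3 : j ≤ J (2 * u + 1) := hA.mono e1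
    refine ⟨?_, hA.mono e2⟩
    rw [mem_filter, mem_range]
    refine ⟨by omega, ?_⟩
    unfold Hit
    omega
  have hcard : ((2 * j - 2 : ℕ) : ℝ) / 3 ≤ (A.card : ℝ) := by
    have e1 : 2 * j - 2 ≤ 3 * A.card := by
      rw [hAdef, Nat.card_Ioc]
      omega
    have : ((2 * j - 2 : ℕ) : ℝ) ≤ 3 * (A.card : ℝ) := by exact_mod_cast e1
    linarith
  rw [Nat.cast_sub (by omega)] at hcard
  push_cast at hcard
  have h5 : (A.card : ℝ) * (1 / (2 * (J m : ℝ))) ≤
      ∑ u ∈ (range m).filter (fun u => Hit J m u), 1 / (2 * (J (2 * u + 1) : ℝ)) := by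
    rw [← nsmul_eq_mul, ← Finset.sum_const]
    refine le_trans ?_ (Finset.sum_le_sum_of_subset_of_nonneg (fun u hu => (hmem u hu).1)
      fun u _ _ => by positivity)
    apply Finset.sum_le_sum
    intro u hu
    have e1 : (J (2 * u + 1) : ℝ) ≤ J m := by exact_mod_cast (hmem u hu).2
    have e2 : (0 : ℝ) < J (2 * u + 1) := by exact_mod_cast hA.one (2 * u + 1) (by omega)
    exact one_div_le_one_div_of_le (by positivity) (by linarith)
  refine le_trans ?_ h5
  have h6 := h1 m hm1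
  rw [← hj] at h6
  have h7 : (1 - 2 * δ) * J m ≤ j := by
    have e1 : (1 - 2 * δ) * (1 + δ) ^ 2 ≤ 1 := by nlinarith [mul_pos hδ hδ]
    rcases le_or_gt (1 - 2 * δ) 0 with h8 | h8
    · nlinarith
    · calc (1 - 2 * δ) * (J m : ℝ) ≤ (1 - 2 * δ) * ((1 + δ) ^ 2 * j) :=
            mul_le_mul_of_nonneg_left h6 h8.le
        _ = ((1 - 2 * δ) * (1 + δ) ^ 2) * j := by ring
        _ ≤ 1 * j := mul_le_mul_of_nonneg_right e1 (by positivity)
        _ = j := one_mul _
  rw [mul_one_div, le_div_iff₀ (by positivity)]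
  nlinarith

theorem query {J : ℕ → ℕ} {P : Measure Ω} [IsProbabilityMeasure P] {Y : ℕ → Ω → ℤ} (hA : Amp J)
    (hE : Env J P Y) {δ : ℝ} (hδ : 0 < δ) (hδ1 : δ ≤ 1 / 6) : ∃ m₀ : ℕ, ∀ G V : Finset ℕ,
    G.Nonempty → (∀ m ∈ G, m₀ ≤ m) → (∀ m ∈ G, ∀ u, Hit J m u → 2 * u + 1 ∈ V) →
    P.real {ω | ((V.filter fun n => n % 2 = 1 ∧ S (fun i => Y i ω) n ∈ G).card : ℝ) <
      (1 / 3 - 2 * δ) * G.card} ≤ 1 / (δ ^ 2 * G.card) := by
  classical
  obtain ⟨m₀, hm₀⟩ := mean_low hA hδ
  refine ⟨max m₀ 1, fun G V hG hGm hV => ?_⟩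
  set A : ℕ → Set ℤ := fun n => {j | n % 2 = 1 ∧ od n j ∈ G} with hAdef
  set E : ℝ := ∑ n ∈ V, P.real {ω | Y n ω ∈ A n} with hEdef
  have hGc : (0 : ℝ) < G.card := by exact_mod_cast hG.card_pos
  -- the mean
  have hmean : (1 / 3 - δ) * G.card ≤ E := by
    set VU : Finset ℕ := (V.filter (fun n => n % 2 = 1)).image (fun n => n / 2) with hVU
    have hVUm : ∀ u, u ∈ VU ↔ 2 * u + 1 ∈ V := by
      intro u
      rw [hVU, mem_image]
      constructor
      · rintro ⟨n, hn, rfl⟩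
        rw [mem_filter] at hn
        show 2 * (n / 2) + 1 ∈ V
        rw [show 2 * (n / 2) + 1 = n by omega]
        exact hn.1
      · intro h
        exact ⟨2 * u + 1, by rw [mem_filter]; exact ⟨h, by omega⟩, by omega⟩
    have e1 : ∑ u ∈ VU, P.real {ω | Y (2 * u + 1) ω ∈ A (2 * u + 1)} ≤ E := by
      have e2 : ∑ u ∈ VU, P.real {ω | Y (2 * u + 1) ω ∈ A (2 * u + 1)} =
          ∑ n ∈ V.filter (fun n => n % 2 = 1), P.real {ω | Y n ω ∈ A n} := by
        refine Finset.sum_bij' (fun u _ => 2 * u + 1) (fun n _ => n / 2) ?_ ?_ ?_ ?_ ?_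
        · intro u hu
          rw [mem_filter]
          exact ⟨(hVUm u).1 hu, by omega⟩
        · intro n hn
          rw [mem_filter] at hn
          rw [hVUm, show 2 * (n / 2) + 1 = n by omega]
          exact hn.1
        · intro u hu
          show (2 * u + 1) / 2 = u
          omega
        · intro n hn
          rw [mem_filter] at hn
          show 2 * (n / 2) + 1 = n
          omega
        · intro u hu
          rfl
      rw [e2, hEdef]
      exact Finset.sum_le_sum_of_subset_of_nonneg (Finset.filter_subset _ _)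
        fun _ _ _ => measureReal_nonneg
    refine le_trans ?_ e1
    have e3 : ∀ u ∈ VU, ∑ m ∈ G, (if Hit J m u then 1 / (2 * (J (2 * u + 1) : ℝ)) else 0) ≤
        P.real {ω | Y (2 * u + 1) ω ∈ A (2 * u + 1)} := by
      intro u hu
      rw [← Finset.sum_filter]
      have e4 : ∀ m ∈ G.filter (fun m => Hit J m u), 1 / (2 * (J (2 * u + 1) : ℝ)) =
          P.real {ω | Y (2 * u + 1) ω = (m : ℤ) - (3 * u + 2)} := by
        intro m hm
        rw [mem_filter] at hm
        exact (hE.law (2 * u + 1) (by omega) _ (mem_Ico.2 hm.2)).symm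
      rw [Finset.sum_congr rfl e4, ← measureReal_biUnion_finset]
      · refine measureReal_mono ?_ (measure_ne_top _ _)
        intro ω hω
        simp only [Set.mem_iUnion] at hω
        obtain ⟨m, hm, hω⟩ := hω
        rw [mem_filter] at hm
        simp only [Set.mem_ofPred_eq] at hω
        have : od (2 * u + 1) (Y (2 * u + 1) ω) = m := by
          rw [hω]
          unfold od
          push_cast
          omega
        exact ⟨by omega, by rw [this]; exact hm.1⟩
      · intro m _ m' _ hne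
        rw [Function.onFun, Set.disjoint_left]
        intro ω h1 h2
        apply hne
        simp only [Set.mem_ofPred_eq] at h1 h2
        rw [h1] at h2
        omega
      · intro m _
        exact (hE.meas (2 * u + 1)) (measurableSet_singleton _)
    refine le_trans ?_ (Finset.sum_le_sum e3)
    rw [Finset.sum_comm]
    have e5 : ∀ m ∈ G, 1 / 3 - δ ≤
        ∑ u ∈ VU, (if Hit J m u then 1 / (2 * (J (2 * u + 1) : ℝ)) else 0) := by
      intro m hm
      rw [← Finset.sum_filter]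
      refine (hm₀ m (le_trans (le_max_left _ _) (hGm m hm))).trans ?_
      apply Finset.sum_le_sum_of_subset_of_nonneg
      · intro u hu
        rw [mem_filter] at hu ⊢
        exact ⟨(hVUm u).2 (hV m hm u hu.2), hu.2⟩
      · intro u _ _
        positivity
    have e6 := Finset.sum_le_sum e5
    rw [Finset.sum_const, nsmul_eq_mul] at e6
    linarith
  set θ : ℝ := (1 / 3 - 2 * δ) * G.card with hθ
  have hEpos : 0 < E := lt_of_lt_of_le (by nlinarith) hmean
  have hgap : 3 * δ * E ≤ E - θ := by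
    -- `θ (1/3 - δ) ≤ (1/3 - 2δ) E`
    have h1 : θ * (1 / 3 - δ) ≤ (1 / 3 - 2 * δ) * E := by
      rw [hθ]
      nlinarith [mul_le_mul_of_nonneg_left hmean (show 0 ≤ 1 / 3 - 2 * δ by linarith)]
    have h2 : 3 * δ * (1 / 3 - δ) ≤ δ := by nlinarith
    have h3 : (3 * δ * E) * (1 / 3 - δ) ≤ (E - θ) * (1 / 3 - δ) := by
      nlinarith [mul_le_mul_of_nonneg_right h2 hEpos.le]
    exact le_of_mul_le_mul_right h3 (by linarith)
  have hθE : θ < E := by nlinarith [mul_pos hδ hEpos]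
  have h1 : P.real {ω | ((V.filter fun n => Y n ω ∈ A n).card : ℝ) ≤ θ} ≤ E / (E - θ) ^ 2 := by
    convert cheb hE.meas hE.ind V A hEdef hθE
  have hsub : {ω | ((V.filter fun n => n % 2 = 1 ∧ S (fun i => Y i ω) n ∈ G).card : ℝ) < θ} ⊆
      {ω | ((V.filter fun n => Y n ω ∈ A n).card : ℝ) ≤ θ} := by
    intro ω hω
    simp only [Set.mem_ofPred_eq] at hω ⊢
    have : (V.filter fun n => Y n ω ∈ A n) =
        (V.filter fun n => n % 2 = 1 ∧ S (fun i => Y i ω) n ∈ G) := by
      apply Finset.filter_congr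
      intro n _
      simp only [hAdef, Set.mem_ofPred_eq]
      constructor
      · rintro ⟨h2, h3⟩
        refine ⟨h2, ?_⟩
        unfold S
        rw [if_neg (by omega)]
        exact h3
      · rintro ⟨h2, h3⟩
        refine ⟨h2, ?_⟩
        unfold S at h3
        rwa [if_neg (by omega)] at h3
    rw [this]
    exact hω.le
  refine (measureReal_mono hsub).trans (h1.trans ?_)
  have h4 : 0 < 3 * δ * E := by positivity
  have h5 : (3 * δ * E) ^ 2 ≤ (E - θ) ^ 2 := pow_le_pow_left₀ h4.le hgap 2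
  calc E / (E - θ) ^ 2 ≤ E / (3 * δ * E) ^ 2 :=
        div_le_div_of_nonneg_left hEpos.le (by positivity) h5
    _ ≤ 1 / (δ ^ 2 * G.card) := by
        rw [div_le_div_iff₀ (by positivity) (by positivity)]
        have h6 : (G.card : ℝ) ≤ 9 * E := by nlinarith
        have h7 : 0 < δ ^ 2 := by positivity
        nlinarith [mul_pos h7 hEpos, mul_le_mul_of_nonneg_left h6 (mul_pos h7 hEpos).le]

end Pool.Agent.W2helper40.RC
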