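import Pool.Agent.W2helper40.RC.Lyap
import Pool.Agent.H395R2.G3.Rate

set_option autoImplicit false

/-! The upper bound for the probability that an orbit escapes, with the rate function. -/

namespace Pool.Agent.W2helper40.RC

open MeasureTheory ProbabilityTheory Finset Filter Topology
open Pool.Agent.H395R2.G3 (rate rr FF expo_eq term_le term_eq rr_spec rr_pos rr_lt_one)

variable {Ω : Type*} [MeasurableSpace Ω]

/-- `M(-t)` -/
noncomputable def MM (t : ℝ) : ℝ := (1 / 2) * ((2 : ℝ) ^ (-t) + (2 / 3 : ℝ) ^ (-t))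

theorem MM_pos (t : ℝ) : 0 < MM t := by
  unfold MM
  positivity

theorem MM_eq (t : ℝ) : MM t = ((2 : ℝ) ^ t * (2 / (1 + (3 : ℝ) ^ t)))⁻¹ := by
  have h2 : (0 : ℝ) < 2 ^ t := by positivity
  have h3 : (0 : ℝ) < 3 ^ t := by positivity
  unfold MM
  rw [Real.rpow_neg (by norm_num), Real.rpow_neg (by norm_num), Real.div_rpow (by norm_num) (by norm_num)]
  field_simp

theorem MM_eq' (t : ℝ) : MM t = (3 / 2 : ℝ) ^ t / (2 - 2 / (1 + (3 : ℝ) ^ t)) := by
  have h2 : (0 : ℝ) < 2 ^ t := by positivity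
  have h3 : (0 : ℝ) < 3 ^ t := by positivity
  rw [MM_eq, Real.div_rpow (by norm_num) (by norm_num)]
  have e : 2 - 2 / (1 + (3 : ℝ) ^ t) = 2 * 3 ^ t / (1 + 3 ^ t) := by
    field_simp
    ring
  rw [e]
  field_simp

theorem esc_M {J : ℕ → ℕ} {P : Measure Ω} [IsProbabilityMeasure P] {Y : ℕ → Ω → ℤ} (hA : Amp J)
    (hE : Env J P Y) {t : ℝ} (ht : 0 ≤ t) (hM : MM t ≤ 1) {ε : ℝ} (hε : 0 < ε) :
    ∃ N₀ : ℕ, 1 ≤ N₀ ∧ ∀ n : ℕ, 1 ≤ n → ∀ k : ℕ,
      P.real {ω | Esc N₀ (fun i => Y i ω) k ∅ n} ≤ ((1 + ε) * MM t) ^ k * (n : ℝ) ^ t := by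
  set ρ : ℝ := 2 / (1 + (3 : ℝ) ^ t) with hρ
  have h3 : (1 : ℝ) ≤ 3 ^ t := Real.one_le_rpow (by norm_num) ht
  have hρ0 : 0 < ρ := by positivity
  have hρ1 : ρ ≤ 1 := by
    rw [hρ, div_le_one (by positivity)]
    linarith
  obtain ⟨N, hN⟩ := eventually_atTop.1 (odd_step hA ht hρ0.le hρ1 hε)
  refine ⟨max N 1, le_max_right _ _, fun n hn k => ?_⟩
  have hMp := MM_pos t
  have hlam : 0 ≤ (1 + ε) * MM t := by positivity
  have h2ρ : 1 ≤ (2 : ℝ) ^ t * ρ := by
    have h4 : MM t = ((2 : ℝ) ^ t * ρ)⁻¹ := MM_eq t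
    rw [h4] at hM
    exact (inv_le_one₀ (by positivity)).1 hM
  have h5 := esc_bound hA hE (N₀ := max N 1) (le_max_right _ _) (h := hh t ρ) hlam
    (fun n hn => hh_ge ht hρ0 h2ρ n hn) ?_ ?_ k ∅ n (fun _ => True) hn (fun _ _ _ => Iff.rfl)
  · simp only [true_and] at h5
    refine h5.trans ?_
    have h6 : P.real {ω : Ω | True} ≤ 1 := measureReal_le_one
    have h7 : 0 ≤ ((1 + ε) * MM t) ^ k * hh t ρ n := by
      unfold hh
      positivity
    calc P.real {ω : Ω | True} * (((1 + ε) * MM t) ^ k * hh t ρ n)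
        ≤ 1 * (((1 + ε) * MM t) ^ k * hh t ρ n) := mul_le_mul_of_nonneg_right h6 h7
      _ ≤ ((1 + ε) * MM t) ^ k * (n : ℝ) ^ t := by
          rw [one_mul]
          exact mul_le_mul_of_nonneg_left (hh_le hρ0.le hρ1 n) (by positivity)
  · intro n hn he
    have hn1 : 1 ≤ n := le_trans (le_max_right _ _) hn
    have h8 : 0 ≤ hh t ρ n := by
      unfold hh
      positivity
    rw [hh_even hρ0.ne' (by omega : 1 ≤ n / 2), show 2 * (n / 2) = n by omega, ← MM_eq]
    nlinarith [mul_nonneg hMp.le h8]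
  · intro n hn ho
    have := hN n (le_trans (le_max_left _ _) hn) ho
    rwa [← MM_eq' t] at this

/-- the exponent of the count -/
noncomputable def psi (α : ℝ) : ℝ := α * FF (rr α)

/-- the optimal parameter -/
theorem exists_t {α : ℝ} (hα : ((1 / 2) * Real.log (4 / 3))⁻¹ < α) :
    ∃ t : ℝ, 0 ≤ t ∧ MM t ≤ 1 ∧ t + α * Real.log (MM t) = psi α - 1 := by
  have hl2 : 0 < Real.log 2 := Real.log_pos (by norm_num)
  have h43 : Real.log (4 / 3) = 2 * Real.log 2 - Real.log 3 := by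
    rw [Real.log_div (by norm_num) (by norm_num), show (4 : ℝ) = 2 ^ 2 by norm_num, Real.log_pow]
    norm_num
  have hl43 : 0 < Real.log (4 / 3) := Real.log_pos (by norm_num)
  have hl3 : 0 < Real.log 3 := Real.log_pos (by norm_num)
  have hμ0 : 0 < ((1 / 2) * Real.log (4 / 3))⁻¹ := by positivity
  have hα0 : 0 < α := hμ0.trans hα
  have hinv : 1 / α < (1 / 2) * Real.log (4 / 3) := by
    rw [div_lt_iff₀ hα0]
    rw [inv_lt_iff_one_lt_mul₀ (by positivity)] at hα
    linarith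
  have hα1 : 1 / Real.log 2 < α := by
    rw [div_lt_iff₀ hl2]
    rw [div_lt_iff₀ hα0] at hinv
    nlinarith
  obtain ⟨θ, hθ⟩ := term_eq (rr_pos hα1) (rr_lt_one hα0)
  rw [← rr_spec] at hθ
  have hent : Real.binEntropy (rr α) ≤ Real.log 2 := Real.binEntropy_le_log_two
  have h12 := term_le (r := 1 / 2) (by norm_num) (by norm_num) θ
  have hbe : Real.binEntropy (1 / 2) = Real.log 2 := by
    rw [one_div]
    exact Real.binEntropy_two_inv
  rw [hbe, sub_self] at h12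
  have hθ0 : θ ≤ 0 := by
    by_contra hc
    push Not at hc
    have h5 : θ * (1 / α) < θ * ((1 / 2) * Real.log (4 / 3)) := mul_lt_mul_of_pos_left hinv hc
    rw [h43] at h5
    nlinarith
  have hMt : MM (-θ) = (1 / 2) * ((2 : ℝ) ^ θ + (2 / 3 : ℝ) ^ θ) := by
    unfold MM
    rw [neg_neg]
  have hlog : Real.log (MM (-θ)) = θ * (1 / α) - (Real.log 2 - Real.binEntropy (rr α)) := by
    rw [hMt]
    linarith
  refine ⟨-θ, by linarith, ?_, ?_⟩
  · have h6 : Real.log (MM (-θ)) ≤ 0 := by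
      rw [hlog]
      have : θ * (1 / α) ≤ 0 := mul_nonpos_of_nonpos_of_nonneg hθ0 (by positivity)
      linarith
    exact (Real.log_nonpos_iff (MM_pos _).le).1 h6
  · rw [hlog]
    unfold psi FF
    have h7 : α * (1 / α) = 1 := by field_simp
    have h8 := rr_spec α
    have h9 : α * (Real.log 2 - rr α * Real.log 3) = 1 := by rw [← h8]; exact h7
    have h10 : α * (θ * (1 / α)) = θ := by field_simp
    have : α * (θ * (1 / α) - (Real.log 2 - Real.binEntropy (rr α))) =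
        θ - α * Real.log 2 + α * Real.binEntropy (rr α) := by
      rw [mul_sub, h10]
      ring
    rw [this]
    nlinarith

/-- U1 -/
theorem esc_prob {J : ℕ → ℕ} {P : Measure Ω} [IsProbabilityMeasure P] {Y : ℕ → Ω → ℤ} (hA : Amp J)
    (hE : Env J P Y) {α : ℝ} (hα : ((1 / 2) * Real.log (4 / 3))⁻¹ < α) {ε : ℝ} (hε : 0 < ε) :
    ∃ N₀ : ℕ, 1 ≤ N₀ ∧ ∀ n : ℕ, 1 ≤ n →
      P.real {ω | Esc N₀ (fun i => Y i ω) ⌈α * Real.log n⌉₊ ∅ n} ≤ 2 * (n : ℝ) ^ (psi α - 1 + ε) := by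
  have hl43 : 0 < Real.log (4 / 3) := Real.log_pos (by norm_num)
  have hα0 : 0 < α := lt_trans (by positivity) hα
  obtain ⟨t, ht, hM, hte⟩ := exists_t hα
  set ε' : ℝ := min 1 (ε / α) with hε'
  have hε'0 : 0 < ε' := lt_min one_pos (by positivity)
  have hε'1 : ε' ≤ 1 := min_le_left _ _
  have hε'2 : α * ε' ≤ ε := by
    have : ε' ≤ ε / α := min_le_right _ _
    rw [le_div_iff₀ hα0] at this
    linarith
  obtain ⟨N₀, hN1, hN⟩ := esc_M hA hE ht hM hε'0
  refine ⟨N₀, hN1, fun n hn => (hN n hn _).trans ?_⟩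
  have hn1 : (1 : ℝ) ≤ n := by exact_mod_cast hn
  have hn0 : (0 : ℝ) < n := by linarith
  have hln : 0 ≤ Real.log n := Real.log_nonneg hn1
  set k := ⌈α * Real.log n⌉₊ with hk
  have hk1 : α * Real.log n ≤ k := Nat.le_ceil _
  have hk2 : (k : ℝ) ≤ α * Real.log n + 1 := (Nat.ceil_lt_add_one (by positivity)).le
  have hMp := MM_pos t
  have hlM : Real.log (MM t) ≤ 0 := Real.log_nonpos hMp.le hM
  have hl1 : Real.log (1 + ε') ≤ ε' := by
    have := Real.log_le_sub_one_of_pos (show 0 < 1 + ε' by linarith)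
    linarith
  have hl0 : 0 ≤ Real.log (1 + ε') := Real.log_nonneg (by linarith)
  have e1 : ((1 + ε') * MM t) ^ k * (n : ℝ) ^ t =
      Real.exp (k * Real.log (1 + ε') + k * Real.log (MM t) + t * Real.log n) := by
    rw [Real.exp_add, Real.exp_add, Real.rpow_def_of_pos hn0, mul_comm (Real.log n) t,
      ← Real.log_pow, Real.exp_log (by positivity), ← Real.log_pow, Real.exp_log (by positivity),
      mul_pow]
  have e2 : 2 * (n : ℝ) ^ (psi α - 1 + ε) = Real.exp (Real.log 2 + (psi α - 1 + ε) * Real.log n) := by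
    rw [Real.exp_add, Real.exp_log (by norm_num), Real.rpow_def_of_pos hn0, mul_comm (Real.log n)]
  rw [e1, e2]
  apply Real.exp_le_exp.2
  have h1 : k * Real.log (1 + ε') ≤ ε * Real.log n + Real.log 2 := by
    have h2 : Real.log (1 + ε') ≤ Real.log 2 := Real.log_le_log (by linarith) (by linarith)
    calc k * Real.log (1 + ε') ≤ (α * Real.log n + 1) * Real.log (1 + ε') :=
          mul_le_mul_of_nonneg_right hk2 hl0
      _ = Real.log n * (α * Real.log (1 + ε')) + Real.log (1 + ε') := by ring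
      _ ≤ Real.log n * ε + Real.log 2 := by
          apply add_le_add _ h2
          apply mul_le_mul_of_nonneg_left _ hln
          nlinarith
      _ = ε * Real.log n + Real.log 2 := by ring
  have h3 : k * Real.log (MM t) ≤ (α * Real.log n) * Real.log (MM t) :=
    mul_le_mul_of_nonpos_right hk1 hlM
  have h4 : (psi α - 1 + ε) * Real.log n = (t + α * Real.log (MM t)) * Real.log n +
      ε * Real.log n := by rw [hte]; ring
  rw [h4]
  nlinarith

/-- sums over the indices of the events which occur -/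
theorem ae_sum_bound {P : Measure Ω} [IsProbabilityMeasure P] (B : ℕ → Set Ω) (c : ℕ → ℝ)
    (hc : ∀ n, 0 ≤ c n) (hs : Summable fun n => c n * P.real (B n)) :
    ∀ᵐ ω ∂P, ∃ C : ℝ, ∀ F : Finset ℕ, (∀ n ∈ F, ω ∈ B n) → ∑ n ∈ F, c n ≤ C := by
  classical
  set g : Ω → ENNReal := fun ω => ∑' n, (toMeasurable P (B n)).indicator
    (fun _ => ENNReal.ofReal (c n)) ω with hg
  have hmeas : ∀ n, Measurable ((toMeasurable P (B n)).indicator
      (fun _ : Ω => ENNReal.ofReal (c n))) := fun n =>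
    measurable_const.indicator (measurableSet_toMeasurable _ _)
  have hgm : Measurable g := Measurable.tsum hmeas
  have hint : ∫⁻ ω, g ω ∂P ≠ ⊤ := by
    rw [hg]
    rw [lintegral_tsum fun n => (hmeas n).aemeasurable]
    have e1 : ∀ n, ∫⁻ ω, (toMeasurable P (B n)).indicator (fun _ => ENNReal.ofReal (c n)) ω ∂P =
        ENNReal.ofReal (c n * P.real (B n)) := by
      intro n
      rw [lintegral_indicator_const (measurableSet_toMeasurable _ _), measure_toMeasurable,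
        ENNReal.ofReal_mul (hc n), measureReal_def, ENNReal.ofReal_toReal (measure_ne_top _ _)]
    simp_rw [e1]
    exact hs.tsum_ofReal_ne_top
  filter_upwards [ae_lt_top hgm hint] with ω hω
  refine ⟨(g ω).toReal, fun F hF => ?_⟩
  rw [← ENNReal.ofReal_le_iff_le_toReal hω.ne, ENNReal.ofReal_sum_of_nonneg fun n _ => hc n]
  refine le_trans ?_ (ENNReal.sum_le_tsum F)
  apply Finset.sum_le_sum
  intro n hn
  rw [Set.indicator_of_mem (subset_toMeasurable _ _ (hF n hn))]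

/-- U2 -/
theorem esc_count {J : ℕ → ℕ} {P : Measure Ω} [IsProbabilityMeasure P] {Y : ℕ → Ω → ℤ} (hA : Amp J)
    (hE : Env J P Y) {α : ℝ} (hα : ((1 / 2) * Real.log (4 / 3))⁻¹ < α) {ε : ℝ} (hε : 0 < ε) :
    ∃ N₀ : ℕ, 1 ≤ N₀ ∧ ∀ᵐ ω ∂P, ∃ C : ℝ, ∀ F : Finset ℕ,
      (∀ n ∈ F, 1 ≤ n ∧ Esc N₀ (fun i => Y i ω) ⌈α * Real.log n⌉₊ ∅ n) →
      ∑ n ∈ F, (n : ℝ) ^ (-(psi α) - ε) ≤ C := by
  obtain ⟨N₀, hN1, hN⟩ := esc_prob hA hE hα (ε := ε / 2) (by positivity)
  refine ⟨N₀, hN1, ?_⟩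
  have h1 := ae_sum_bound (P := P)
    (fun n => {ω | 1 ≤ n ∧ Esc N₀ (fun i => Y i ω) ⌈α * Real.log n⌉₊ ∅ n})
    (fun n => (n : ℝ) ^ (-(psi α) - ε)) (fun n => by positivity) ?_
  · filter_upwards [h1] with ω hω
    exact hω
  · have hsum : Summable fun n : ℕ => 2 * (n : ℝ) ^ (-(1 + ε / 2)) := by
      apply Summable.mul_left
      rw [Real.summable_nat_rpow]
      linarith
    refine Summable.of_nonneg_of_le (fun n => mul_nonneg (by positivity) measureReal_nonneg)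
      (fun n => ?_) hsum
    rcases Nat.eq_zero_or_pos n with rfl | hn
    · have : {ω : Ω | 1 ≤ 0 ∧ Esc N₀ (fun i => Y i ω) ⌈α * Real.log ((0 : ℕ) : ℝ)⌉₊ ∅ 0} = ∅ := by
        ext ω
        simp
      simp only [this, measureReal_empty, mul_zero]
      positivity
    · have hn0 : (0 : ℝ) < n := by exact_mod_cast hn
      have h2 : P.real {ω | 1 ≤ n ∧ Esc N₀ (fun i => Y i ω) ⌈α * Real.log n⌉₊ ∅ n} ≤
          2 * (n : ℝ) ^ (psi α - 1 + ε / 2) := by
        refine le_trans (measureReal_mono ?_) (hN n hn)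
        intro ω hω
        exact hω.2
      calc (n : ℝ) ^ (-(psi α) - ε) *
            P.real {ω | 1 ≤ n ∧ Esc N₀ (fun i => Y i ω) ⌈α * Real.log n⌉₊ ∅ n}
          ≤ (n : ℝ) ^ (-(psi α) - ε) * (2 * (n : ℝ) ^ (psi α - 1 + ε / 2)) :=
            mul_le_mul_of_nonneg_left h2 (by positivity)
        _ = 2 * ((n : ℝ) ^ (-(psi α) - ε) * (n : ℝ) ^ (psi α - 1 + ε / 2)) := by ring
        _ = 2 * (n : ℝ) ^ (-(1 + ε / 2)) := by
            rw [← Real.rpow_add hn0]
            ring_nf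

end Pool.Agent.W2helper40.RC
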